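import Mathlib
import Pool.Agent.H695R2.Steiner.Erase
import Pool.Agent.H695R2.Steiner.Crofton

/-!
# Triangulations: oriented area, crossing segments, and the edges at a point
-/

set_option autoImplicit false

open Pool.Agent.H695R2.Steiner

namespace Pool.Agent.Y571.ST

/-- the oriented area -/
noncomputable def ar (a b z : Plane) : ℝ := D cx cy a b z

theorem ar_def (a b z : Plane) :
    ar a b z = (cx b - cx a) * (cy z - cy a) - (cy b - cy a) * (cx z - cx a) := rfl

theorem ar_swap (a b z : Plane) : ar b a z = - ar a b z := by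
  simp only [ar_def]; ring

theorem ar_cycle (a b z : Plane) : ar b z a = ar a b z := by
  simp only [ar_def]; ring

theorem ar_left (a b : Plane) : ar a b a = 0 := by simp only [ar_def]; ring
theorem ar_right (a b : Plane) : ar a b b = 0 := by simp only [ar_def]; ring
theorem ar_same (a b : Plane) : ar a a b = 0 := by simp only [ar_def]; ring

theorem ar_aff (a b c d : Plane) (t : ℝ) :
    ar a b ((1 - t) • c + t • d) = (1 - t) * ar a b c + t * ar a b d := D_affine _ _ _ _ _ _ _

theorem ar_aff1 (a b c d : Plane) (t : ℝ) :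
    ar ((1 - t) • c + t • d) a b = (1 - t) * ar c a b + t * ar d a b := by
  rw [← ar_cycle, ← ar_cycle c, ← ar_cycle d, ar_aff]

theorem D_yx (a b z : Plane) : D cy (-cx) a b z = ar a b z := by
  simp only [ar_def, D, LinearMap.neg_apply]; ring

theorem cx_cont : Continuous fun p : Plane => cx p :=
  (EuclideanSpace.proj (0 : Fin 2) : Plane →L[ℝ] ℝ).continuous
theorem cy_cont : Continuous fun p : Plane => cy p :=
  (EuclideanSpace.proj (1 : Fin 2) : Plane →L[ℝ] ℝ).continuous

theorem ar_tendsto {ι : Type} {l : Filter ι} {f g h : ι → Plane} {a b c : Plane}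
    (hf : Filter.Tendsto f l (nhds a)) (hg : Filter.Tendsto g l (nhds b))
    (hh : Filter.Tendsto h l (nhds c)) :
    Filter.Tendsto (fun i => ar (f i) (g i) (h i)) l (nhds (ar a b c)) := by
  simp only [ar_def]
  have e1 := (cx_cont.tendsto a).comp hf
  have e2 := (cx_cont.tendsto b).comp hg
  have e3 := (cx_cont.tendsto c).comp hh
  have e4 := (cy_cont.tendsto a).comp hf
  have e5 := (cy_cont.tendsto b).comp hg
  have e6 := (cy_cont.tendsto c).comp hh
  exact ((e2.sub e1).mul (e6.sub e4)).sub ((e5.sub e4).mul (e3.sub e1))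

/-- coordinate free form of the non-crossing lemma -/
theorem nc {S : Finset Plane} {a b c d z : Plane}
    (ha : a ∈ S) (hb : b ∈ S) (hc : c ∈ S) (hd : d ∈ S) (hab : a ≠ b) (hcd : c ≠ d)
    (hfab : ∀ p ∈ S, p ∈ segment ℝ a b → p = a ∨ p = b)
    (hfcd : ∀ p ∈ S, p ∈ segment ℝ c d → p = c ∨ p = d)
    (hDc : 0 ≤ ar a b c) (hDd : 0 ≤ ar a b d)
    (hz : z ∈ segment ℝ a b) (hz' : z ∈ segment ℝ c d) :
    ((z = a ∨ z = b) ∧ (z = c ∨ z = d)) ∨ s(a, b) = s(c, d) := by
  by_cases hx : cx a = cx b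
  · have hy : cy a ≠ cy b := fun h => hab (plane_ext hx h)
    exact nc_lemma sep_yx.neg ha hb hc hd hy hcd hfab hfcd (by rw [D_yx]; exact hDc)
      (by rw [D_yx]; exact hDd) hz hz'
  · exact nc_lemma sep_xy ha hb hc hd hx hcd hfab hfcd hDc hDd hz hz'

/-- if two free segments meet improperly, their ends are on strictly different sides -/
theorem nc_side {S : Finset Plane} {a b c d z : Plane}
    (ha : a ∈ S) (hb : b ∈ S) (hc : c ∈ S) (hd : d ∈ S) (hab : a ≠ b) (hcd : c ≠ d)
    (hfab : ∀ p ∈ S, p ∈ segment ℝ a b → p = a ∨ p = b)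
    (hfcd : ∀ p ∈ S, p ∈ segment ℝ c d → p = c ∨ p = d)
    (hz : z ∈ segment ℝ a b) (hz' : z ∈ segment ℝ c d) (hne : s(a, b) ≠ s(c, d))
    (hcom : ¬ ((z = a ∨ z = b) ∧ (z = c ∨ z = d))) : ar a b c * ar a b d < 0 := by
  by_contra hcon
  push Not at hcon
  have h1 : ¬ (0 ≤ ar a b c ∧ 0 ≤ ar a b d) := by
    rintro ⟨h1, h2⟩
    rcases nc ha hb hc hd hab hcd hfab hfcd h1 h2 hz hz' with h | h
    · exact hcom h
    · exact hne h
  have h2 : ¬ (0 ≤ ar b a c ∧ 0 ≤ ar b a d) := by
    rintro ⟨h1, h2⟩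
    have hfba : ∀ p ∈ S, p ∈ segment ℝ b a → p = b ∨ p = a := by
      intro p hp hps
      rw [segment_symm] at hps
      exact (hfab p hp hps).symm
    rcases nc hb ha hc hd hab.symm hcd hfba hfcd h1 h2 (by rw [segment_symm]; exact hz) hz' with h | h
    · exact hcom ⟨h.1.symm, h.2⟩
    · exact hne (by rw [Sym2.eq_swap]; exact h)
  rw [ar_swap, ar_swap a b d] at h2
  by_cases k1 : 0 ≤ ar a b c
  · have k2 : ar a b d < 0 := by
      by_contra k
      exact h1 ⟨k1, not_lt.1 k⟩
    rcases eq_or_lt_of_le k1 with k3 | k3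
    · exact h2 ⟨by linarith, by linarith⟩
    · nlinarith
  · push Not at k1
    have k2 : 0 < ar a b d := by
      by_contra k
      exact h2 ⟨by linarith, by linarith⟩
    nlinarith

/-- proper crossing -/
def Xs (a b c d : Plane) : Prop := ar a b c * ar a b d < 0 ∧ ar c d a * ar c d b < 0

/-- barycentric form of the crossing -/
theorem Xs.exists {a b c d : Plane} (h : Xs a b c d) :
    ∃ z, z ∈ segment ℝ a b ∧ z ∈ segment ℝ c d ∧ z ≠ a ∧ z ≠ b ∧ z ≠ c ∧ z ≠ d := by
  obtain ⟨h1, h2⟩ := h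
  -- the point on cd
  obtain ⟨t, ht⟩ : ∃ t, t = ar a b c / (ar a b c - ar a b d) := ⟨_, rfl⟩
  obtain ⟨s, hs⟩ : ∃ s, s = ar c d a / (ar c d a - ar c d b) := ⟨_, rfl⟩
  have n1 : ar a b c - ar a b d ≠ 0 := by
    intro h
    have : ar a b c = ar a b d := by linarith
    rw [this] at h1
    nlinarith [mul_self_nonneg (ar a b d)]
  have n2 : ar c d a - ar c d b ≠ 0 := by
    intro h
    have : ar c d a = ar c d b := by linarith
    rw [this] at h2
    nlinarith [mul_self_nonneg (ar c d b)]
  have key : ∀ {p q : ℝ}, p * q < 0 → 0 < p / (p - q) ∧ p / (p - q) < 1 := by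
    intro p q hpq
    rcases lt_trichotomy p 0 with hp | hp | hp
    · have hq : 0 < q := by nlinarith
      constructor
      · exact div_pos_of_neg_of_neg hp (by linarith)
      · rw [div_lt_one_of_neg (by linarith)]; linarith
    · rw [hp] at hpq; simp at hpq
    · have hq : q < 0 := by nlinarith
      constructor
      · exact div_pos hp (by linarith)
      · rw [div_lt_one (by linarith)]; linarith
  obtain ⟨t0, t1⟩ := key h1
  obtain ⟨s0, s1⟩ := key h2
  rw [← ht] at t0 t1
  rw [← hs] at s0 s1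
  obtain ⟨z, hz⟩ : ∃ z : Plane, z = (1 - t) • c + t • d := ⟨_, rfl⟩
  have hz' : z = (1 - s) • a + s • b := by
    apply plane_ext
    · rw [hz]
      simp only [map_add, map_smul, smul_eq_mul]
      rw [ht, hs]
      field_simp
      simp only [ar_def]
      ring
    · rw [hz]
      simp only [map_add, map_smul, smul_eq_mul]
      rw [ht, hs]
      field_simp
      simp only [ar_def]
      ring
  have z1 : ar a b z = 0 := by rw [hz', ar_aff, ar_left, ar_right]; ring
  have z2 : ar c d z = 0 := by rw [hz, ar_aff, ar_left, ar_right]; ring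
  refine ⟨z, (mem_segment_iff _ _ _).2 ⟨s, s0.le, s1.le, hz'⟩,
    (mem_segment_iff _ _ _).2 ⟨t, t0.le, t1.le, hz⟩, ?_, ?_, ?_, ?_⟩
  · rintro rfl
    rw [z2] at h2; simp at h2
  · rintro rfl
    rw [z2] at h2; simp at h2
  · rintro rfl
    rw [z1] at h1; simp at h1
  · rintro rfl
    rw [z1] at h1; simp at h1

/-- the segments are compact -/
theorem seg_compact (e : Sym2 Plane) : IsCompact (seg e) := by
  induction e using Sym2.ind with
  | _ a b =>
    rw [seg_mk, segment_eq_image]
    apply isCompact_Icc.image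
    fun_prop

theorem empty' {S : Finset Plane} {T : Finset (Sym2 Plane)} (hT : IsPlanar S T) {e : Sym2 Plane}
    (he : e ∈ T) {p : Plane} (hp : p ∈ S) (h : p ∈ seg e) : p ∈ e := hT.empty e he p hp h

end Pool.Agent.Y571.ST
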