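import Mathlib
import Pool.Agent.Y571.ST.Geo

/-!
# Triangulations: the edges at a point are not contained in a half plane
-/

set_option autoImplicit false

open Pool.Agent.H695R2.Steiner

namespace Pool.Agent.Y571.ST

/-- every point of a triangulation has an edge into each open half plane which contains points of
the set -/
theorem gap {S : Finset Plane} {T : Finset (Sym2 Plane)} (hT : IsTriangulation S T) {z x' : Plane}
    (hz : z ∈ S) (hx' : x' ∈ S) (f : Plane →ₗ[ℝ] ℝ) (hf' : f z < f x') :
    ∃ y, s(z, y) ∈ T ∧ f z < f y := by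
  classical
  by_contra hno
  push Not at hno
  -- edges at `z` stay low
  have h0 : ∀ e ∈ T, z ∈ e → ∀ y ∈ seg e, f y ≤ f z := by
    intro e he hze y hy
    obtain ⟨q, rfl⟩ := Sym2.mem_iff_exists.1 hze
    have h1 := hno q he
    obtain ⟨t, t0, t1, rfl⟩ := (mem_segment_iff _ _ _).1 hy
    simp only [map_add, map_smul, smul_eq_mul]
    nlinarith only [mul_nonneg t0 (sub_nonneg.2 h1)]
  -- nearest point above
  obtain ⟨x, hxm, hxmin⟩ := Finset.exists_min_image (S.filter (fun p => f z < f p))
    (fun p => dist z p) ⟨x', Finset.mem_filter.2 ⟨hx', hf'⟩⟩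
  obtain ⟨hx, hf⟩ := Finset.mem_filter.1 hxm
  have hzx : z ≠ x := by
    rintro rfl
    exact lt_irrefl _ hf
  have hdzx : 0 < dist z x := dist_pos.2 hzx
  have hdist : ∀ (p q : Plane) (t : ℝ), 0 ≤ t → dist p ((1 - t) • p + t • q) = t * dist p q := by
    intro p q t ht
    rw [dist_eq_norm, dist_eq_norm, show p - ((1 - t) • p + t • q) = t • (p - q) by module,
      norm_smul, Real.norm_of_nonneg ht]
  have hfree : ∀ p ∈ S, p ∈ segment ℝ z x → p = z ∨ p = x := by
    intro p hp hps
    obtain ⟨t, t0, t1, hpt⟩ := (mem_segment_iff _ _ _).1 hps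
    rcases eq_or_lt_of_le t0 with h | h
    · left
      rw [hpt, ← h]; simp
    rcases eq_or_lt_of_le t1 with h' | h'
    · right
      rw [hpt, h']; simp
    exfalso
    have h1 : f z < f p := by
      rw [hpt]
      simp only [map_add, map_smul, smul_eq_mul]
      nlinarith only [mul_pos h (sub_pos.2 hf)]
    have h2 : dist z x ≤ dist z p := hxmin p (Finset.mem_filter.2 ⟨hp, h1⟩)
    rw [hpt, hdist z x t t0] at h2
    nlinarith only [h2, mul_pos (sub_pos.2 h') hdzx]
  -- an improper edge
  have himp : ∃ e ∈ T, z ∉ e ∧ ∃ y ∈ seg e, y ∈ segment ℝ z x ∧ y ≠ x := by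
    by_contra hcon
    push Not at hcon
    have hmem := mem_of_free hT hz hx hzx hfree (by
      intro e he hne y hy hyx
      by_cases hze : z ∈ e
      · have h1 := h0 e he hze y hy
        obtain ⟨t, t0, t1, hyt⟩ := (mem_segment_iff _ _ _).1 hyx
        have h2 : f y = f z + t * (f x - f z) := by
          rw [hyt]
          simp only [map_add, map_smul, smul_eq_mul]
          ring
        have h3 : t = 0 := by
          by_contra h
          have : 0 < t := lt_of_le_of_ne t0 (Ne.symm h)
          nlinarith only [h1, h2, mul_pos this (sub_pos.2 hf)]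
        have h4 : y = z := by rw [hyt, h3]; simp
        exact ⟨Or.inl h4, h4 ▸ hze⟩
      · have h1 := hcon e he hze y hy hyx
        exact ⟨Or.inr h1, hT.1.empty e he y (h1 ▸ hx) hy⟩)
    exact absurd (hno x hmem) (not_le.2 hf)
  obtain ⟨e1, he1, hze1, y1, hy1, hy1x, hy1ne⟩ := himp
  -- the nearest point on the edges
  have hK : IsCompact ((⋃ e ∈ T.filter (fun e => z ∉ e), seg e) ∩ segment ℝ z x) := by
    apply IsCompact.inter
    · exact (T.filter (fun e => z ∉ e)).finite_toSet.isCompact_biUnion (fun e _ => seg_compact e)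
    · exact seg_compact s(z, x)
  obtain ⟨w, ⟨hwU, hwx⟩, hwmin⟩ := hK.exists_isMinOn
    ⟨y1, Set.mem_iUnion₂.2 ⟨e1, Finset.mem_filter.2 ⟨he1, hze1⟩, hy1⟩, hy1x⟩
    (f := fun p => dist z p) (continuous_const.dist continuous_id).continuousOn
  obtain ⟨e, hem, hwe⟩ := Set.mem_iUnion₂.1 hwU
  obtain ⟨he, hze⟩ := Finset.mem_filter.1 hem
  have hwmin' : ∀ g ∈ T, z ∉ g → ∀ y ∈ seg g, y ∈ segment ℝ z x → dist z w ≤ dist z y := by
    intro g hg hzg y hy hyx
    exact hwmin ⟨Set.mem_iUnion₂.2 ⟨g, Finset.mem_filter.2 ⟨hg, hzg⟩, hy⟩, hyx⟩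
  obtain ⟨s, s0, s1, hws⟩ := (mem_segment_iff _ _ _).1 hwx
  have hwz : w ≠ z := by
    rintro rfl
    exact hze (hT.1.empty e he w hz hwe)
  have hs0 : 0 < s := by
    rcases eq_or_lt_of_le s0 with h | h
    · exfalso; apply hwz; rw [hws, ← h]; simp
    · exact h
  have hs1 : s < 1 := by
    have h1 := hwmin' e1 he1 hze1 y1 hy1 hy1x
    obtain ⟨t, t0, t1, hyt⟩ := (mem_segment_iff _ _ _).1 hy1x
    have ht : t < 1 := by
      rcases eq_or_lt_of_le t1 with h | h
      · exfalso; apply hy1ne; rw [hyt, h]; simp
      · exact h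
    rw [hws, hyt, hdist _ _ _ s0, hdist _ _ _ t0] at h1
    have : s ≤ t := le_of_mul_le_mul_right h1 hdzx
    linarith
  have hdzw : dist z w = s * dist z x := by rw [hws, hdist _ _ _ s0]
  have hwS : w ∉ S := by
    intro h
    rcases hfree w h hwx with h' | h'
    · exact hwz h'
    · rw [h'] at hdzw
      nlinarith only [hdzw, mul_pos (sub_pos.2 hs1) hdzx]
  have hfw : f z < f w := by
    rw [hws]
    simp only [map_add, map_smul, smul_eq_mul]
    nlinarith only [mul_pos hs0 (sub_pos.2 hf)]
  -- ends of the edge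
  obtain ⟨a, b, rfl, hfa⟩ : ∃ a b, e = s(a, b) ∧ f z < f a := by
    induction e using Sym2.ind with
    | _ a b =>
      by_cases h : f z < f a
      · exact ⟨a, b, rfl, h⟩
      · refine ⟨b, a, Sym2.eq_swap, ?_⟩
        obtain ⟨t, t0, t1, hwt⟩ := (mem_segment_iff _ _ _).1 hwe
        by_contra h'
        have : f w ≤ f z := by
          rw [hwt]
          simp only [map_add, map_smul, smul_eq_mul]
          nlinarith only [mul_nonneg (sub_nonneg.2 t1) (sub_nonneg.2 (not_lt.1 h)), mul_nonneg t0 (sub_nonneg.2 (not_lt.1 h'))]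
        linarith
  have ha : a ∈ S := hT.1.ends _ he a (Sym2.mem_mk_left _ _)
  have hb : b ∈ S := hT.1.ends _ he b (Sym2.mem_mk_right _ _)
  obtain ⟨t1, t10, t11, hwt⟩ := (mem_segment_iff _ _ _).1 hwe
  have ht10 : 0 < t1 := by
    rcases eq_or_lt_of_le t10 with h | h
    · exfalso; apply hwS; rw [hwt, ← h]; simpa using ha
    · exact h
  have ht11 : t1 < 1 := by
    rcases eq_or_lt_of_le t11 with h | h
    · exfalso; apply hwS; rw [hwt, h]; simpa using hb
    · exact h
  -- not collinear
  have hpar : ∀ {p q r : Plane}, p ≠ q → ar p q r = 0 → ∃ γ : ℝ, r = (1 - γ) • p + γ • q := by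
    intro p q r hpq h
    by_cases hx : cx p = cx q
    · have hy : cy p ≠ cy q := fun h => hpq (plane_ext hx h)
      exact exists_param sep_yx.neg hy (by rw [D_yx]; exact h)
    · exact exists_param sep_xy hx h
  obtain ⟨σ, hσ⟩ : ∃ σ, σ = ar z w a := ⟨_, rfl⟩
  have hσ0 : σ ≠ 0 := by
    intro h
    rw [h] at hσ
    obtain ⟨l, hl⟩ := hpar hwz.symm hσ.symm
    -- a = z + l (w - z)
    have hfal : f a = f z + l * (f w - f z) := by
      conv_lhs => rw [hl]
      simp only [map_add, map_smul, smul_eq_mul]
      ring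
    have hl0 : 0 < l := by
      by_contra h'
      have : l * (f w - f z) ≤ 0 := mul_nonpos_of_nonpos_of_nonneg (not_lt.1 h') (by linarith)
      linarith
    have hax : a = (1 - l * s) • z + (l * s) • x := by
      rw [hl, hws]; module
    have hls : 1 ≤ l * s := by
      by_contra h'
      have hmem : a ∈ segment ℝ z x :=
        (mem_segment_iff _ _ _).2 ⟨l * s, by positivity, (not_le.1 h').le, hax⟩
      rcases hfree a ha hmem with h'' | h''
      · rw [h''] at hfa; exact lt_irrefl _ hfa
      · have e1 : dist z a = l * s * dist z x := by rw [hax, hdist _ _ _ (by positivity)]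
        rw [h''] at e1
        nlinarith only [e1, mul_pos (sub_pos.2 (not_le.1 h')) hdzx]
    have hl1 : 1 < l := by nlinarith only [hls, mul_pos hl0 (sub_pos.2 hs1)]
    -- b = z + m (w - z)
    obtain ⟨m, hm⟩ : ∃ m, m = (1 - (1 - t1) * l) / t1 := ⟨_, rfl⟩
    have hbm : b = (1 - m) • z + m • w := by
      have e2 : t1 • b = w - (1 - t1) • a := by
        rw [hwt]
        module
      have e3 : b = t1⁻¹ • (w - (1 - t1) • a) := by
        rw [← e2, smul_smul, inv_mul_cancel₀ ht10.ne', one_smul]
      rw [e3, hl]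
      have e4 : m = t1⁻¹ * (1 - (1 - t1) * l) := by rw [hm]; ring
      have e5 : t1⁻¹ * t1 = 1 := inv_mul_cancel₀ ht10.ne'
      have e6 : (1 : ℝ) - m = t1⁻¹ * (-((1 - t1) * (1 - l))) := by
        rw [e4]
        linear_combination -e5
      rw [e6, e4]
      module
    have hm1 : m < 1 := by
      rw [hm, div_lt_one ht10]
      nlinarith only [mul_pos (sub_pos.2 ht11) (sub_pos.2 hl1)]
    have hm0 : m ≤ 0 := by
      by_contra h'
      push Not at h'
      have hbx : b = (1 - m * s) • z + (m * s) • x := by rw [hbm, hws]; module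
      have hmem : b ∈ segment ℝ z x :=
        (mem_segment_iff _ _ _).2 ⟨m * s, by positivity, by nlinarith only [hm1, hs1, h', mul_pos h' (sub_pos.2 hs1)], hbx⟩
      have e1 : dist z b = m * s * dist z x := by rw [hbx, hdist _ _ _ (by positivity)]
      rcases hfree b hb hmem with h'' | h''
      · rw [h'', dist_self] at e1
        have : 0 < m * s * dist z x := by positivity
        linarith
      · rw [h''] at e1
        have : m * s < 1 := by nlinarith only [hm1, hs1, h', mul_pos h' (sub_pos.2 hs1)]
        nlinarith only [e1, mul_pos (sub_pos.2 this) hdzx]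
    apply hze
    apply hT.1.empty _ he z hz
    rw [seg_mk, mem_segment_iff]
    refine ⟨l / (l - m), by apply div_nonneg <;> linarith, ?_, ?_⟩
    · rw [div_le_one (by linarith)]; linarith
    · have h3 : l - m ≠ 0 := by linarith
      rw [hl, hbm]
      have e7 : l / (l - m) * (l - m) = l := by field_simp
      obtain ⟨q, hq⟩ : ∃ q, q = l / (l - m) := ⟨_, rfl⟩
      rw [← hq] at e7 ⊢
      have e8 : (1 - q) * l + q * m = 0 := by linarith
      have e9 : (1 - q) • ((1 - l) • z + l • w) + q • ((1 - m) • z + m • w) =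
          (1 - ((1 - q) * l + q * m)) • z + ((1 - q) * l + q * m) • w := by module
      rw [e9, e8]; simp
  -- coordinates
  obtain ⟨A, hA⟩ : ∃ A : Plane → ℝ, A = fun p => ar z p a / σ := ⟨_, rfl⟩
  obtain ⟨B, hB⟩ : ∃ B : Plane → ℝ, B = fun p => ar z w p / σ := ⟨_, rfl⟩
  have hAaff : ∀ (p q : Plane) (t : ℝ), A ((1 - t) • p + t • q) = (1 - t) * A p + t * A q := by
    intro p q t
    simp only [hA]
    have : ∀ r : Plane, ar z r a = ar a z r := fun r => by simp only [ar_def]; ring
    rw [this, this, this, ar_aff]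
    ring
  have hBaff : ∀ (p q : Plane) (t : ℝ), B ((1 - t) • p + t • q) = (1 - t) * B p + t * B q := by
    intro p q t
    simp only [hB]
    rw [ar_aff]
    ring
  have hAz : A z = 0 := by simp only [hA, ar_same, zero_div]
  have hBz : B z = 0 := by simp only [hB, ar_left, zero_div]
  have hAw : A w = 1 := by simp only [hA]; rw [← hσ, div_self hσ0]
  have hBw : B w = 0 := by simp only [hB, ar_right, zero_div]
  have hAa : A a = 0 := by simp only [hA, ar_right, zero_div]
  have hBa : B a = 1 := by simp only [hB]; rw [← hσ, div_self hσ0]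
  have hrep : ∀ p : Plane, p = (1 - A p - B p) • z + A p • w + B p • a := by
    intro p
    have h1 : σ * A p = ar z p a := by simp only [hA]; field_simp
    have h2 : σ * B p = ar z w p := by simp only [hB]; field_simp
    rw [ar_def] at h1 h2 hσ
    apply plane_ext
    · simp only [map_add, map_smul, smul_eq_mul]
      have : σ * (cx p - ((1 - A p - B p) * cx z + A p * cx w + B p * cx a)) = 0 := by
        have e : σ * (cx p - ((1 - A p - B p) * cx z + A p * cx w + B p * cx a)) =
          σ * (cx p - cx z) - (σ * A p) * (cx w - cx z) - (σ * B p) * (cx a - cx z) := by ring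
        rw [e, h1, h2, hσ]
        ring
      rcases mul_eq_zero.1 this with h | h
      · exact absurd h hσ0
      · linarith
    · simp only [map_add, map_smul, smul_eq_mul]
      have : σ * (cy p - ((1 - A p - B p) * cy z + A p * cy w + B p * cy a)) = 0 := by
        have e : σ * (cy p - ((1 - A p - B p) * cy z + A p * cy w + B p * cy a)) =
          σ * (cy p - cy z) - (σ * A p) * (cy w - cy z) - (σ * B p) * (cy a - cy z) := by ring
        rw [e, h1, h2, hσ]
        ring
      rcases mul_eq_zero.1 this with h | h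
      · exact absurd h hσ0
      · linarith
  -- the line of the edge
  have hAB1 : ∀ p ∈ seg s(a, b), A p + B p = 1 := by
    have hb1 : A b + B b = 1 := by
      have e1 : A w = (1 - t1) * A a + t1 * A b := by rw [hwt, hAaff]
      have e2 : B w = (1 - t1) * B a + t1 * B b := by rw [hwt, hBaff]
      rw [hAw, hAa] at e1
      rw [hBw, hBa] at e2
      have : t1 * (A b + B b - 1) = 0 := by linarith
      rcases mul_eq_zero.1 this with h | h
      · exact absurd h ht10.ne'
      · linarith
    intro p hp
    obtain ⟨t, t0, t1', hpt⟩ := (mem_segment_iff _ _ _).1 hp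
    rw [hpt, hAaff, hBaff, hAa, hBa]
    linear_combination t * hb1
  have hsegwa : ∀ p, 0 ≤ A p → 0 ≤ B p → A p + B p = 1 → p ∈ seg s(a, b) := by
    intro p h1 h2 h3
    rw [seg_mk, mem_segment_iff]
    refine ⟨A p * t1, by positivity, by nlinarith only [h1, h2, h3, mul_nonneg h1 (sub_nonneg.2 ht11.le)], ?_⟩
    conv_lhs => rw [hrep p]
    rw [show 1 - A p - B p = 0 by linarith, zero_smul, zero_add, hwt,
      show B p = 1 - A p by linarith]
    module
  -- points in the triangle
  obtain ⟨SD, hSD⟩ : ∃ SD : Finset Plane, SD = S.filter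
    (fun p => p ≠ z ∧ 0 ≤ A p ∧ 0 ≤ B p ∧ A p + B p ≤ 1) := ⟨_, rfl⟩
  have hmemSD : ∀ p, p ∈ SD ↔ p ∈ S ∧ p ≠ z ∧ 0 ≤ A p ∧ 0 ≤ B p ∧ A p + B p ≤ 1 := by
    intro p
    rw [hSD, Finset.mem_filter]
  have haSD : a ∈ SD := by
    rw [hmemSD]
    refine ⟨ha, ?_, by rw [hAa], by rw [hBa]; norm_num, by rw [hAa, hBa]; norm_num⟩
    rintro rfl
    exact lt_irrefl _ hfa
  have hxA : s * A x = 1 := by
    have e1 : A w = (1 - s) * A z + s * A x := by rw [hws, hAaff]
    rw [hAw, hAz] at e1
    linarith
  have hxB : B x = 0 := by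
    have e1 : B w = (1 - s) * B z + s * B x := by rw [hws, hBaff]
    rw [hBw, hBz] at e1
    have : s * B x = 0 := by linarith
    rcases mul_eq_zero.1 this with h | h
    · exact absurd h hs0.ne'
    · exact h
  have hzw : ∀ p, B p = 0 → 0 ≤ A p → A p ≤ 1 → p ∈ segment ℝ z x := by
    intro p h1 h2 h3
    rw [mem_segment_iff]
    refine ⟨A p * s, by positivity, by nlinarith only [h3, mul_nonneg h2 (sub_nonneg.2 hs1.le)], ?_⟩
    conv_lhs => rw [hrep p]
    rw [h1, hws]
    module
  have hBpos : ∀ p ∈ SD, 0 < B p := by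
    intro p hp
    obtain ⟨h1, h2, h3, h4, h5⟩ := (hmemSD p).1 hp
    rcases eq_or_lt_of_le h4 with h | h
    · exfalso
      rcases hfree p h1 (hzw p h.symm h3 (by linarith)) with h6 | h6
      · exact h2 h6
      · rw [h6] at h3 h5 h
        nlinarith only [h5, h, hxA, hs1, mul_nonneg hs0.le (by linarith only [h5, h] : (0 : ℝ) ≤ 1 - A x)]
    · exact h
  have hfSD : ∀ p ∈ SD, f z < f p := by
    intro p hp
    obtain ⟨h1, h2, h3, h4, h5⟩ := (hmemSD p).1 hp
    have h6 := hBpos p hp
    have e : f p = f z + A p * (f w - f z) + B p * (f a - f z) := by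
      conv_lhs => rw [hrep p]
      simp only [map_add, map_smul, smul_eq_mul]
      ring
    rw [e]
    have := mul_nonneg h3 (by linarith : 0 ≤ f w - f z)
    have := mul_pos h6 (by linarith : 0 < f a - f z)
    linarith
  -- the extreme point
  obtain ⟨v1, hv1, hv1min⟩ := Finset.exists_min_image SD (fun p => B p / (A p + B p)) ⟨a, haSD⟩
  obtain ⟨v, hvm, hvmin⟩ := Finset.exists_min_image
    (SD.filter (fun p => B p / (A p + B p) = B v1 / (A v1 + B v1))) (fun p => A p + B p)
    ⟨v1, Finset.mem_filter.2 ⟨hv1, rfl⟩⟩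
  obtain ⟨hv, hveq⟩ := Finset.mem_filter.1 hvm
  obtain ⟨hvS, hvz, hAv, hBv', hABv⟩ := (hmemSD v).1 hv
  have hBv := hBpos v hv
  have m1 : ∀ p ∈ SD, B v * A p ≤ B p * A v := by
    intro p hp
    obtain ⟨h1, h2, h3, h4, h5⟩ := (hmemSD p).1 hp
    have h6 := hBpos p hp
    have h7 := hv1min p hp
    rw [← hveq, div_le_div_iff₀ (by linarith) (by linarith)] at h7
    nlinarith only [h7]
  have m2 : ∀ p ∈ SD, B v * A p = B p * A v → A v + B v ≤ A p + B p := by
    intro p hp hpe
    obtain ⟨h1, h2, h3, h4, h5⟩ := (hmemSD p).1 hp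
    have h6 := hBpos p hp
    apply hvmin p
    rw [Finset.mem_filter]
    refine ⟨hp, ?_⟩
    rw [← hveq, div_eq_div_iff (by linarith) (by linarith)]
    linarith
  -- the segment zv
  have hfreev : ∀ p ∈ S, p ∈ segment ℝ z v → p = z ∨ p = v := by
    intro p hp hps
    obtain ⟨t, t0, t1', hpt⟩ := (mem_segment_iff _ _ _).1 hps
    rcases eq_or_lt_of_le t0 with h | h
    · left; rw [hpt, ← h]; simp
    rcases eq_or_lt_of_le t1' with h' | h'
    · right; rw [hpt, h']; simp
    exfalso
    have eA : A p = t * A v := by rw [hpt, hAaff, hAz]; ring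
    have eB : B p = t * B v := by rw [hpt, hBaff, hBz]; ring
    have hpSD : p ∈ SD := by
      rw [hmemSD]
      refine ⟨hp, ?_, by rw [eA]; positivity, by rw [eB]; positivity, by rw [eA, eB]; nlinarith only [hABv, mul_nonneg t0 (sub_nonneg.2 hABv), t1']⟩
      rintro rfl
      rw [hBz] at eB
      have : 0 < t * B v := by positivity
      linarith
    have := m2 p hpSD (by rw [eA, eB]; ring)
    rw [eA, eB] at this
    nlinarith only [this, mul_pos (sub_pos.2 h') (by linarith only [hAv, hBv] : (0 : ℝ) < A v + B v)]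
  have hncv : ∀ g ∈ T, g ≠ s(z, v) → ∀ y, y ∈ seg g → y ∈ segment ℝ z v →
      (y = z ∨ y = v) ∧ y ∈ g := by
    intro g hg hgne y hyg hyv
    by_cases hyz : y = z
    · exact ⟨Or.inl hyz, hT.1.empty g hg y (hyz ▸ hz) hyg⟩
    by_cases hyv' : y = v
    · exact ⟨Or.inr hyv', hT.1.empty g hg y (hyv' ▸ hvS) hyg⟩
    exfalso
    obtain ⟨τ, τ0', τ1', hyτ⟩ := (mem_segment_iff _ _ _).1 hyv
    have τ0 : 0 < τ := by
      rcases eq_or_lt_of_le τ0' with h | h
      · exfalso; apply hyz; rw [hyτ, ← h]; simp
      · exact h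
    have τ1 : τ < 1 := by
      rcases eq_or_lt_of_le τ1' with h | h
      · exfalso; apply hyv'; rw [hyτ, h]; simp
      · exact h
    have hyS : y ∉ S := by
      intro h
      rcases hfreev y h hyv with h' | h'
      · exact hyz h'
      · exact hyv' h'
    have hAy : A y = τ * A v := by rw [hyτ, hAaff, hAz]; ring
    have hBy : B y = τ * B v := by rw [hyτ, hBaff, hBz]; ring
    have hfy : f z < f y := by
      have := hfSD v hv
      rw [hyτ]
      simp only [map_add, map_smul, smul_eq_mul]
      nlinarith only [mul_pos τ0 (sub_pos.2 this)]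
    have hzg : z ∉ g := fun h => absurd (h0 g hg h y hyg) (not_le.2 hfy)
    -- exit through the edge
    have exitE : ∀ p, p ∈ seg g → 0 ≤ B p → A p + B p = 1 → 0 < B v * A p - A v * B p → False := by
      intro p hpg h1 h2 h3
      have h4 : 0 < A p := by
        by_contra h
        have : B v * A p ≤ 0 := mul_nonpos_of_nonneg_of_nonpos hBv' (not_lt.1 h)
        have : 0 ≤ A v * B p := mul_nonneg hAv h1
        linarith
      have hpe := hsegwa p h4.le h1 h2
      have hge : g ≠ s(a, b) := by
        rintro rfl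
        have := hAB1 y hyg
        rw [hAy, hBy] at this
        nlinarith only [this, τ1, mul_nonneg τ0.le (sub_nonneg.2 hABv)]
      have hm := hT.1.meet g hg _ he hge p hpg hpe
      have hpS : p ∈ S := hT.1.ends g hg p hm.1
      have hpSD : p ∈ SD := by
        rw [hmemSD]
        refine ⟨hpS, ?_, h4.le, h1, h2.le⟩
        rintro rfl
        rw [hAz, hBz] at h2
        norm_num at h2
      have := m1 p hpSD
      linarith
    -- exit through zw
    have exitZ : ∀ p, p ∈ seg g → B p = 0 → 0 < A p → A p < 1 → False := by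
      intro p hpg h1 h2 h3
      have h4 := hwmin' g hg hzg p hpg (hzw p h1 h2.le h3.le)
      have h5 : p = (1 - A p) • z + A p • w := by
        conv_lhs => rw [hrep p]
        rw [h1]; module
      rw [h5, hdist _ _ _ h2.le] at h4
      have : 0 < dist z w := dist_pos.2 hwz.symm
      nlinarith only [h4, mul_pos (sub_pos.2 h3) this]
    have exit : ∀ c ∈ S, (∀ ρ : ℝ, 0 ≤ ρ → ρ ≤ 1 → (1 - ρ) • y + ρ • c ∈ seg g) →
        0 < B v * A c - A v * B c → False := by
      intro c hc hcg hθ
      have hout : ¬ (0 ≤ A c ∧ 0 ≤ B c ∧ A c + B c ≤ 1) := by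
        rintro ⟨h1, h2, h3⟩
        have hcz : c ≠ z := by
          rintro rfl
          rw [hAz, hBz] at hθ
          simp at hθ
        have := m1 c ((hmemSD c).2 ⟨hc, hcz, h1, h2, h3⟩)
        linarith
      have h0y : A y + B y < 1 := by rw [hAy, hBy]; nlinarith only [τ1, mul_nonneg τ0.le (sub_nonneg.2 hABv)]
      by_cases hBc : 0 ≤ B c
      · have hAc : 0 < A c := by
          by_contra h
          have : B v * A c ≤ 0 := mul_nonpos_of_nonneg_of_nonpos hBv' (not_lt.1 h)
          have : 0 ≤ A v * B c := mul_nonneg hAv hBc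
          linarith
        have hABc : 1 < A c + B c := by
          by_contra h
          exact hout ⟨hAc.le, hBc, not_lt.1 h⟩
        obtain ⟨ρ, hρ⟩ : ∃ ρ, ρ = (1 - (A y + B y)) / ((A c + B c) - (A y + B y)) := ⟨_, rfl⟩
        have hden : 0 < (A c + B c) - (A y + B y) := by linarith
        have ρ0 : 0 < ρ := by rw [hρ]; apply div_pos <;> linarith
        have ρ1 : ρ < 1 := by rw [hρ, div_lt_one hden]; linarith
        have hρe : ρ * ((A c + B c) - (A y + B y)) = 1 - (A y + B y) := by
          rw [hρ]; field_simp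
        apply exitE _ (hcg ρ ρ0.le ρ1.le)
        · rw [hBaff, hBy]
          have : 0 ≤ (1 - ρ) * (τ * B v) := by
            apply mul_nonneg (by linarith); positivity
          have : 0 ≤ ρ * B c := by positivity
          linarith
        · rw [hBaff, hAaff]; linarith
        · rw [hBaff, hAaff, hAy, hBy]
          have : B v * ((1 - ρ) * (τ * A v) + ρ * A c) - A v * ((1 - ρ) * (τ * B v) + ρ * B c) =
            ρ * (B v * A c - A v * B c) := by ring
          rw [this]; positivity
      · push Not at hBc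
        have hByp : 0 < B y := by rw [hBy]; positivity
        obtain ⟨ρ, hρ⟩ : ∃ ρ, ρ = B y / (B y - B c) := ⟨_, rfl⟩
        have hden : 0 < B y - B c := by linarith
        have ρ0 : 0 < ρ := by rw [hρ]; exact div_pos hByp hden
        have ρ1 : ρ < 1 := by rw [hρ, div_lt_one hden]; linarith
        have hρe : ρ * (B y - B c) = B y := by rw [hρ]; field_simp
        obtain ⟨y0, hy0⟩ : ∃ y0, y0 = (1 - ρ) • y + ρ • c := ⟨_, rfl⟩
        have hBy0 : B y0 = 0 := by rw [hy0, hBaff]; linarith
        have hAy0' : A y0 = (1 - ρ) * A y + ρ * A c := by rw [hy0, hAaff]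
        have hθ0 : B v * A y0 = ρ * (B v * A c - A v * B c) := by
          have e1 : A v * B y0 = 0 := by rw [hBy0]; ring
          have e2 : A v * B y0 = A v * ((1 - ρ) * B y + ρ * B c) := by rw [hy0, hBaff]
          rw [hAy0', hAy]
          rw [hBy] at e2
          linarith
        have hAy0 : 0 < A y0 := by
          have : 0 < B v * A y0 := by rw [hθ0]; positivity
          exact (pos_iff_pos_of_mul_pos this).1 hBv
        by_cases hA1 : A y0 < 1
        · exact exitZ y0 (hy0 ▸ hcg ρ ρ0.le ρ1.le) hBy0 hAy0 hA1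
        · push Not at hA1
          obtain ⟨κ, hκ⟩ : ∃ κ, κ = (1 - (A y + B y)) / (A y0 - (A y + B y)) := ⟨_, rfl⟩
          have hden2 : 0 < A y0 - (A y + B y) := by linarith
          have κ0 : 0 < κ := by rw [hκ]; apply div_pos <;> linarith
          have κ1 : κ ≤ 1 := by rw [hκ, div_le_one hden2]; linarith
          have hκe : κ * (A y0 - (A y + B y)) = 1 - (A y + B y) := by
            rw [hκ]; field_simp
          have e3 : (1 - κ) • y + κ • y0 = (1 - κ * ρ) • y + (κ * ρ) • c := by
            rw [hy0]; module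
          have hmem : (1 - κ) • y + κ • y0 ∈ seg g := by
            rw [e3]
            apply hcg
            · positivity
            · nlinarith only [κ1, mul_nonneg κ0.le (sub_nonneg.2 ρ1.le)]
          apply exitE _ hmem
          · rw [hBaff, hBy0]
            have : 0 ≤ (1 - κ) * B y := mul_nonneg (by linarith) hByp.le
            linarith
          · rw [hBaff, hAaff, hBy0]; linarith
          · rw [hBaff, hAaff, hBy0, hAy, hBy]
            have : B v * ((1 - κ) * (τ * A v) + κ * A y0) - A v * ((1 - κ) * (τ * B v) + κ * 0) =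
              κ * (B v * A y0) := by ring
            rw [this]; positivity
    -- the ends of g
    induction g using Sym2.ind with
    | _ c d =>
      have hc : c ∈ S := hT.1.ends _ hg c (Sym2.mem_mk_left _ _)
      have hd : d ∈ S := hT.1.ends _ hg d (Sym2.mem_mk_right _ _)
      obtain ⟨μ, μ0', μ1', hyμ⟩ := (mem_segment_iff _ _ _).1 hyg
      have μ0 : 0 < μ := by
        rcases eq_or_lt_of_le μ0' with h | h
        · exfalso; apply hyS; rw [hyμ, ← h]; simpa using hc
        · exact h
      have μ1 : μ < 1 := by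
        rcases eq_or_lt_of_le μ1' with h | h
        · exfalso; apply hyS; rw [hyμ, h]; simpa using hd
        · exact h
      have hcg : ∀ ρ : ℝ, 0 ≤ ρ → ρ ≤ 1 → (1 - ρ) • y + ρ • c ∈ seg s(c, d) := by
        intro ρ h1 h2
        rw [seg_mk, mem_segment_iff]
        refine ⟨(1 - ρ) * μ, mul_nonneg (by linarith) μ0.le, by nlinarith only [μ1, mul_nonneg h1 μ0.le], ?_⟩
        rw [hyμ]; module
      have hdg : ∀ ρ : ℝ, 0 ≤ ρ → ρ ≤ 1 → (1 - ρ) • y + ρ • d ∈ seg s(c, d) := by
        intro ρ h1 h2
        rw [seg_mk, mem_segment_iff]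
        refine ⟨1 - (1 - ρ) * (1 - μ), ?_, ?_, ?_⟩
        · have : (1 - ρ) * (1 - μ) ≤ 1 := by nlinarith only [h1, mul_nonneg μ0.le (sub_nonneg.2 h2)]
          linarith
        · have : 0 ≤ (1 - ρ) * (1 - μ) := mul_nonneg (by linarith) (by linarith)
          linarith
        · rw [hyμ]; module
      have hAy2 : A y = (1 - μ) * A c + μ * A d := by rw [hyμ, hAaff]
      have hBy2 : B y = (1 - μ) * B c + μ * B d := by rw [hyμ, hBaff]
      have hθy : (1 - μ) * (B v * A c - A v * B c) + μ * (B v * A d - A v * B d) = 0 := by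
        have : B v * A y - A v * B y = 0 := by rw [hAy, hBy]; ring
        rw [hAy2, hBy2] at this
        linarith
      rcases lt_trichotomy (B v * A c - A v * B c) 0 with h | h | h
      · apply exit d hd hdg
        have h1 : (1 - μ) * (B v * A c - A v * B c) < 0 := mul_neg_of_pos_of_neg (by linarith) h
        have h2 : 0 < μ * (B v * A d - A v * B d) := by linarith
        exact (pos_iff_pos_of_mul_pos h2).1 μ0
      · rw [h] at hθy
        have h' : B v * A d - A v * B d = 0 := by
          have : μ * (B v * A d - A v * B d) = 0 := by linarith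
          rcases mul_eq_zero.1 this with h1 | h1
          · exact absurd h1 μ0.ne'
          · exact h1
        -- collinear
        have hline : ∀ q ∈ S, B v * A q - A v * B q = 0 → ∃ l : ℝ, q = (1 - l) • z + l • v ∧
            B q = l * B v ∧ (l ≤ 0 ∨ 1 ≤ l) := by
          intro q hq hθq
          obtain ⟨l, hl⟩ : ∃ l, l = B q / B v := ⟨_, rfl⟩
          have e1 : B q = l * B v := by rw [hl]; field_simp
          have e2 : A q = l * A v := by
            have : B v * (A q - l * A v) = 0 := by rw [e1] at hθq; linarith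
            rcases mul_eq_zero.1 this with h1 | h1
            · exact absurd h1 hBv.ne'
            · linarith
          have e3 : q = (1 - l) • z + l • v := by
            conv_lhs => rw [hrep q]
            conv_rhs => rw [hrep v]
            rw [e1, e2]
            module
          refine ⟨l, e3, e1, ?_⟩
          by_contra h1
          push Not at h1
          rcases hfreev q hq ((mem_segment_iff _ _ _).2 ⟨l, h1.1.le, h1.2.le, e3⟩) with h2 | h2
          · rw [h2, hBz] at e1
            have : 0 < l * B v := mul_pos h1.1 hBv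
            linarith
          · rw [h2] at e1
            nlinarith only [e1, mul_pos (sub_pos.2 h1.2) hBv]
        obtain ⟨l, hl, hlB, hl'⟩ := hline c hc h
        obtain ⟨m, hm, hmB, hm'⟩ := hline d hd h'
        have hτ : τ = (1 - μ) * l + μ * m := by
          have : B v * (τ - ((1 - μ) * l + μ * m)) = 0 := by
            have := hBy2
            rw [hBy, hlB, hmB] at this
            linarith
          rcases mul_eq_zero.1 this with h1 | h1
          · exact absurd h1 hBv.ne'
          · linarith
        apply hzg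
        apply hT.1.empty _ hg z hz
        rw [seg_mk, mem_segment_iff]
        have key : (l ≤ 0 ∧ 1 ≤ m) ∨ (1 ≤ l ∧ m ≤ 0) := by
          rcases hl' with h1 | h1 <;> rcases hm' with h2 | h2
          · exfalso; nlinarith only [hτ, τ0, mul_nonneg (sub_nonneg.2 μ1.le) (neg_nonneg.2 h1), mul_nonneg μ0.le (neg_nonneg.2 h2)]
          · exact Or.inl ⟨h1, h2⟩
          · exact Or.inr ⟨h1, h2⟩
          · exfalso; nlinarith only [hτ, τ1, mul_nonneg (sub_nonneg.2 μ1.le) (sub_nonneg.2 h1), mul_nonneg μ0.le (sub_nonneg.2 h2)]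
        have hlm : l - m ≠ 0 := by
          rcases key with ⟨h1, h2⟩ | ⟨h1, h2⟩
          · linarith
          · linarith
        refine ⟨l / (l - m), ?_, ?_, ?_⟩
        · rcases key with ⟨h1, h2⟩ | ⟨h1, h2⟩
          · exact div_nonneg_of_nonpos h1 (by linarith)
          · exact div_nonneg (by linarith) (by linarith)
        · rcases key with ⟨h1, h2⟩ | ⟨h1, h2⟩
          · rw [div_le_one_of_neg (by linarith)]; linarith
          · rw [div_le_one (by linarith)]; linarith
        · obtain ⟨q, hq⟩ : ∃ q, q = l / (l - m) := ⟨_, rfl⟩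
          have e7 : q * (l - m) = l := by rw [hq]; field_simp
          rw [← hq, hl, hm]
          have e8 : (1 - q) * l + q * m = 0 := by linarith
          have e9 : (1 - q) • ((1 - l) • z + l • v) + q • ((1 - m) • z + m • v) =
              (1 - ((1 - q) * l + q * m)) • z + ((1 - q) * l + q * m) • v := by module
          rw [e9, e8]; simp
      · exact exit c hc hcg h
  have hmem := mem_of_free hT hz hvS hvz.symm hfreev hncv
  exact absurd (hno v hmem) (not_le.2 (hfSD v hv))

end Pool.Agent.Y571.ST
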