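import Mathlib
import Pool.Agent.Y571.ST.Gap

/-!
# Triangulations: moving one vertex
-/

set_option autoImplicit false

open Pool.Agent.H695R2.Steiner Filter Topology

namespace Pool.Agent.Y571.ST

open Classical in
/-- the map moving `v` to `v'` -/
noncomputable def mv (v v' x : Plane) : Plane := if x = v then v' else x

theorem mv_self (v v' : Plane) : mv v v' v = v' := by
  classical
  simp [mv]

theorem mv_ne {v v' x : Plane} (h : x ≠ v) : mv v v' x = x := by
  classical
  simp [mv, h]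

/-- the moving vertex -/
noncomputable def vd (v x0 : Plane) (δ : ℝ) : Plane := (1 - δ) • v + δ • x0

theorem vd_tendsto (v x0 : Plane) : Tendsto (vd v x0) (𝓝[>] 0) (𝓝 v) := by
  have h : Continuous (vd v x0) := by unfold vd; fun_prop
  have h2 := h.tendsto 0
  have h3 : vd v x0 0 = v := by simp [vd]
  rw [h3] at h2
  exact h2.mono_left nhdsWithin_le_nhds

theorem mv_tendsto (v x0 x : Plane) : Tendsto (fun δ => mv v (vd v x0 δ) x) (𝓝[>] 0) (𝓝 x) := by
  by_cases h : x = v
  · subst h
    simp only [mv_self]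
    exact vd_tendsto x x0
  · simp only [mv_ne h]
    exact tendsto_const_nhds

/-- not being in a segment is an open condition -/
theorem notMem_seg {f g h : ℝ → Plane} {a b c : Plane} (hf : Tendsto f (𝓝[>] 0) (𝓝 a))
    (hg : Tendsto g (𝓝[>] 0) (𝓝 b)) (hh : Tendsto h (𝓝[>] 0) (𝓝 c)) (hc : c ∉ segment ℝ a b) :
    ∀ᶠ δ in 𝓝[>] (0 : ℝ), h δ ∉ segment ℝ (f δ) (g δ) := by
  have h1 : dist a b < dist a c + dist c b := by
    refine lt_of_le_of_ne (dist_triangle _ _ _) fun e => hc ?_
    rw [mem_segment_iff_wbtw]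
    exact dist_add_dist_eq_iff.1 e.symm
  have h2 : Tendsto (fun δ => dist (f δ) (h δ) + dist (h δ) (g δ) - dist (f δ) (g δ)) (𝓝[>] 0)
      (𝓝 (dist a c + dist c b - dist a b)) :=
    ((hf.dist hh).add (hh.dist hg)).sub (hf.dist hg)
  have h3 := h2.eventually (lt_mem_nhds (show (0 : ℝ) < dist a c + dist c b - dist a b by linarith))
  filter_upwards [h3] with δ hδ hmem
  rw [mem_segment_iff_wbtw] at hmem
  have := dist_add_dist_eq_iff.2 hmem
  linarith

/-- disjointness of segments is an open condition -/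
theorem disj_seg {f g h k : ℝ → Plane} {a b c d : Plane} (hf : Tendsto f (𝓝[>] 0) (𝓝 a))
    (hg : Tendsto g (𝓝[>] 0) (𝓝 b)) (hh : Tendsto h (𝓝[>] 0) (𝓝 c))
    (hk : Tendsto k (𝓝[>] 0) (𝓝 d)) (hd : Disjoint (segment ℝ a b) (segment ℝ c d)) :
    ∀ᶠ δ in 𝓝[>] (0 : ℝ), Disjoint (segment ℝ (f δ) (g δ)) (segment ℝ (h δ) (k δ)) := by
  obtain ⟨F, u, v, h1, h2, h3⟩ := geometric_hahn_banach_compact_closed (convex_segment a b)
    (seg_compact s(a, b)) (convex_segment c d) (seg_compact s(c, d)).isClosed hd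
  have e1 := (F.continuous.tendsto a).comp hf
  have e2 := (F.continuous.tendsto b).comp hg
  have e3 := (F.continuous.tendsto c).comp hh
  have e4 := (F.continuous.tendsto d).comp hk
  filter_upwards [e1.eventually (gt_mem_nhds (h1 a (left_mem_segment ℝ a b))),
    e2.eventually (gt_mem_nhds (h1 b (right_mem_segment ℝ a b))),
    e3.eventually (lt_mem_nhds (h3 c (left_mem_segment ℝ c d))),
    e4.eventually (lt_mem_nhds (h3 d (right_mem_segment ℝ c d)))] with δ k1 k2 k3 k4
  simp only [Function.comp_apply] at k1 k2 k3 k4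
  rw [Set.disjoint_left]
  intro z hz hz'
  obtain ⟨s, s0, s1, hs⟩ := (mem_segment_iff _ _ _).1 hz
  obtain ⟨t, t0, t1, ht⟩ := (mem_segment_iff _ _ _).1 hz'
  have i1 : F z = (1 - s) * F (f δ) + s * F (g δ) := by
    rw [hs]; simp only [map_add, map_smul, smul_eq_mul]
  have i2 : F z = (1 - t) * F (h δ) + t * F (k δ) := by
    rw [ht]; simp only [map_add, map_smul, smul_eq_mul]
  have i3 : F z ≤ u := by rw [i1]; nlinarith
  have i4 : v ≤ F z := by rw [i2]; nlinarith
  linarith

theorem Xs_tendsto {f g h k : ℝ → Plane} {a b c d : Plane} (hf : Tendsto f (𝓝[>] 0) (𝓝 a))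
    (hg : Tendsto g (𝓝[>] 0) (𝓝 b)) (hh : Tendsto h (𝓝[>] 0) (𝓝 c))
    (hk : Tendsto k (𝓝[>] 0) (𝓝 d)) (hx : Xs a b c d) :
    ∀ᶠ δ in 𝓝[>] (0 : ℝ), Xs (f δ) (g δ) (h δ) (k δ) := by
  have e1 := ((ar_tendsto hf hg hh).mul (ar_tendsto hf hg hk)).eventually (gt_mem_nhds hx.1)
  have e2 := ((ar_tendsto hh hk hf).mul (ar_tendsto hh hk hg)).eventually (gt_mem_nhds hx.2)
  filter_upwards [e1, e2] with δ h1 h2
  exact ⟨h1, h2⟩

/-- two segments with a common end meet only there, unless one contains the end of the other -/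
theorem common_end {w a b z : Plane} (ha : a ∉ segment ℝ w b) (hb : b ∉ segment ℝ w a)
    (hz : z ∈ segment ℝ w a) (hz' : z ∈ segment ℝ w b) : z = w := by
  by_contra hne
  obtain ⟨s, s0, s1, hs⟩ := (mem_segment_iff _ _ _).1 hz
  obtain ⟨t, t0, t1, ht⟩ := (mem_segment_iff _ _ _).1 hz'
  have hs0 : 0 < s := by
    rcases eq_or_lt_of_le s0 with h | h
    · exfalso; apply hne; rw [hs, ← h]; simp
    · exact h
  have ht0 : 0 < t := by
    rcases eq_or_lt_of_le t0 with h | h
    · exfalso; apply hne; rw [ht, ← h]; simp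
    · exact h
  have e : s • (a - w) = t • (b - w) := by
    have : (1 - s) • w + s • a = (1 - t) • w + t • b := by rw [← hs, ← ht]
    have h2 : s • (a - w) = (1 - s) • w + s • a - w := by module
    have h3 : t • (b - w) = (1 - t) • w + t • b - w := by module
    rw [h2, h3, this]
  rcases le_total s t with hst | hst
  · -- b - w = (s/t) (a - w)
    apply hb
    rw [mem_segment_iff]
    refine ⟨s / t, by positivity, by rw [div_le_one ht0]; exact hst, ?_⟩
    have h4 : b - w = (s / t) • (a - w) := by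
      have : t⁻¹ • (t • (b - w)) = t⁻¹ • (s • (a - w)) := by rw [e]
      rw [smul_smul, inv_mul_cancel₀ ht0.ne', one_smul, smul_smul] at this
      rw [this]
      congr 1
      field_simp
    have h5 : b = w + (s / t) • (a - w) := by rw [← h4]; abel
    conv_lhs => rw [h5]
    module
  · apply ha
    rw [mem_segment_iff]
    refine ⟨t / s, by positivity, by rw [div_le_one hs0]; exact hst, ?_⟩
    have h4 : a - w = (t / s) • (b - w) := by
      have : s⁻¹ • (s • (a - w)) = s⁻¹ • (t • (b - w)) := by rw [e]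
      rw [smul_smul, inv_mul_cancel₀ hs0.ne', one_smul, smul_smul] at this
      rw [this]
      congr 1
      field_simp
    have h5 : a = w + (t / s) • (b - w) := by rw [← h4]; abel
    conv_lhs => rw [h5]
    module

/-- a pair which is not an edge is blocked -/
theorem blocked {S : Finset Plane} {T : Finset (Sym2 Plane)} (hT : IsTriangulation S T)
    {a b : Plane} (ha : a ∈ S) (hb : b ∈ S) (hab : a ≠ b) (hn : s(a, b) ∉ T) :
    (∃ c ∈ S, c ≠ a ∧ c ≠ b ∧ c ∈ segment ℝ a b) ∨ (∃ c d, s(c, d) ∈ T ∧ Xs a b c d) := by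
  by_cases hfree : ∀ p ∈ S, p ∈ segment ℝ a b → p = a ∨ p = b
  · right
    by_contra hcon
    push Not at hcon
    apply hn
    apply mem_of_free hT ha hb hab hfree
    intro f hf hne z hzf hz
    induction f using Sym2.ind with
    | _ c d =>
      have hc : c ∈ S := hT.1.ends _ hf c (Sym2.mem_mk_left c d)
      have hd : d ∈ S := hT.1.ends _ hf d (Sym2.mem_mk_right c d)
      by_contra hcom
      have hcom1 : ¬ ((z = a ∨ z = b) ∧ (z = c ∨ z = d)) := by
        rintro ⟨h1, h2⟩
        exact hcom ⟨h1, Sym2.mem_iff.2 h2⟩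
      have hcom2 : ¬ ((z = c ∨ z = d) ∧ (z = a ∨ z = b)) := fun h => hcom1 ⟨h.2, h.1⟩
      apply hcon c d hf
      exact ⟨nc_side ha hb hc hd hab (ne_of_mem hT.1 hf) hfree (free_of_mem hT.1 hf) hz hzf
        hne.symm hcom1,
        nc_side hc hd ha hb (ne_of_mem hT.1 hf) hab (free_of_mem hT.1 hf) hfree hzf hz
        hne hcom2⟩
  · left
    push Not at hfree
    obtain ⟨p, hp, hps, h1, h2⟩ := hfree
    exact ⟨p, hp, h1, h2, hps⟩

theorem par {p q r : Plane} (hpq : p ≠ q) (h : ar p q r = 0) :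
    ∃ γ : ℝ, r = (1 - γ) • p + γ • q := by
  by_cases hx : cx p = cx q
  · have hy : cy p ≠ cy q := fun h => hpq (plane_ext hx h)
    exact exists_param sep_yx.neg hy (by rw [D_yx]; exact h)
  · exact exists_param sep_xy hx h

/-- strictly inside parameters -/
theorem inner_param {a b c : Plane} (h : c ∈ segment ℝ a b) (h1 : c ≠ a) (h2 : c ≠ b) :
    ∃ t : ℝ, 0 < t ∧ t < 1 ∧ c = (1 - t) • a + t • b := by
  obtain ⟨t, t0, t1, ht⟩ := (mem_segment_iff _ _ _).1 h
  refine ⟨t, lt_of_le_of_ne t0 ?_, lt_of_le_of_ne t1 ?_, ht⟩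
  · rintro rfl; apply h1; rw [ht]; simp
  · rintro rfl; apply h2; rw [ht]; simp

theorem small (s : ℝ) {t : ℝ} (ht : 0 < t) : ∀ᶠ δ in 𝓝[>] (0 : ℝ), δ * s < t := by
  have h : Tendsto (fun δ : ℝ => δ * s) (𝓝[>] 0) (𝓝 (0 * s)) :=
    ((continuous_id.mul continuous_const).tendsto 0).mono_left nhdsWithin_le_nhds
  rw [zero_mul] at h
  exact h.eventually (gt_mem_nhds ht)

/-- the blocked pairs stay blocked, when an end moves: the collinear case -/
theorem block_end {S : Finset Plane} {T : Finset (Sym2 Plane)} (hT : IsTriangulation S T)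
    {v x0 b c : Plane} (hc : c ∈ S)
    (hx0 : x0 ∈ convexHull ℝ (S : Set Plane)) (hvb : v ≠ b) (hcv : c ≠ v) (hcb : c ≠ b)
    (h : c ∈ segment ℝ v b) :
    ∀ᶠ δ in 𝓝[>] (0 : ℝ), c ∈ segment ℝ (vd v x0 δ) b ∨
      ∃ y, y ≠ v ∧ s(c, y) ∈ T ∧ Xs (vd v x0 δ) b c y := by
  obtain ⟨τ, τ0, τ1, hτ⟩ := inner_param h hcv hcb
  by_cases hcol : ar v b x0 = 0
  · obtain ⟨s, hs⟩ := par hvb hcol
    filter_upwards [small s τ0] with δ hδ
    left
    have e1 : vd v x0 δ = (1 - δ * s) • v + (δ * s) • b := by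
      rw [vd, hs]; module
    rw [mem_segment_iff, e1, hτ]
    have hden : 0 < 1 - δ * s := by linarith
    refine ⟨(τ - δ * s) / (1 - δ * s), div_nonneg (by linarith) hden.le, ?_, ?_⟩
    · rw [div_le_one hden]; linarith
    · obtain ⟨q, hq⟩ : ∃ q, q = (τ - δ * s) / (1 - δ * s) := ⟨_, rfl⟩
      have e2 : q * (1 - δ * s) = τ - δ * s := by rw [hq]; field_simp
      rw [← hq]
      have e3 : τ = q * (1 - δ * s) + δ * s := by linarith
      rw [e3]
      module
  · -- the side of x0
    obtain ⟨ε, hε, hεx⟩ : ∃ ε : ℝ, (ε = 1 ∨ ε = -1) ∧ 0 < ε * ar v b x0 := by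
      rcases lt_or_gt_of_ne hcol with h1 | h1
      · exact ⟨-1, Or.inr rfl, by linarith⟩
      · exact ⟨1, Or.inl rfl, by linarith⟩
    have hε2 : ε * ε = 1 := by rcases hε with h1 | h1 <;> rw [h1] <;> norm_num
    obtain ⟨f, hf⟩ : ∃ f : Plane →ₗ[ℝ] ℝ, f = ε • ((cx b - cx v) • cy - (cy b - cy v) • cx) :=
      ⟨_, rfl⟩
    have hfe : ∀ z, f z - f v = ε * ar v b z := by
      intro z
      rw [hf]
      simp only [LinearMap.smul_apply, LinearMap.sub_apply, smul_eq_mul, ar_def]
      ring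
    have hfc : f c = f v := by
      have := hfe c
      rw [hτ, ar_aff, ar_left, ar_right] at this
      rw [hτ]
      linarith
    obtain ⟨x, hx, hfx⟩ : ∃ x ∈ S, f v < f x := by
      by_contra hcon
      push Not at hcon
      have hsub : (S : Set Plane) ⊆ {z | f z ≤ f v} := fun z hz => hcon z hz
      have := convexHull_min hsub (convex_halfSpace_le f.isLinear _) hx0
      have h2 : f x0 ≤ f v := this
      have h3 := hfe x0
      linarith
    obtain ⟨y, hy, hfy⟩ := gap hT hc hx f (by rw [hfc]; exact hfx)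
    have hyar : 0 < ε * ar v b y := by rw [← hfe]; linarith
    have hyv : y ≠ v := by
      rintro rfl
      rw [ar_left, mul_zero] at hyar
      exact lt_irrefl _ hyar
    -- eventually crossing
    have h1 : ∀ᶠ δ in 𝓝[>] (0 : ℝ), 0 < ε * ar (vd v x0 δ) b y :=
      ((ar_tendsto (vd_tendsto v x0) tendsto_const_nhds tendsto_const_nhds).const_mul
        ε).eventually (lt_mem_nhds hyar)
    have h2 : ar c y v * ar c y b < 0 := by
      have e1 : ar c y c = (1 - τ) * ar c y v + τ * ar c y b := by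
        nth_rewrite 2 [hτ]
        rw [ar_aff]
      rw [ar_left] at e1
      have e2 : ar c y b ≠ 0 := by
        intro e
        have e3 : ar c b y = 0 := by
          have : ar c b y = - ar c y b := by simp only [ar_def]; ring
          rw [this, e, neg_zero]
        rw [hτ, ar_aff1] at e3
        have e4 : ar b b y = 0 := ar_same _ _
        rw [e4] at e3
        have : (1 - τ) * ar v b y = 0 := by linarith
        rcases mul_eq_zero.1 this with h5 | h5
        · linarith
        · rw [h5, mul_zero] at hyar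
          exact lt_irrefl _ hyar
      have e5 : (1 - τ) * (ar c y v * ar c y b) = -(τ * (ar c y b * ar c y b)) := by
        have : (1 - τ) * ar c y v = -(τ * ar c y b) := by linarith
        linear_combination ar c y b * this
      have e6 : 0 < τ * (ar c y b * ar c y b) := mul_pos τ0 (mul_self_pos.2 e2)
      by_contra hcon
      push Not at hcon
      have : 0 ≤ (1 - τ) * (ar c y v * ar c y b) := mul_nonneg (by linarith) hcon
      linarith
    have h3 : ∀ᶠ δ in 𝓝[>] (0 : ℝ), ar c y (vd v x0 δ) * ar c y b < 0 :=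
      ((ar_tendsto tendsto_const_nhds tendsto_const_nhds (vd_tendsto v x0)).mul_const
        _).eventually (gt_mem_nhds h2)
    filter_upwards [h1, h3, self_mem_nhdsWithin] with δ k1 k3 hδ
    right
    refine ⟨y, hyv, hy, ?_, k3⟩
    have hδ0 : (0 : ℝ) < δ := hδ
    have e7 : ar (vd v x0 δ) b c = -(δ * (1 - τ) * ar v b x0) := by
      have e8 : ar v b c = 0 := by rw [hτ, ar_aff, ar_left, ar_right]; ring
      have e9 : ar x0 b c = (1 - τ) * ar x0 b v := by
        rw [hτ, ar_aff, ar_right]; ring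
      have e10 : ar x0 b v = - ar v b x0 := by simp only [ar_def]; ring
      rw [vd, ar_aff1, e8, e9, e10]
      ring
    have e11 : 0 < δ * (1 - τ) := mul_pos hδ0 (by linarith)
    have e12 : (ε * ar v b x0) * (ε * ar (vd v x0 δ) b y) =
      ar v b x0 * ar (vd v x0 δ) b y := by
      linear_combination (ar v b x0 * ar (vd v x0 δ) b y) * hε2
    have e13 : 0 < ar v b x0 * ar (vd v x0 δ) b y := by
      rw [← e12]; exact mul_pos hεx k1
    rw [e7]
    have : 0 < δ * (1 - τ) * (ar v b x0 * ar (vd v x0 δ) b y) := mul_pos e11 e13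
    linarith

theorem Xs.swap {a b c d : Plane} (h : Xs a b c d) : Xs b a c d := by
  obtain ⟨h1, h2⟩ := h
  refine ⟨?_, by rw [mul_comm]; exact h2⟩
  rw [ar_swap a b c, ar_swap a b d]
  linarith

/-- blocked pairs stay blocked -/
theorem block_stays {S : Finset Plane} {T : Finset (Sym2 Plane)} (hT : IsTriangulation S T)
    {v x0 : Plane} (hx0 : x0 ∈ convexHull ℝ (S : Set Plane))
    (HB : ∀ a ∈ S, ∀ b ∈ S, a ≠ b → a ≠ v → b ≠ v → v ∈ segment ℝ a b → ar a b x0 = 0)
    {a b : Plane} (ha : a ∈ S) (hb : b ∈ S) (hab : a ≠ b) (hn : s(a, b) ∉ T) :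
    ∀ᶠ δ in 𝓝[>] (0 : ℝ),
      (∃ c ∈ S, c ≠ a ∧ c ≠ b ∧ mv v (vd v x0 δ) c ∈
        segment ℝ (mv v (vd v x0 δ) a) (mv v (vd v x0 δ) b)) ∨
      (∃ c d, s(c, d) ∈ T ∧ Xs (mv v (vd v x0 δ) a) (mv v (vd v x0 δ) b) (mv v (vd v x0 δ) c)
        (mv v (vd v x0 δ) d)) := by
  rcases blocked hT ha hb hab hn with ⟨c, hc, hca, hcb, hcs⟩ | ⟨c, d, hcd, hX⟩
  · by_cases hcv : c = v
    · subst hcv
      obtain ⟨s, hs⟩ := par hab (HB a ha b hb hab hca.symm hcb.symm hcs)
      obtain ⟨t, t0, t1, ht⟩ := inner_param hcs hca hcb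
      filter_upwards [small (t - s) t0, small (s - t) (show 0 < 1 - t by linarith)] with δ h1 h2
      left
      refine ⟨c, hc, hca, hcb, ?_⟩
      rw [mv_self, mv_ne hca.symm, mv_ne hcb.symm, mem_segment_iff]
      refine ⟨t + δ * (s - t), by linarith, by linarith, ?_⟩
      rw [vd, ht, hs]
      module
    · by_cases hav : a = v
      · subst hav
        filter_upwards [block_end hT (x0 := x0) hc hx0 hab hcv hcb hcs] with δ h
        rcases h with h | ⟨y, hyv, hy, hX⟩
        · left
          refine ⟨c, hc, hca, hcb, ?_⟩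
          rw [mv_self, mv_ne hcv, mv_ne hab.symm]
          exact h
        · right
          refine ⟨c, y, hy, ?_⟩
          rw [mv_self, mv_ne hab.symm, mv_ne hcv, mv_ne hyv]
          exact hX
      · by_cases hbv : b = v
        · subst hbv
          rw [segment_symm] at hcs
          filter_upwards [block_end hT (x0 := x0) hc hx0 hab.symm hcv hca hcs] with δ h
          rcases h with h | ⟨y, hyv, hy, hX⟩
          · left
            refine ⟨c, hc, hca, hcb, ?_⟩
            rw [mv_self, mv_ne hcv, mv_ne hab, segment_symm]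
            exact h
          · right
            refine ⟨c, y, hy, ?_⟩
            rw [mv_self, mv_ne hab, mv_ne hcv, mv_ne hyv]
            exact hX.swap
        · refine Eventually.of_forall fun δ => Or.inl ⟨c, hc, hca, hcb, ?_⟩
          rw [mv_ne hcv, mv_ne hav, mv_ne hbv]
          exact hcs
  · filter_upwards [Xs_tendsto (mv_tendsto v x0 a) (mv_tendsto v x0 b) (mv_tendsto v x0 c)
      (mv_tendsto v x0 d) hX] with δ h
    exact Or.inr ⟨c, d, hcd, h⟩

open Classical in
/-- moving one vertex a little bit -/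
theorem move {S : Finset Plane} {T : Finset (Sym2 Plane)} (hT : IsTriangulation S T)
    {v x0 : Plane} (hx0 : x0 ∈ convexHull ℝ (S : Set Plane))
    (HB : ∀ a ∈ S, ∀ b ∈ S, a ≠ b → a ≠ v → b ≠ v → v ∈ segment ℝ a b → ar a b x0 = 0) :
    ∀ᶠ δ in 𝓝[>] (0 : ℝ), Set.InjOn (mv v (vd v x0 δ)) S ∧
      IsTriangulation (S.image (mv v (vd v x0 δ))) (T.image (Sym2.map (mv v (vd v x0 δ)))) := by
  have E1 : ∀ᶠ δ in 𝓝[>] (0 : ℝ), ∀ a ∈ S, ∀ b ∈ S, a ≠ b →
      mv v (vd v x0 δ) a ≠ mv v (vd v x0 δ) b := by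
    rw [Filter.eventually_all_finset]
    intro a _
    rw [Filter.eventually_all_finset]
    intro b _
    by_cases hab : a = b
    · exact Eventually.of_forall fun δ h => absurd hab h
    · filter_upwards [((mv_tendsto v x0 a).dist (mv_tendsto v x0 b)).eventually
        (lt_mem_nhds (dist_pos.2 hab))] with δ h _
      exact dist_pos.1 h
  have E2 : ∀ᶠ δ in 𝓝[>] (0 : ℝ), ∀ a ∈ S, ∀ b ∈ S, ∀ c ∈ S, c ∉ segment ℝ a b →
      mv v (vd v x0 δ) c ∉ segment ℝ (mv v (vd v x0 δ) a) (mv v (vd v x0 δ) b) := by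
    rw [Filter.eventually_all_finset]
    intro a _
    rw [Filter.eventually_all_finset]
    intro b _
    rw [Filter.eventually_all_finset]
    intro c _
    by_cases h : c ∈ segment ℝ a b
    · exact Eventually.of_forall fun δ h' => absurd h h'
    · filter_upwards [notMem_seg (mv_tendsto v x0 a) (mv_tendsto v x0 b) (mv_tendsto v x0 c) h]
        with δ hδ _
      exact hδ
  have E3 : ∀ᶠ δ in 𝓝[>] (0 : ℝ), ∀ a ∈ S, ∀ b ∈ S, ∀ c ∈ S, ∀ d ∈ S,
      Disjoint (segment ℝ a b) (segment ℝ c d) →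
      Disjoint (segment ℝ (mv v (vd v x0 δ) a) (mv v (vd v x0 δ) b))
        (segment ℝ (mv v (vd v x0 δ) c) (mv v (vd v x0 δ) d)) := by
    rw [Filter.eventually_all_finset]
    intro a _
    rw [Filter.eventually_all_finset]
    intro b _
    rw [Filter.eventually_all_finset]
    intro c _
    rw [Filter.eventually_all_finset]
    intro d _
    by_cases h : Disjoint (segment ℝ a b) (segment ℝ c d)
    · filter_upwards [disj_seg (mv_tendsto v x0 a) (mv_tendsto v x0 b) (mv_tendsto v x0 c)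
        (mv_tendsto v x0 d) h] with δ hδ _
      exact hδ
    · exact Eventually.of_forall fun δ h' => absurd h' h
  have E4 : ∀ᶠ δ in 𝓝[>] (0 : ℝ), ∀ a ∈ S, ∀ b ∈ S, a ≠ b → s(a, b) ∉ T →
      (∃ c ∈ S, c ≠ a ∧ c ≠ b ∧ mv v (vd v x0 δ) c ∈
        segment ℝ (mv v (vd v x0 δ) a) (mv v (vd v x0 δ) b)) ∨
      (∃ c d, s(c, d) ∈ T ∧ Xs (mv v (vd v x0 δ) a) (mv v (vd v x0 δ) b) (mv v (vd v x0 δ) c)
        (mv v (vd v x0 δ) d)) := by
    rw [Filter.eventually_all_finset]
    intro a ha
    rw [Filter.eventually_all_finset]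
    intro b hb
    by_cases hab : a = b
    · exact Eventually.of_forall fun δ h => absurd hab h
    by_cases hn : s(a, b) ∈ T
    · exact Eventually.of_forall fun δ _ h => absurd hn h
    · filter_upwards [block_stays hT hx0 HB ha hb hab hn] with δ h _ _
      exact h
  filter_upwards [E1, E2, E3, E4] with δ e1 e2 e3 e4
  obtain ⟨φ, hφ⟩ : ∃ φ : Plane → Plane, φ = mv v (vd v x0 δ) := ⟨_, rfl⟩
  rw [← hφ] at e1 e2 e3 e4 ⊢
  have hinj : Set.InjOn φ S := by
    intro a ha b hb h
    by_contra hab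
    exact e1 a ha b hb hab h
  have hends : ∀ {a b : Plane}, s(a, b) ∈ T → a ∈ S ∧ b ∈ S := fun h =>
    ⟨hT.1.ends _ h _ (Sym2.mem_mk_left _ _), hT.1.ends _ h _ (Sym2.mem_mk_right _ _)⟩
  refine ⟨hinj, ⟨⟨?_, ?_, ?_, ?_⟩, ?_⟩⟩
  · intro e he
    obtain ⟨f, hf, rfl⟩ := Finset.mem_image.1 he
    induction f using Sym2.ind with
    | _ a b =>
      rw [Sym2.map_mk, Sym2.mk_isDiag_iff]
      exact e1 a (hends hf).1 b (hends hf).2 (ne_of_mem hT.1 hf)
  · intro e he p hp
    obtain ⟨f, hf, rfl⟩ := Finset.mem_image.1 he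
    obtain ⟨q, hq, rfl⟩ := Sym2.mem_map.1 hp
    exact Finset.mem_image_of_mem _ (hT.1.ends f hf q hq)
  · intro e he p hp hpe
    obtain ⟨f, hf, rfl⟩ := Finset.mem_image.1 he
    obtain ⟨c, hc, rfl⟩ := Finset.mem_image.1 hp
    induction f using Sym2.ind with
    | _ a b =>
      rw [Sym2.map_mk, seg_mk] at hpe
      have h1 : c ∈ segment ℝ a b := by
        by_contra h
        exact e2 a (hends hf).1 b (hends hf).2 c hc h hpe
      have h2 := hT.1.empty _ hf c hc h1
      exact Sym2.mem_map.2 ⟨c, h2, rfl⟩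
  · intro e he f hf hef p hpe hpf
    obtain ⟨e', he', rfl⟩ := Finset.mem_image.1 he
    obtain ⟨f', hf', rfl⟩ := Finset.mem_image.1 hf
    have hef' : e' ≠ f' := fun h => hef (by rw [h])
    -- shared end
    have shared : ∀ w a b : Plane, s(w, a) ∈ T → s(w, b) ∈ T → a ≠ b →
        p ∈ segment ℝ (φ w) (φ a) → p ∈ segment ℝ (φ w) (φ b) → p = φ w := by
      intro w a b h1 h2 hab h3 h4
      apply common_end _ _ h3 h4
      · apply e2 w (hends h1).1 b (hends h2).2 a (hends h1).2
        intro h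
        rcases free_of_mem hT.1 h2 a (hends h1).2 h with h' | h'
        · exact ne_of_mem hT.1 h1 h'.symm
        · exact hab h'
      · apply e2 w (hends h1).1 a (hends h1).2 b (hends h2).2
        intro h
        rcases free_of_mem hT.1 h1 b (hends h2).2 h with h' | h'
        · exact ne_of_mem hT.1 h2 h'.symm
        · exact hab h'.symm
    by_cases hsh : ∃ w, w ∈ e' ∧ w ∈ f'
    · obtain ⟨w, hwe, hwf⟩ := hsh
      obtain ⟨a, rfl⟩ := Sym2.mem_iff_exists.1 hwe
      obtain ⟨b, rfl⟩ := Sym2.mem_iff_exists.1 hwf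
      have hab : a ≠ b := fun h => hef' (by rw [h])
      have := shared w a b he' hf' hab hpe hpf
      rw [this]
      exact ⟨Sym2.mem_map.2 ⟨w, hwe, rfl⟩, Sym2.mem_map.2 ⟨w, hwf, rfl⟩⟩
    · exfalso
      induction e' using Sym2.ind with
      | _ a b =>
        induction f' using Sym2.ind with
        | _ c d =>
          have hdis : Disjoint (segment ℝ a b) (segment ℝ c d) := by
            rw [Set.disjoint_left]
            intro z hz hz'
            have := hT.1.meet _ he' _ hf' hef' z hz hz'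
            exact hsh ⟨z, this⟩
          have := e3 a (hends he').1 b (hends he').2 c (hends hf').1 d (hends hf').2 hdis
          exact Set.disjoint_left.1 this hpe hpf
  · intro T1 hP hsub
    refine Finset.Subset.antisymm ?_ hsub
    intro e he
    induction e using Sym2.ind with
    | _ a' b' =>
      obtain ⟨a, ha, rfl⟩ := Finset.mem_image.1 (hP.ends _ he a' (Sym2.mem_mk_left _ _))
      obtain ⟨b, hb, rfl⟩ := Finset.mem_image.1 (hP.ends _ he b' (Sym2.mem_mk_right _ _))
      have hab : a ≠ b := by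
        rintro rfl
        exact ne_of_mem hP he rfl
      by_cases hn : s(a, b) ∈ T
      · exact Finset.mem_image.2 ⟨_, hn, rfl⟩
      · exfalso
        rcases e4 a ha b hb hab hn with ⟨c, hc, hca, hcb, h⟩ | ⟨c, d, hcd, hX⟩
        · rcases free_of_mem hP he (φ c) (Finset.mem_image_of_mem _ hc) h with h' | h'
          · exact hca (hinj hc ha h')
          · exact hcb (hinj hc hb h')
        · have hcd' : s(φ c, φ d) ∈ T1 := hsub (Finset.mem_image.2 ⟨_, hcd, rfl⟩)
          obtain ⟨z, z1, z2, z3, z4, z5, z6⟩ := hX.exists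
          by_cases hee : s(φ a, φ b) = s(φ c, φ d)
          · have h1 := hX.1
            rcases Sym2.eq_iff.1 hee with ⟨h2, h3⟩ | ⟨h2, h3⟩
            · rw [← h2, ar_left, zero_mul] at h1
              exact lt_irrefl _ h1
            · rw [← h2, ar_left, mul_zero] at h1
              exact lt_irrefl _ h1
          · have := (hP.meet _ he _ hcd' hee z z1 z2).1
            rcases Sym2.mem_iff.1 this with h | h
            · exact z3 h
            · exact z4 h

end Pool.Agent.Y571.ST
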