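import Mathlib
import Pool.Agent.Y571.ST.Move

/-!
# Triangulations: in a triangulation of minimum weight the extreme points are not Steiner points
-/

set_option autoImplicit false

open Pool.Agent.H695R2.Steiner Filter Topology

namespace Pool.Agent.Y571.ST

/-- a Steiner triangulation of minimum weight -/
structure MinT (P S : Finset Plane) (T : Finset (Sym2 Plane)) : Prop where
  sub : P ⊆ S
  tri : IsTriangulation S T
  min : ∀ T', IsSteinerTriangulation P T' → weight T ≤ weight T'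

theorem map_inj {S : Finset Plane} {T : Finset (Sym2 Plane)} (hT : IsTriangulation S T)
    {φ : Plane → Plane} (hφ : Set.InjOn φ S) : Set.InjOn (Sym2.map φ) T := by
  intro e he f hf h
  induction e using Sym2.ind with
  | _ a b =>
    induction f using Sym2.ind with
    | _ c d =>
      have ha := hT.1.ends _ he a (Sym2.mem_mk_left _ _)
      have hb := hT.1.ends _ he b (Sym2.mem_mk_right _ _)
      have hc := hT.1.ends _ hf c (Sym2.mem_mk_left _ _)
      have hd := hT.1.ends _ hf d (Sym2.mem_mk_right _ _)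
      rw [Sym2.map_mk, Sym2.map_mk, Sym2.eq_iff] at h
      rcases h with ⟨h1, h2⟩ | ⟨h1, h2⟩
      · rw [hφ ha hc h1, hφ hb hd h2]
      · rw [hφ ha hd h1, hφ hb hc h2]
        exact Sym2.eq_swap

open Classical in
theorem weight_map {S : Finset Plane} {T : Finset (Sym2 Plane)} (hT : IsTriangulation S T)
    {φ : Plane → Plane} (hφ : Set.InjOn φ S) :
    weight (T.image (Sym2.map φ)) = ∑ e ∈ T, len (Sym2.map φ e) := by
  unfold weight
  rw [Finset.sum_image (map_inj hT hφ)]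

theorem map_fix {v v' : Plane} {e : Sym2 Plane} (h : v ∉ e) : Sym2.map (mv v v') e = e := by
  induction e using Sym2.ind with
  | _ a b =>
    have ha : a ≠ v := fun h' => h (h' ▸ Sym2.mem_mk_left _ _)
    have hb : b ≠ v := fun h' => h (h' ▸ Sym2.mem_mk_right _ _)
    rw [Sym2.map_mk, mv_ne ha, mv_ne hb]

open Classical in
/-- moving a Steiner point does not decrease a minimal weight -/
theorem MinT.move {P S : Finset Plane} {T : Finset (Sym2 Plane)} (h : MinT P S T)
    {v x0 : Plane} (hv : v ∉ P) (hx0 : x0 ∈ convexHull ℝ (S : Set Plane))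
    (HB : ∀ a ∈ S, ∀ b ∈ S, a ≠ b → a ≠ v → b ≠ v → v ∈ segment ℝ a b → ar a b x0 = 0) :
    ∀ᶠ δ in 𝓝[>] (0 : ℝ), ∑ e ∈ T, len e ≤ ∑ e ∈ T, len (Sym2.map (mv v (vd v x0 δ)) e) := by
  filter_upwards [ST.move h.tri hx0 HB] with δ hδ
  rw [← weight_map h.tri hδ.1]
  apply h.min
  refine ⟨_, ?_, hδ.2⟩
  intro p hp
  rw [Finset.mem_image]
  refine ⟨p, h.sub hp, mv_ne ?_⟩
  rintro rfl
  exact hv hp

theorem dist_dec {v x0 q : Plane} (h : 0 < inner ℝ (x0 - v) (q - v)) :
    ∀ᶠ δ in 𝓝[>] (0 : ℝ), dist (vd v x0 δ) q < dist v q := by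
  obtain ⟨c, hc⟩ : ∃ c, c = inner ℝ (x0 - v) (q - v) := ⟨_, rfl⟩
  rw [← hc] at h
  filter_upwards [small (‖x0 - v‖ ^ 2) (show 0 < 2 * c by linarith), self_mem_nhdsWithin] with
    δ hδ hδ0
  have hδ0' : (0 : ℝ) < δ := hδ0
  rw [dist_eq_norm, dist_eq_norm]
  apply lt_of_pow_lt_pow_left₀ 2 (norm_nonneg _)
  have e1 : vd v x0 δ - q = δ • (x0 - v) - (q - v) := by rw [vd]; module
  have e2 : v - q = -(q - v) := by abel
  rw [e1, e2, norm_neg, norm_sub_sq_real, real_inner_smul_left, ← hc, norm_smul, mul_pow]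
  simp only [Real.norm_eq_abs, sq_abs]
  nlinarith

/-- extreme points are not Steiner points -/
theorem MinT.extreme {P S : Finset Plane} {T : Finset (Sym2 Plane)} (h : MinT P S T)
    (hP : P.Nonempty) {v : Plane} (hvS : v ∈ S) (hv : v ∉ P) :
    v ∈ convexHull ℝ ((S : Set Plane) \ {v}) := by
  classical
  by_contra hcon
  obtain ⟨K, hK⟩ : ∃ K, K = convexHull ℝ ((S : Set Plane) \ {v}) := ⟨_, rfl⟩
  rw [← hK] at hcon
  have hKc : IsCompact K := by
    rw [hK]
    exact (S.finite_toSet.subset Set.sdiff_subset).isCompact_convexHull ℝ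
  have hKconv : Convex ℝ K := hK ▸ convex_convexHull ℝ _
  have hsubK : ∀ q ∈ S, q ≠ v → q ∈ K := by
    intro q hq hqv
    rw [hK]
    exact subset_convexHull ℝ _ ⟨hq, hqv⟩
  have hKne : K.Nonempty := by
    obtain ⟨p, hp⟩ := hP
    exact ⟨p, hsubK p (h.sub hp) (by rintro rfl; exact hv hp)⟩
  obtain ⟨x0, hx0, hx0min⟩ := exists_norm_eq_iInf_of_complete_convex hKne hKc.isComplete hKconv v
  rw [norm_eq_iInf_iff_real_inner_le_zero hKconv hx0] at hx0min
  have hne : x0 ≠ v := by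
    rintro rfl
    exact hcon hx0
  have hpos : ∀ q ∈ S, q ≠ v → 0 < inner ℝ (x0 - v) (q - v) := by
    intro q hq hqv
    have h1 := hx0min q (hsubK q hq hqv)
    have e1 : q - v = (q - x0) + (x0 - v) := by abel
    have e2 : x0 - v = -(v - x0) := by abel
    rw [e1, inner_add_right (𝕜 := ℝ), real_inner_self_eq_norm_sq]
    have h2 : inner ℝ (x0 - v) (q - x0) = - inner ℝ (v - x0) (q - x0) := by
      rw [e2, inner_neg_left (𝕜 := ℝ)]
    have h3 : 0 < ‖x0 - v‖ ^ 2 := by
      have : 0 < ‖x0 - v‖ := norm_pos_iff.2 (sub_ne_zero.2 hne)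
      positivity
    rw [h2]
    linarith
  have hev : ∀ᶠ δ in 𝓝[>] (0 : ℝ), ∀ q ∈ S, q ≠ v → dist (vd v x0 δ) q < dist v q := by
    rw [Filter.eventually_all_finset]
    intro q hq
    by_cases hqv : q = v
    · exact Eventually.of_forall fun δ h' => absurd hqv h'
    · filter_upwards [dist_dec (hpos q hq hqv)] with δ hδ _
      exact hδ
  have hmove := h.move hv (x0 := x0)
    (convexHull_mono Set.sdiff_subset (hK ▸ hx0)) (by
      intro a ha b hb _ hav hbv hs
      exfalso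
      exact hcon (hKconv.segment_subset (hsubK a ha hav) (hsubK b hb hbv) hs))
  obtain ⟨δ, hδ1, hδ2⟩ := (hmove.and hev).exists
  -- an edge at v
  obtain ⟨p, hp⟩ := hP
  have hpv : p ≠ v := by rintro rfl; exact hv hp
  obtain ⟨f, hf⟩ : ∃ f : Plane →ₗ[ℝ] ℝ, ∀ z, f z = inner ℝ (x0 - v) z :=
    ⟨(innerSL ℝ (x0 - v)).toLinearMap, fun z => rfl⟩
  obtain ⟨y, hy, _⟩ := gap h.tri hvS (h.sub hp) f (by
    have := hpos p (h.sub hp) hpv
    rw [inner_sub_right (𝕜 := ℝ)] at this
    rw [hf, hf]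
    linarith)
  have hle : ∀ e ∈ T, v ∈ e → len (Sym2.map (mv v (vd v x0 δ)) e) < len e := by
    intro e he hve
    obtain ⟨q, rfl⟩ := Sym2.mem_iff_exists.1 hve
    have hq : q ∈ S := h.tri.1.ends _ he q (Sym2.mem_mk_right _ _)
    have hqv : q ≠ v := (ne_of_mem h.tri.1 he).symm
    rw [Sym2.map_mk, mv_self, mv_ne hqv, len_mk, len_mk]
    exact hδ2 q hq hqv
  have hlt : ∑ e ∈ T, len (Sym2.map (mv v (vd v x0 δ)) e) < ∑ e ∈ T, len e := by
    apply Finset.sum_lt_sum
    · intro e he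
      by_cases hve : v ∈ e
      · exact (hle e he hve).le
      · rw [map_fix hve]
    · exact ⟨_, hy, hle _ hy (Sym2.mem_mk_left _ _)⟩
  linarith

end Pool.Agent.Y571.ST
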