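import Mathlib
import Pool.Agent.Y571.ST.Move

/-!
# Triangulations: existence, insertion of an outer point, an upper bound
-/

set_option autoImplicit false

open Pool.Agent.H695R2.Steiner Filter Topology

namespace Pool.Agent.Y571.ST

theorem planar_sub {S : Finset Plane} {T : Finset (Sym2 Plane)} (hT : IsPlanar S T) :
    T ⊆ S.sym2 := by
  intro e he
  rw [Finset.mem_sym2_iff]
  exact fun p hp => hT.ends e he p hp

theorem exists_tri (S : Finset Plane) : ∃ T, IsTriangulation S T := by
  classical
  obtain ⟨T, hT, hmax⟩ := Finset.exists_max_image (S.sym2.powerset.filter (fun T => IsPlanar S T))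
    Finset.card ⟨∅, by
      rw [Finset.mem_filter, Finset.mem_powerset]
      refine ⟨Finset.empty_subset _, ⟨?_, ?_, ?_, ?_⟩⟩
      · intro e he; simp at he
      · intro e he; simp at he
      · intro e he; simp at he
      · intro e he; simp at he⟩
  obtain ⟨-, hP⟩ := Finset.mem_filter.1 hT
  refine ⟨T, hP, fun T' hT' hsub => ?_⟩
  have h1 := hmax T' (Finset.mem_filter.2 ⟨Finset.mem_powerset.2 (planar_sub hT'), hT'⟩)
  exact (Finset.eq_of_subset_of_card_le hsub h1).symm

theorem weight_le {S : Finset Plane} {T : Finset (Sym2 Plane)} (hT : IsPlanar S T) {Δ : ℝ}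
    (h : ∀ a ∈ S, ∀ b ∈ S, dist a b ≤ Δ) (h0 : 0 ≤ Δ) :
    weight T ≤ (S.card : ℝ) * ((S.card : ℝ) + 1) * Δ := by
  have h1 : weight T ≤ T.card • Δ := by
    unfold weight
    apply Finset.sum_le_card_nsmul
    intro e he
    induction e using Sym2.ind with
    | _ a b =>
      rw [len_mk]
      exact h a (hT.ends _ he a (Sym2.mem_mk_left _ _)) b (hT.ends _ he b (Sym2.mem_mk_right _ _))
  rw [nsmul_eq_mul] at h1
  refine h1.trans ?_
  apply mul_le_mul_of_nonneg_right _ h0
  have h2 : T.card ≤ S.card * (S.card + 1) := by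
    refine (Finset.card_le_card (planar_sub hT)).trans ?_
    rw [Finset.card_sym2, Nat.choose_two_right]
    refine (Nat.div_le_self _ _).trans ?_
    rw [mul_comm]
    simp
  exact_mod_cast h2

/-- a segment on the boundary line which contains no other point is an edge -/
theorem hull_mem {S : Finset Plane} {T : Finset (Sym2 Plane)} (hT : IsTriangulation S T)
    {a b : Plane} (ha : a ∈ S) (hb : b ∈ S) (hab : a ≠ b) (h : ∀ z ∈ S, 0 ≤ ar a b z)
    (hfree : ∀ p ∈ S, p ∈ segment ℝ a b → p = a ∨ p = b) : s(a, b) ∈ T := by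
  apply mem_of_free hT ha hb hab hfree
  intro f hf hne z hzf hz
  induction f using Sym2.ind with
  | _ c d =>
    have hc : c ∈ S := hT.1.ends _ hf c (Sym2.mem_mk_left c d)
    have hd : d ∈ S := hT.1.ends _ hf d (Sym2.mem_mk_right c d)
    rcases nc ha hb hc hd hab (ne_of_mem hT.1 hf) hfree (free_of_mem hT.1 hf) (h c hc) (h d hd)
      hz hzf with h' | h'
    · exact ⟨h'.1, Sym2.mem_iff.2 h'.2⟩
    · exact absurd h'.symm hne

theorem ar_nonneg_seg {S : Finset Plane} {T : Finset (Sym2 Plane)} (hT : IsPlanar S T)
    {a b : Plane} (h : ∀ z ∈ S, 0 ≤ ar a b z) {e : Sym2 Plane} (he : e ∈ T) {z : Plane}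
    (hz : z ∈ seg e) : 0 ≤ ar a b z := by
  induction e using Sym2.ind with
  | _ c d =>
    obtain ⟨t, t0, t1, rfl⟩ := (mem_segment_iff _ _ _).1 hz
    rw [ar_aff]
    have h1 := h c (hT.ends _ he c (Sym2.mem_mk_left c d))
    have h2 := h d (hT.ends _ he d (Sym2.mem_mk_right c d))
    have h3 : 0 ≤ (1 - t) * ar a b c := mul_nonneg (by linarith) h1
    have h4 : 0 ≤ t * ar a b d := mul_nonneg t0 h2
    linarith

open Classical in
/-- insertion of an outer point which sees exactly one boundary edge -/
theorem insert_tri {S : Finset Plane} {T : Finset (Sym2 Plane)} (hT : IsTriangulation S T)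
    {x a b : Plane} (ha : a ∈ S) (hb : b ∈ S) (hab : a ≠ b) (h : ∀ z ∈ S, 0 ≤ ar a b z)
    (hx : ar a b x < 0) (hfree : ∀ p ∈ S, p ∈ segment ℝ a b → p = a ∨ p = b)
    (h1 : ∀ z ∈ S, ar x a z ≤ 0) (h2 : ∀ z ∈ S, 0 ≤ ar x b z) :
    IsTriangulation (insert x S) (insert s(x, a) (insert s(x, b) T)) := by
  have hxS : x ∉ S := fun h' => absurd (h x h') (not_le.2 hx)
  have hxa : x ≠ a := fun h' => hxS (h' ▸ ha)
  have hxb : x ≠ b := fun h' => hxS (h' ▸ hb)
  have hmem : s(a, b) ∈ T := hull_mem hT ha hb hab h hfree
  -- points of the new edges in the half plane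
  have hza : ∀ z, z ∈ segment ℝ x a → 0 ≤ ar a b z → z = a := by
    intro z hz hz0
    obtain ⟨t, t0, t1, ht⟩ := (mem_segment_iff _ _ _).1 hz
    rw [ht, ar_aff, ar_left] at hz0
    have : t = 1 := by
      by_contra hne
      have : 0 < 1 - t := by
        have := lt_of_le_of_ne t1 hne
        linarith
      nlinarith
    rw [ht, this]; simp
  have hzb : ∀ z, z ∈ segment ℝ x b → 0 ≤ ar a b z → z = b := by
    intro z hz hz0
    obtain ⟨t, t0, t1, ht⟩ := (mem_segment_iff _ _ _).1 hz
    rw [ht, ar_aff, ar_right] at hz0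
    have : t = 1 := by
      by_contra hne
      have : 0 < 1 - t := by
        have := lt_of_le_of_ne t1 hne
        linarith
      nlinarith
    rw [ht, this]; simp
  have hxab : ∀ z, z ∈ segment ℝ x a → z ∈ segment ℝ x b → z = x := by
    intro z hz hz'
    apply common_end _ _ hz hz'
    · intro h'
      exact hab (hzb a h' (by rw [ar_left]))
    · intro h'
      exact hab (hza b h' (by rw [ar_right])).symm
  have hxT : ∀ e ∈ T, x ∉ seg e := fun e he hxe =>
    absurd (ar_nonneg_seg hT.1 h he hxe) (not_le.2 hx)
  have hP : IsPlanar (insert x S) (insert s(x, a) (insert s(x, b) T)) := by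
    refine ⟨?_, ?_, ?_, ?_⟩
    · intro e he
      rw [Finset.mem_insert, Finset.mem_insert] at he
      rcases he with rfl | rfl | he
      · simpa using hxa
      · simpa using hxb
      · exact hT.1.nondeg e he
    · intro e he p hp
      rw [Finset.mem_insert, Finset.mem_insert] at he
      rw [Finset.mem_insert]
      rcases he with rfl | rfl | he
      · rcases Sym2.mem_iff.1 hp with rfl | rfl
        · exact Or.inl rfl
        · exact Or.inr ha
      · rcases Sym2.mem_iff.1 hp with rfl | rfl
        · exact Or.inl rfl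
        · exact Or.inr hb
      · exact Or.inr (hT.1.ends e he p hp)
    · intro e he p hp hpe
      rw [Finset.mem_insert, Finset.mem_insert] at he
      rw [Finset.mem_insert] at hp
      rcases he with rfl | rfl | he
      · rcases hp with rfl | hp
        · exact Sym2.mem_mk_left _ _
        · rw [hza p hpe (h p hp)]
          exact Sym2.mem_mk_right _ _
      · rcases hp with rfl | hp
        · exact Sym2.mem_mk_left _ _
        · rw [hzb p hpe (h p hp)]
          exact Sym2.mem_mk_right _ _
      · rcases hp with rfl | hp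
        · exact absurd hpe (hxT e he)
        · exact hT.1.empty e he p hp hpe
    · -- meetings
      have m1 : ∀ f ∈ T, ∀ p, p ∈ seg s(x, a) → p ∈ seg f → p ∈ s(x, a) ∧ p ∈ f := by
        intro f hf p hp hpf
        have h3 := hza p hp (ar_nonneg_seg hT.1 h hf hpf)
        rw [h3]
        exact ⟨Sym2.mem_mk_right _ _, hT.1.empty f hf a ha (h3 ▸ hpf)⟩
      have m2 : ∀ f ∈ T, ∀ p, p ∈ seg s(x, b) → p ∈ seg f → p ∈ s(x, b) ∧ p ∈ f := by
        intro f hf p hp hpf
        have h3 := hzb p hp (ar_nonneg_seg hT.1 h hf hpf)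
        rw [h3]
        exact ⟨Sym2.mem_mk_right _ _, hT.1.empty f hf b hb (h3 ▸ hpf)⟩
      intro e he f hf hef p hpe hpf
      rw [Finset.mem_insert, Finset.mem_insert] at he hf
      rcases he with rfl | rfl | he <;> rcases hf with rfl | rfl | hf
      · exact absurd rfl hef
      · rw [hxab p hpe hpf]
        exact ⟨Sym2.mem_mk_left _ _, Sym2.mem_mk_left _ _⟩
      · exact m1 f hf p hpe hpf
      · rw [hxab p hpf hpe]
        exact ⟨Sym2.mem_mk_left _ _, Sym2.mem_mk_left _ _⟩
      · exact absurd rfl hef
      · exact m2 f hf p hpe hpf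
      · exact (m1 e he p hpf hpe).symm
      · exact (m2 e he p hpf hpe).symm
      · exact hT.1.meet e he f hf hef p hpe hpf
  refine ⟨hP, ?_⟩
  intro T1 hT1 hsub
  refine Finset.Subset.antisymm ?_ hsub
  have hTsub : T ⊆ T1 := fun e he =>
    hsub (Finset.mem_insert_of_mem (Finset.mem_insert_of_mem he))
  intro e he
  rw [Finset.mem_insert, Finset.mem_insert]
  by_cases hxe : x ∈ e
  · obtain ⟨y, rfl⟩ := Sym2.mem_iff_exists.1 hxe
    by_cases hya : y = a
    · left; rw [hya]
    by_cases hyb : y = b
    · right; left; rw [hyb]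
    exfalso
    have hy : y ∈ S := by
      have := hT1.ends _ he y (Sym2.mem_mk_right _ _)
      rcases Finset.mem_insert.1 this with h' | h'
      · exact absurd h'.symm (ne_of_mem hT1 he)
      · exact h'
    have hy0 := h y hy
    have hden : 0 < ar a b y - ar a b x := by linarith
    obtain ⟨l, hl⟩ : ∃ l, l = - ar a b x / (ar a b y - ar a b x) := ⟨_, rfl⟩
    have hl0 : 0 < l := by rw [hl]; exact div_pos (by linarith) hden
    have hl1 : l ≤ 1 := by rw [hl, div_le_one hden]; linarith
    obtain ⟨z, hz⟩ : ∃ z : Plane, z = (1 - l) • x + l • y := ⟨_, rfl⟩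
    have hz0 : ar a b z = 0 := by
      rw [hz, ar_aff, hl]
      field_simp
      ring
    obtain ⟨m, hm⟩ := par hab hz0
    have e1 : ar x a z = l * ar x a y := by rw [hz, ar_aff, ar_left]; ring
    have e2 : ar x b z = l * ar x b y := by rw [hz, ar_aff, ar_left]; ring
    have e3 : ar x a z = m * ar a b x := by
      rw [hm, ar_aff, ar_right, ← ar_cycle x a b]; ring
    have e4 : ar x b z = -((1 - m) * ar a b x) := by
      rw [hm, ar_aff, ar_right]
      have : ar x b a = - ar a b x := by simp only [ar_def]; ring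
      rw [this]; ring
    have k1 : l * ar x a y ≤ 0 := mul_nonpos_of_nonneg_of_nonpos hl0.le (h1 y hy)
    have k2 : 0 ≤ l * ar x b y := mul_nonneg hl0.le (h2 y hy)
    have m0 : 0 ≤ m := by
      by_contra hc
      push Not at hc
      have := mul_pos_of_neg_of_neg hc hx
      linarith
    have m1 : m ≤ 1 := by
      by_contra hc
      push Not at hc
      have : 0 < (1 - m) * ar a b x := mul_pos_of_neg_of_neg (by linarith) hx
      linarith
    have hzs1 : z ∈ seg s(x, y) := (mem_segment_iff _ _ _).2 ⟨l, hl0.le, hl1, hz⟩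
    have hzs2 : z ∈ seg s(a, b) := (mem_segment_iff _ _ _).2 ⟨m, m0, m1, hm⟩
    have hne : s(x, y) ≠ s(a, b) := by
      intro h'
      rcases Sym2.eq_iff.1 h' with ⟨h3, _⟩ | ⟨h3, _⟩
      · exact hxa h3
      · exact hxb h3
    have := hT1.meet _ he _ (hTsub hmem) hne z hzs1 hzs2
    rcases Sym2.mem_iff.1 this.1 with h3 | h3 <;> rcases Sym2.mem_iff.1 this.2 with h4 | h4
    · exact hxa (h3.symm.trans h4)
    · exact hxb (h3.symm.trans h4)
    · exact hya (h3.symm.trans h4)
    · exact hyb (h3.symm.trans h4)
  · right; right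
    have hP2 : IsPlanar S (T1.filter (fun e => x ∉ e)) := by
      refine ⟨?_, ?_, ?_, ?_⟩
      · intro e he
        exact hT1.nondeg e (Finset.mem_filter.1 he).1
      · intro e he p hp
        obtain ⟨he1, he2⟩ := Finset.mem_filter.1 he
        rcases Finset.mem_insert.1 (hT1.ends e he1 p hp) with h' | h'
        · exact absurd (h' ▸ hp) he2
        · exact h'
      · intro e he p hp hpe
        exact hT1.empty e (Finset.mem_filter.1 he).1 p (Finset.mem_insert_of_mem hp) hpe
      · intro e he f hf hef p hpe hpf
        exact hT1.meet e (Finset.mem_filter.1 he).1 f (Finset.mem_filter.1 hf).1 hef p hpe hpf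
    have := hT.2 _ hP2 (by
      intro f hf
      rw [Finset.mem_filter]
      refine ⟨hTsub hf, fun hxf => hxS (hT.1.ends f hf x hxf)⟩)
    rw [← this]
    exact Finset.mem_filter.2 ⟨he, hxe⟩

theorem weight_insert_le [DecidableEq (Sym2 Plane)] (e : Sym2 Plane) (T : Finset (Sym2 Plane)) :
    weight (insert e T) ≤ len e + weight T := by
  unfold weight
  by_cases h : e ∈ T
  · rw [Finset.insert_eq_of_mem h]
    have := len_nonneg e
    linarith
  · rw [Finset.sum_insert h]

open Classical in
/-- the upper bound for the minimal weight -/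
theorem upper (Q : Finset Plane) (O C D : Plane) (l m Δ : ℝ) (hl0 : 0 < l) (hl1 : l < 1)
    (hm0 : 0 < m) (hm1 : m < 1) (hG : 0 < ar O C D)
    (hX : ∀ q ∈ Q, ar O D q ≤ 0) (hY : ∀ q ∈ Q, 0 ≤ ar O C q)
    (hXY : ∀ q ∈ Q, m * (- ar O D q) + l * ar O C q < l * m * ar O C D)
    (hΔ0 : 0 ≤ Δ) (hΔQ : ∀ q ∈ Q, dist O q ≤ Δ) (hΔC : l * dist O C ≤ Δ)
    (hΔD : m * dist O D ≤ Δ) :
    ∃ T, IsSteinerTriangulation (Q ∪ {O, C, D}) T ∧ weight T ≤
      dist O D + dist C D + 2 * dist O C + ((Q.card : ℝ) + 3) * ((Q.card : ℝ) + 4) * (2 * Δ) := by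
  obtain ⟨a, ha⟩ : ∃ a : Plane, a = (1 - l) • O + l • C := ⟨_, rfl⟩
  obtain ⟨b, hb⟩ : ∃ b : Plane, b = (1 - m) • O + m • D := ⟨_, rfl⟩
  obtain ⟨G, hGd⟩ : ∃ G, G = ar O C D := ⟨_, rfl⟩
  rw [← hGd] at hG hXY
  -- the basic identities
  have i1 : ∀ z, ar a b z = l * m * G - m * (- ar O D z) - l * ar O C z := by
    intro z
    rw [ha, hb, hGd]
    simp only [ar_def, map_add, map_smul, smul_eq_mul]
    ring
  have i2 : ∀ z, ar C a z = -((1 - l) * ar O C z) := by
    intro z
    rw [ha]
    simp only [ar_def, map_add, map_smul, smul_eq_mul]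
    ring
  have i3 : ∀ z, ar C b z = m * G - ar O C z - m * (- ar O D z) := by
    intro z
    rw [hb, hGd]
    simp only [ar_def, map_add, map_smul, smul_eq_mul]
    ring
  have i4 : ∀ z, ar D C z = (- ar O D z) + ar O C z - G := by
    intro z
    rw [hGd]
    simp only [ar_def]
    ring
  have i5 : ∀ z, ar D b z = (1 - m) * (- ar O D z) := by
    intro z
    rw [hb]
    simp only [ar_def, map_add, map_smul, smul_eq_mul]
    ring
  -- coordinates of the special points
  have cO1 : ar O D O = 0 := ar_left _ _
  have cO2 : ar O C O = 0 := ar_left _ _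
  have cC1 : ar O D C = -G := by rw [hGd]; simp only [ar_def]; ring
  have cC2 : ar O C C = 0 := ar_right _ _
  have cD1 : ar O D D = 0 := ar_right _ _
  have cD2 : ar O C D = G := hGd.symm
  have ca1 : ar O D a = -(l * G) := by rw [ha, ar_aff, cO1, cC1]; ring
  have ca2 : ar O C a = 0 := by rw [ha, ar_aff, cO2, cC2]; ring
  have cb1 : ar O D b = 0 := by rw [hb, ar_aff, cO1, cD1]; ring
  have cb2 : ar O C b = m * G := by rw [hb, ar_aff, cO2, cD2]; ring
  have hlm : 0 < l * m * G := by positivity
  -- the inner part
  obtain ⟨Sa, hSa⟩ : ∃ Sa : Finset Plane, Sa = insert a (insert b (insert O Q)) := ⟨_, rfl⟩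
  have hSam : ∀ z, z ∈ Sa ↔ z = a ∨ z = b ∨ z = O ∨ z ∈ Q := by
    intro z
    rw [hSa, Finset.mem_insert, Finset.mem_insert, Finset.mem_insert]
  obtain ⟨Ta, hTa⟩ := exists_tri Sa
  have haS : a ∈ Sa := (hSam a).2 (Or.inl rfl)
  have hbS : b ∈ Sa := (hSam b).2 (Or.inr (Or.inl rfl))
  have hOS : O ∈ Sa := (hSam O).2 (Or.inr (Or.inr (Or.inl rfl)))
  have hab : a ≠ b := by
    intro h
    have h1 := ca2
    rw [h, cb2] at h1
    have : 0 < m * G := by positivity
    linarith
  have hX' : ∀ z ∈ Sa, ar O D z ≤ 0 := by
    intro z hz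
    rcases (hSam z).1 hz with rfl | rfl | rfl | hz
    · rw [ca1]; have : 0 < l * G := by positivity
      linarith
    · rw [cb1]
    · rw [cO1]
    · exact hX z hz
  have hY' : ∀ z ∈ Sa, 0 ≤ ar O C z := by
    intro z hz
    rcases (hSam z).1 hz with rfl | rfl | rfl | hz
    · rw [ca2]
    · rw [cb2]; positivity
    · rw [cO2]
    · exact hY z hz
  have hXY' : ∀ z ∈ Sa, z = a ∨ z = b ∨ 0 < ar a b z := by
    intro z hz
    rcases (hSam z).1 hz with h | h | rfl | hz
    · exact Or.inl h
    · exact Or.inr (Or.inl h)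
    · right; right
      rw [i1, cO1, cO2]; linarith
    · right; right
      have := hXY z hz
      rw [i1]; linarith
  have hside1 : ∀ z ∈ Sa, 0 ≤ ar a b z := by
    intro z hz
    rcases hXY' z hz with rfl | rfl | h
    · rw [ar_left]
    · rw [ar_right]
    · exact h.le
  have hfree1 : ∀ p ∈ Sa, p ∈ segment ℝ a b → p = a ∨ p = b := by
    intro p hp hps
    rcases hXY' p hp with h | h | h
    · exact Or.inl h
    · exact Or.inr h
    · exfalso
      obtain ⟨t, t0, t1, rfl⟩ := (mem_segment_iff _ _ _).1 hps
      rw [ar_aff, ar_left, ar_right] at h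
      linarith
  have hC0 : ar a b C < 0 := by
    rw [i1, cC1, cC2]
    have : 0 < (1 - l) * (m * G) := mul_pos (by linarith) (by positivity)
    linarith
  have hTb := insert_tri hTa haS hbS hab hside1 hC0 hfree1 (by
      intro z hz
      rw [i2]
      have : 0 ≤ (1 - l) * ar O C z := mul_nonneg (by linarith) (hY' z hz)
      linarith) (by
      intro z hz
      rw [i3]
      rcases hXY' z hz with rfl | rfl | h
      · rw [ca1, ca2]
        have : 0 ≤ (1 - l) * (m * G) := mul_nonneg (by linarith) (by positivity)
        linarith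
      · rw [cb1, cb2]; linarith
      · rw [i1] at h
        have h1 := hX' z hz
        have h2 : 0 ≤ (1 - l) * (m * (- ar O D z)) :=
          mul_nonneg (by linarith) (mul_nonneg hm0.le (by linarith))
        have h3 : 0 < l * (m * G - ar O C z - m * (- ar O D z)) := by linarith
        exact ((pos_iff_pos_of_mul_pos h3).1 hl0).le)
  -- the second insertion
  have hCne : C ≠ b := by
    intro h
    have h1 := cC1
    rw [h, cb1] at h1
    linarith
  have hcb : ∀ z ∈ insert C Sa, z = C ∨ z = b ∨ 0 < ar C b z := by
    intro z hz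
    rcases Finset.mem_insert.1 hz with h | hz
    · exact Or.inl h
    · rcases hXY' z hz with rfl | h | h
      · right; right
        rw [i3, ca1, ca2]
        have : 0 < (1 - l) * (m * G) := mul_pos (by linarith) (by positivity)
        linarith
      · exact Or.inr (Or.inl h)
      · right; right
        rw [i3]
        rw [i1] at h
        have h1 := hX' z hz
        have h2 : 0 ≤ (1 - l) * (m * (- ar O D z)) :=
          mul_nonneg (by linarith) (mul_nonneg hm0.le (by linarith))
        have h3 : 0 < l * (m * G - ar O C z - m * (- ar O D z)) := by linarith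
        exact (pos_iff_pos_of_mul_pos h3).1 hl0
  have hTc := insert_tri hTb (x := D) (Finset.mem_insert_self _ _) (Finset.mem_insert_of_mem hbS) hCne
    (by
      intro z hz
      rcases hcb z hz with rfl | rfl | h
      · rw [ar_left]
      · rw [ar_right]
      · exact h.le) (by
      rw [i3, cD1, cD2]
      have : 0 < (1 - m) * G := mul_pos (by linarith) hG
      linarith) (by
      intro p hp hps
      rcases hcb p hp with h | h | h
      · exact Or.inl h
      · exact Or.inr h
      · exfalso
        obtain ⟨t, t0, t1, rfl⟩ := (mem_segment_iff _ _ _).1 hps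
        rw [ar_aff, ar_left, ar_right] at h
        linarith) (by
      intro z hz
      rw [i4]
      rcases Finset.mem_insert.1 hz with rfl | hz
      · rw [cC1, cC2]; linarith
      · rcases hXY' z hz with rfl | rfl | h
        · rw [ca1, ca2]
          have : 0 ≤ (1 - l) * G := mul_nonneg (by linarith) hG.le
          linarith
        · rw [cb1, cb2]
          have : 0 ≤ (1 - m) * G := mul_nonneg (by linarith) hG.le
          linarith
        · rw [i1] at h
          have h1 := hX' z hz
          have h2 := hY' z hz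
          have h3 : 0 ≤ m * (1 - l) * (- ar O D z) :=
            mul_nonneg (mul_nonneg hm0.le (by linarith)) (by linarith)
          have h4 : 0 ≤ l * (1 - m) * ar O C z :=
            mul_nonneg (mul_nonneg hl0.le (by linarith)) h2
          have h5 : 0 < l * m * (G - (- ar O D z) - ar O C z) := by linarith
          have h6 : 0 < l * m := by positivity
          have := (pos_iff_pos_of_mul_pos h5).1 h6
          linarith) (by
      intro z hz
      rw [i5]
      rcases Finset.mem_insert.1 hz with rfl | hz
      · rw [cC1]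
        have : 0 ≤ (1 - m) * G := mul_nonneg (by linarith) hG.le
        linarith
      · exact mul_nonneg (by linarith) (by linarith [hX' z hz]))
  refine ⟨_, ⟨_, ?_, hTc⟩, ?_⟩
  · intro z hz
    rw [Finset.mem_union] at hz
    rw [Finset.mem_insert, Finset.mem_insert, hSam]
    rcases hz with hz | hz
    · exact Or.inr (Or.inr (Or.inr (Or.inr (Or.inr hz))))
    · rw [Finset.mem_insert, Finset.mem_insert, Finset.mem_singleton] at hz
      rcases hz with h | h | h
      · exact Or.inr (Or.inr (Or.inr (Or.inr (Or.inl h))))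
      · exact Or.inr (Or.inl h)
      · exact Or.inl h
  · have w1 : weight Ta ≤ ((Q.card : ℝ) + 3) * ((Q.card : ℝ) + 4) * (2 * Δ) := by
      have dOa : dist O a ≤ Δ := by
        have : dist O a = l * dist O C := by
          rw [ha, dist_eq_norm, dist_eq_norm,
            show O - ((1 - l) • O + l • C) = l • (O - C) by module, norm_smul,
            Real.norm_of_nonneg hl0.le]
        rw [this]; exact hΔC
      have dOb : dist O b ≤ Δ := by
        have : dist O b = m * dist O D := by
          rw [hb, dist_eq_norm, dist_eq_norm,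
            show O - ((1 - m) • O + m • D) = m • (O - D) by module, norm_smul,
            Real.norm_of_nonneg hm0.le]
        rw [this]; exact hΔD
      have dO : ∀ z ∈ Sa, dist O z ≤ Δ := by
        intro z hz
        rcases (hSam z).1 hz with rfl | rfl | rfl | hz
        · exact dOa
        · exact dOb
        · rw [dist_self]; exact hΔ0
        · exact hΔQ z hz
      have h1 := weight_le hTa.1 (Δ := 2 * Δ) (by
        intro p hp q hq
        have h2 := dO p hp
        have h3 := dO q hq
        have := dist_triangle_left p q O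
        linarith) (by linarith)
      refine h1.trans ?_
      apply mul_le_mul_of_nonneg_right _ (by linarith)
      have h4 : Sa.card ≤ Q.card + 3 := by
        rw [hSa]
        refine (Finset.card_insert_le _ _).trans ?_
        have := Finset.card_insert_le b (insert O Q)
        have := Finset.card_insert_le O Q
        omega
      have h5 : (Sa.card : ℝ) ≤ Q.card + 3 := by exact_mod_cast h4
      have h6 : (0 : ℝ) ≤ Sa.card := Nat.cast_nonneg _
      nlinarith
    have w2 := weight_insert_le s(D, C) (insert s(D, b) (insert s(C, a) (insert s(C, b) Ta)))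
    have w3 := weight_insert_le s(D, b) (insert s(C, a) (insert s(C, b) Ta))
    have w4 := weight_insert_le s(C, a) (insert s(C, b) Ta)
    have w5 := weight_insert_le s(C, b) Ta
    rw [len_mk] at w2 w3 w4 w5
    have d1 : dist D b = (1 - m) * dist O D := by
      rw [hb, dist_comm O D, dist_eq_norm, dist_eq_norm,
        show D - ((1 - m) • O + m • D) = (1 - m) • (D - O) by module, norm_smul,
        Real.norm_of_nonneg (by linarith)]
    have d2 : dist C a = (1 - l) * dist O C := by
      rw [ha, dist_comm O C, dist_eq_norm, dist_eq_norm,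
        show C - ((1 - l) • O + l • C) = (1 - l) • (C - O) by module, norm_smul,
        Real.norm_of_nonneg (by linarith)]
    have d3 : dist C b ≤ dist O C + m * dist O D := by
      have h1 : dist O b = m * dist O D := by
        rw [hb, dist_eq_norm, dist_eq_norm,
          show O - ((1 - m) • O + m • D) = m • (O - D) by module, norm_smul,
          Real.norm_of_nonneg hm0.le]
      have h2 := dist_triangle C O b
      rw [dist_comm C O, h1] at h2
      exact h2
    have d4 : dist D C = dist C D := dist_comm _ _
    have d5 : 0 ≤ l * dist O C := by positivity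
    linarith

end Pool.Agent.Y571.ST
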