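import Mathlib
import Pool.Agent.Y571.ST.Ins
import Pool.Agent.Y571.ST.Ext
import Pool.Agent.H695R2.Steiner.Lower

/-!
# Triangulations with one remote point: the structure at the remote point
-/

set_option autoImplicit false

open Pool.Agent.H695R2.Steiner Filter Topology

namespace Pool.Agent.Y571.ST

/-- numerical conditions on the configuration -/
structure Cfg (Q : Finset Plane) (O C E : Plane) (R s K : ℝ) : Prop where
  Qne : Q.Nonempty
  Ox : cx O ≤ R
  Oy : cy O ≤ R
  Cy : cy C ≤ R
  Ex : cx E ≤ R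
  Qx : ∀ q ∈ Q, cx q ≤ R
  K0 : 0 ≤ K
  s0 : 0 < s
  A1 : 2 * R - cy O - cy C + K < s
  A2 : R + s < cy E
  A3 : (cx C - cx E) * (R + s - cy C) ≤ cy E - cy C
  A4 : K < 3 * (cx C - 1 - R)
  A5 : (R + s - cy C) * (R + 1 - cx E) < (cy E - R - s) * (cx C - R - 1)
  ang : (cx C - cx O) * (cx E - cx O) + (cy C - cy O) * (cy E - cy O) ≤ 0
  G : 0 < ar O C E
  QC : ∀ q ∈ Q, 0 < ar O C q
  QE : ∀ q ∈ Q, ar O E q < 0

variable {Q S : Finset Plane} {T : Finset (Sym2 Plane)} {O C E p r : Plane} {R s K : ℝ}

theorem Cfg.OC (h : Cfg Q O C E R s K) : O ≠ C := by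
  rintro rfl
  have := h.G
  rw [ar_same] at this
  exact lt_irrefl _ this

theorem Cfg.Cx (h : Cfg Q O C E R s K) : R + 1 < cx C := by
  have := h.A4
  have := h.K0
  linarith

theorem Cfg.OE (h : Cfg Q O C E R s K) : cy O < cy E := by
  have := h.A2
  have := h.Oy
  have := h.s0
  linarith

theorem Cfg.CE (h : Cfg Q O C E R s K) : cy C < cy E := by
  have := h.A2
  have := h.Cy
  have := h.s0
  linarith

theorem Cfg.QE' (h : Cfg Q O C E R s K) {q : Plane} (hq : q ∈ Q) : q ≠ E := by
  rintro rfl
  have := h.QE q hq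
  rw [ar_right] at this
  exact lt_irrefl _ this

theorem Cfg.QO' (h : Cfg Q O C E R s K) {q : Plane} (hq : q ∈ Q) : O ≠ q := by
  rintro rfl
  have := h.QE O hq
  rw [ar_left] at this
  exact lt_irrefl _ this

theorem noncol_of {u v : Plane →ₗ[ℝ] ℝ} (huv : (u = cx ∧ v = cy) ∨ (u = cy ∧ v = cx))
    {a b c : Plane} (ha : a ∈ S) (hb : b ∈ S) (hc : c ∈ S) (h : ar a b c ≠ 0) : Noncol u v S := by
  refine ⟨a, ha, b, hb, c, hc, ?_⟩
  rcases huv with ⟨rfl, rfl⟩ | ⟨rfl, rfl⟩
  · exact h
  · intro h'
    apply h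
    simp only [D] at h'
    simp only [ar_def]
    linarith

theorem D_yx' (a b z : Plane) : D cy cx a b z = - ar a b z := by
  simp only [ar_def, D]; ring

/-- a level which meets at most two edges -/
theorem Cfg.level (h : Cfg Q O C E R s K) (hT : IsTriangulation S T) (hO : O ∈ S) (hC : C ∈ S)
    (hE : E ∈ S) (hw : weight T ≤ (cy E - cy O) + (cy E - cy C) + K) :
    ∃ t, R < t ∧ t < R + s ∧ t ∉ bad S ∧ (crossSet cy t T).card < 3 := by
  classical
  by_contra hcon
  push Not at hcon
  have hnc : Noncol cy cx S := noncol_of (Or.inr ⟨rfl, rfl⟩) hO hC hE h.G.ne'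
  have hOy := h.Oy
  have hA2 := h.A2
  have hs0 := h.s0
  have := main_ineq T (fun i : Bool => if i then {z | cy z < R + s} else {z | R + s < cy z})
    (by
      intro i
      cases i
      · simpa using convex_gt cy (R + s)
      · simpa using convex_lt cy (R + s))
    (by
      intro i j hij
      cases i <;> cases j
      · exact absurd rfl hij
      · simp only [Function.onFun, Set.disjoint_left]
        intro z hz hz'
        simp at hz hz'
        linarith
      · simp only [Function.onFun, Set.disjoint_left]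
        intro z hz hz'
        simp at hz hz'
        linarith
      · exact absurd rfl hij)
    (fun _ => cy) (fun _ => abs_cy_sub_le)
    (fun i => if i then R else R + s) (fun i => if i then R + s else cy E)
    (fun i => if i then 3 else 2) (bad S) (bad_finite S)
    (by
      intro i t h1 h2 h3
      cases i
      · simp only [Bool.false_eq_true, if_false] at h1 h2 ⊢
        refine le_trans ?_ (cross_le_filter (u := cy) (t := t) ?_)
        · exact two_le_cross sep_yx hT hnc t (gen_y h3)
            ⟨O, hO, by linarith⟩ ⟨E, hE, by linarith⟩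
        · intro z hz
          simp only [Set.mem_ofPred_eq]
          linarith
      · simp only [if_true] at h1 h2 ⊢
        refine le_trans (hcon t h1 h2 h3) (cross_le_filter (u := cy) (t := t) ?_)
        intro z hz
        simp only [Set.mem_ofPred_eq]
        linarith)
  simp only [Fintype.sum_bool, if_true, Bool.false_eq_true, if_false] at this
  have h8 : (max 0 ((R + s) - R)) = s := by rw [max_eq_right (by linarith)]; ring
  have h9 : (max 0 (cy E - (R + s))) = cy E - (R + s) := max_eq_right (by linarith)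
  rw [h8, h9] at this
  unfold weight at hw
  have hA1 := h.A1
  push_cast at this
  linarith

/-- the data at the remote point -/
structure Tp (O C E : Plane) (R s : ℝ) (S : Finset Plane) (T : Finset (Sym2 Plane))
    (p r : Plane) : Prop where
  tri : IsTriangulation S T
  hO : O ∈ S
  hC : C ∈ S
  hE : E ∈ S
  hp : p ∈ S
  hr : r ∈ S
  hpr : p ≠ r
  hpT : s(p, E) ∈ T
  hrT : s(r, E) ∈ T
  left : ∀ z ∈ S, ar p E z ≤ 0
  right : ∀ z ∈ S, 0 ≤ ar r E z
  deg : ∀ q, s(q, E) ∈ T → q = p ∨ q = r
  low : ∀ z ∈ S, z ≠ E → cy z < R + s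

theorem Cfg.top (h : Cfg Q O C E R s K) (hT : IsTriangulation S T) (hO : O ∈ S) (hC : C ∈ S)
    (hE : E ∈ S) (hw : weight T ≤ (cy E - cy O) + (cy E - cy C) + K) :
    ∃ p r, Tp O C E R s S T p r := by
  classical
  obtain ⟨t, ht0, ht1, htb, hcard⟩ := h.level hT hO hC hE hw
  have hgen := gen_y htb
  have hnc : Noncol cy cx S := noncol_of (Or.inr ⟨rfl, rfl⟩) hO hC hE h.G.ne'
  have hOy := h.Oy
  have hCy := h.Cy
  have hA2 := h.A2
  have habove : ∀ z ∈ S, t < cy z → z = E := by
    intro z hz hsz
    by_contra hne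
    have := three_le_cross sep_yx hT hnc t hgen
      ⟨O, hO, C, hC, h.OC, by linarith, by linarith⟩
      ⟨z, hz, E, hE, hne, hsz, by linarith⟩
    omega
  have hbelow : ∀ z ∈ S, z ≠ E → cy z < t := by
    intro z hz hne
    rcases lt_or_gt_of_ne (hgen z hz) with h | h
    · exact h
    · exact absurd (habove z hz h) hne
  have hA' : ∃ a ∈ S, cy a < t := ⟨O, hO, by linarith⟩
  have hB' : ∃ b ∈ S, t < cy b := ⟨E, hE, by linarith⟩
  obtain ⟨p, hp, d1, hd1, h1, h2, h3, h4, _⟩ := hull_edge sep_yx hT t hgen hA' hB'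
  obtain ⟨r, hr, d2, hd2, h1', h2', h3', h4', _⟩ := hull_edge sep_yx.neg hT t hgen hA' hB'
  have e1 := habove d1 hd1 h2
  have e2 := habove d2 hd2 h2'
  subst e1
  subst e2
  have hne := hull_ne hnc h1 h2 h1' h2' h4 h4'
  have hpr : p ≠ r := by
    rintro rfl
    exact hne rfl
  refine ⟨p, r, hT, hO, hC, hE, hp, hr, hpr, h3, h3', ?_, ?_, ?_, ?_⟩
  · intro z hz
    have := h4 z hz
    rw [D_yx'] at this
    linarith
  · intro z hz
    have := h4' z hz
    rwa [D_yx] at this
  · intro q hq
    have hqS : q ∈ S := hT.1.ends _ hq q (Sym2.mem_mk_left _ _)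
    have hqd : q ≠ d2 := ne_of_mem hT.1 hq
    have hqs := hbelow q hqS hqd
    have hsub : ({s(p, d2), s(r, d2)} : Finset (Sym2 Plane)) ⊆ crossSet cy t T := by
      intro e he
      rw [Finset.mem_insert, Finset.mem_singleton] at he
      rcases he with rfl | rfl
      · exact mem_crossSet.2 ⟨h3, cr_mk h1 h2⟩
      · exact mem_crossSet.2 ⟨h3', cr_mk h1' h2'⟩
    have heq : ({s(p, d2), s(r, d2)} : Finset (Sym2 Plane)) = crossSet cy t T :=
      Finset.eq_of_subset_of_card_le hsub (by rw [Finset.card_pair hne]; omega)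
    have : s(q, d2) ∈ crossSet cy t T := mem_crossSet.2 ⟨hq, cr_mk hqs h2⟩
    rw [← heq, Finset.mem_insert, Finset.mem_singleton] at this
    rcases this with h | h
    · left
      rw [Sym2.eq_iff] at h
      rcases h with h | h
      · exact h.1
      · exact absurd h.1 hqd
    · right
      rw [Sym2.eq_iff] at h
      rcases h with h | h
      · exact h.1
      · exact absurd h.1 hqd
  · intro z hz hne'
    exact (hbelow z hz hne').trans ht1

theorem Tp.p_ne (h : Tp O C E R s S T p r) : p ≠ E := ne_of_mem h.tri.1 h.hpT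
theorem Tp.r_ne (h : Tp O C E R s S T p r) : r ≠ E := ne_of_mem h.tri.1 h.hrT

open Classical in
/-- the triangulation below the remote point -/
noncomputable def T1 (E : Plane) (T : Finset (Sym2 Plane)) : Finset (Sym2 Plane) :=
  T.filter (fun e => E ∉ e)

theorem mem_T1 {e : Sym2 Plane} : e ∈ T1 E T ↔ e ∈ T ∧ E ∉ e := by
  classical
  simp [T1]

theorem Tp.hull (h : Tp O C E R s S T p r) : ∀ e ∈ T, E ∈ e →
    ∃ q, e = s(q, E) ∧ HullEdge cy cx S q E := by
  intro e he hd
  obtain ⟨q, rfl⟩ := Sym2.mem_iff_exists.1 hd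
  rw [Sym2.eq_swap] at he
  rcases h.deg q he with rfl | rfl
  · exact ⟨q, Sym2.eq_swap, Or.inl fun z hz => by rw [D_yx']; linarith [h.left z hz]⟩
  · exact ⟨q, Sym2.eq_swap, Or.inr fun z hz => by rw [D_yx]; exact h.right z hz⟩

open Classical in
theorem Tp.tri1 (hc : Cfg Q O C E R s K) (h : Tp O C E R s S T p r) :
    IsTriangulation (S.erase E) (T1 E T) := by
  have := tri_erase sep_yx h.tri h.hE (by
    intro z hz hne
    have := h.low z hz hne
    have := hc.A2
    linarith) h.hull
  convert this using 1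
  ext e
  rw [mem_T1, Finset.mem_filter]

theorem Tp.weight_eq (h : Tp O C E R s S T p r) :
    weight T = dist p E + dist r E + weight (T1 E T) := by
  classical
  unfold weight
  have h1 : T = insert s(p, E) (insert s(r, E) (T1 E T)) := by
    ext e
    rw [Finset.mem_insert, Finset.mem_insert, mem_T1]
    constructor
    · intro he
      by_cases hd : E ∈ e
      · obtain ⟨q, rfl⟩ := Sym2.mem_iff_exists.1 hd
        rw [Sym2.eq_swap] at he
        rcases h.deg q he with rfl | rfl
        · left; exact Sym2.eq_swap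
        · right; left; exact Sym2.eq_swap
      · exact Or.inr (Or.inr ⟨he, hd⟩)
    · rintro (rfl | rfl | ⟨he, _⟩)
      · exact h.hpT
      · exact h.hrT
      · exact he
  have h2 : s(r, E) ∉ T1 E T := by
    rw [mem_T1]
    intro hh
    exact hh.2 (Sym2.mem_mk_right _ _)
  have h3 : s(p, E) ∉ insert s(r, E) (T1 E T) := by
    rw [Finset.mem_insert, mem_T1]
    rintro (hh | hh)
    · rw [Sym2.eq_iff] at hh
      rcases hh with hh | hh
      · exact h.hpr hh.1
      · exact h.p_ne hh.1
    · exact hh.2 (Sym2.mem_mk_right _ _)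
  conv_lhs => rw [h1]
  rw [Finset.sum_insert h3, Finset.sum_insert h2, len_mk, len_mk]
  ring

open Classical in
theorem mem_er {z : Plane} (hz : z ∈ S) (hne : z ≠ E) : z ∈ S.erase E :=
  Finset.mem_erase.2 ⟨hne, hz⟩

open Classical in
theorem bad_er : ∀ t, t ∉ bad S → t ∉ bad (S.erase E) := by
  intro t ht ht'
  apply ht
  rcases ht' with ⟨z, hz, e⟩ | ⟨z, hz, e⟩
  · exact Or.inl ⟨z, Finset.mem_of_mem_erase hz, e⟩
  · exact Or.inr ⟨z, Finset.mem_of_mem_erase hz, e⟩

theorem dist_ge_y (a b : Plane) : cy b - cy a ≤ dist a b := by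
  have := abs_cy_sub_le a b
  rw [abs_le] at this
  linarith [this.1]

/-- `r = C` -/
theorem Cfg.r_eq (hc : Cfg Q O C E R s K) (h : Tp O C E R s S T p r) (hQ : Q ⊆ S)
    (hw : weight T ≤ (cy E - cy O) + (cy E - cy C) + K) : r = C := by
  classical
  by_contra hrc
  obtain ⟨q, hq⟩ := hc.Qne
  have hqS := hQ hq
  have hCE := hc.CE
  have hOE := hc.OE
  have hOx := hc.Ox
  have hEx := hc.Ex
  have hCx := hc.Cx
  have hOE' : O ≠ E := by rintro rfl; exact lt_irrefl _ hOE
  have hCE' : C ≠ E := by rintro rfl; exact lt_irrefl _ hCE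
  have hO' := mem_er h.hO hOE'
  have hC' := mem_er h.hC hCE'
  have hq' := mem_er hqS (hc.QE' hq)
  have hp' := mem_er h.hp h.p_ne
  have hr' := mem_er h.hr h.r_ne
  have hlowp := h.low p h.hp h.p_ne
  have hlowr := h.low r h.hr h.r_ne
  have hA2 := hc.A2
  -- position of r
  have hrx : cx C - 1 ≤ cx r := by
    have h1 := h.right C h.hC
    have h2 : ar r E C = cx r * (cy E - cy C) - cx E * (cy r - cy C) - cx C * (cy E - cy r) := by
      rw [ar_def]; ring
    rw [h2] at h1
    by_contra hcon
    push Not at hcon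
    have h3 : (cx C - cx E) * (cy r - cy C) ≤ (cx C - cx E) * (R + s - cy C) :=
      mul_le_mul_of_nonneg_left (by linarith) (by linarith)
    have h4 := hc.A3
    have h5 : 0 < (cx C - 1 - cx r) * (cy E - cy C) := mul_pos (by linarith) (by linarith)
    linarith
  obtain ⟨m, hm⟩ : ∃ m, m = min (cx r) (cx C) := ⟨_, rfl⟩
  have hm1 : cx C - 1 ≤ m := by
    rw [hm, le_min_iff]
    exact ⟨hrx, by linarith⟩
  have hmr : m ≤ cx r := hm ▸ min_le_left _ _
  have hmC : m ≤ cx C := hm ▸ min_le_right _ _
  have hRm : R < m := by linarith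
  have hnc : Noncol cx cy (S.erase E) :=
    noncol_of (Or.inl ⟨rfl, rfl⟩) hO' hC' hq' (hc.QC q hq).ne'
  have htri := h.tri1 hc
  have key := main_ineq (T1 E T)
    (![{z | R < cx z} ∩ {z | cx z < m}, {z | cx z ≤ R}, {z | m ≤ cx z}] : Fin 3 → Set Plane)
    (by
      intro i
      fin_cases i
      · exact (convex_gt cx R).inter (convex_lt cx m)
      · exact convex_le cx R
      · exact convex_ge cx m)
    (by
      intro i j hij
      simp only [Function.onFun, Set.disjoint_left]
      intro z hz hz'
      fin_cases i <;> fin_cases j <;> simp at hij hz hz' <;>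
        first
        | exact absurd rfl hij
        | linarith)
    (![cx, cy, cy] : Fin 3 → (Plane →ₗ[ℝ] ℝ))
    (by
      intro i
      fin_cases i
      · exact abs_cx_sub_le
      · exact abs_cy_sub_le
      · exact abs_cy_sub_le)
    (![R, cy O, cy C] : Fin 3 → ℝ) (![m, cy p, cy r] : Fin 3 → ℝ)
    (![3, 1, 1] : Fin 3 → ℕ) (bad S) (bad_finite S)
    (by
      intro i t h1 h2 h3
      have h3' : t ∉ bad (S.erase E) := bad_er t h3
      fin_cases i
      · simp at h1 h2 ⊢
        refine le_trans ?_ (cross_le_filter (u := cx) (t := t) ?_)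
        · exact three_le_cross sep_xy htri hnc t (gen_x h3')
            ⟨O, hO', q, hq', hc.QO' hq, by linarith, by linarith [hc.Qx q hq]⟩
            ⟨C, hC', r, hr', Ne.symm hrc, by linarith, by linarith⟩
        · intro z hz
          exact ⟨by simpa [hz] using h1, by simpa [hz] using h2⟩
      · simp at h1 h2 ⊢
        obtain ⟨a, ha, b, hb, k1, k2, k3, k4, k5⟩ := hull_edge sep_yx htri t (gen_y h3')
          ⟨O, hO', by simpa using h1⟩ ⟨p, hp', h2⟩
        obtain ⟨z, hz, hzt, hzp⟩ := cross_point (v := cx) k1 k2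
        refine ⟨_, Finset.mem_filter.2 ⟨k3, z, hz, ?_, hzt⟩⟩
        have k6 := k5 O hO' p hp' h1 h2
        rw [← hzp] at k6
        have k7 : pos cy cx t O p ≤ R := by
          rw [pos, div_le_iff₀ (by linarith)]
          have j1 := h.left O h.hO
          have j2 : ar p E O = -((cy E - cy p) * (cx O - cx p) + (cy p - cy O) * (cx E - cx p)) := by
            rw [ar_def]; ring
          rw [j2] at j1
          have hpR : cx p ≤ R := by
            by_contra hcon
            push Not at hcon
            have j3 : (cy E - cy p) * (cx O - cx p) < 0 :=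
              mul_neg_of_pos_of_neg (by linarith) (by linarith)
            have j4 : (cy p - cy O) * (cx E - cx p) < 0 :=
              mul_neg_of_pos_of_neg (by linarith) (by linarith)
            linarith
          have j5 : 0 ≤ (R - cx O) * (cy p - t) := mul_nonneg (by linarith) (by linarith)
          have j6 : 0 ≤ (R - cx p) * (t - cy O) := mul_nonneg (by linarith) (by linarith)
          linarith
        exact k6.trans k7
      · simp at h1 h2 ⊢
        obtain ⟨a, ha, b, hb, k1, k2, k3, k4, k5⟩ := hull_edge sep_yx.neg htri t (gen_y h3')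
          ⟨C, hC', by simpa using h1⟩ ⟨r, hr', h2⟩
        obtain ⟨z, hz, hzt, hzp⟩ := cross_point (v := -cx) k1 k2
        refine ⟨_, Finset.mem_filter.2 ⟨k3, z, hz, ?_, hzt⟩⟩
        have k6 := k5 C hC' r hr' h1 h2
        rw [← hzp] at k6
        have k7 : pos cy (-cx) t C r ≤ -m := by
          rw [pos, div_le_iff₀ (by linarith)]
          simp only [LinearMap.neg_apply]
          have j5 : 0 ≤ (cx C - m) * (cy r - t) := mul_nonneg (by linarith) (by linarith)
          have j6 : 0 ≤ (cx r - m) * (t - cy C) := mul_nonneg (by linarith) (by linarith)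
          linarith
        have k8 := k6.trans k7
        simp only [LinearMap.neg_apply] at k8
        show m ≤ cx z
        linarith)
  simp only [Fin.sum_univ_three] at key
  simp at key
  have e1 : (max 0 (m - R)) = m - R := max_eq_right (by linarith)
  rw [e1] at key
  have w := h.weight_eq
  have w1 : ∑ e ∈ T1 E T, len e = weight (T1 E T) := rfl
  rw [w1] at key
  have d1 := dist_ge_y p E
  have d2 := dist_ge_y r E
  have m1 : cy p - cy O ≤ max 0 (cy p - cy O) := le_max_right _ _
  have m2 : cy r - cy C ≤ max 0 (cy r - cy C) := le_max_right _ _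
  have hA4 := hc.A4
  linarith

/-- the segment `pC` is an edge, and all points except `E` are below it -/
theorem Cfg.edge_pC (hc : Cfg Q O C E R s K) (h : Tp O C E R s S T p C) :
    s(p, C) ∈ T ∧ ∀ z ∈ S, z ≠ E → ar p C z ≤ 0 := by
  classical
  have hCE := hc.CE
  have hOE := hc.OE
  have hOx := hc.Ox
  have hEx := hc.Ex
  have hCx := hc.Cx
  have hA2 := hc.A2
  have hs0 := hc.s0
  have hCy := hc.Cy
  have hOE' : O ≠ E := by rintro rfl; exact lt_irrefl _ hOE
  have hCE' : C ≠ E := by rintro rfl; exact lt_irrefl _ hCE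
  have hO' := mem_er h.hO hOE'
  have hC' := mem_er h.hC hCE'
  have htri := h.tri1 hc
  obtain ⟨t, ht, htb⟩ : ∃ t ∈ Set.Ioo R (R + 1), t ∉ bad S := by
    have hinf : (Set.Ioo R (R + 1)).Infinite := Set.Ioo_infinite (by linarith)
    obtain ⟨t, ht, ht'⟩ := (hinf.sdiff (bad_finite S)).nonempty
    exact ⟨t, ht, ht'⟩
  have htb' : t ∉ bad (S.erase E) := bad_er t htb
  have ht0 := ht.1
  have ht1 := ht.2
  obtain ⟨q1, hq1, q2, hq2, h1, h2, h3, h4, _⟩ := hull_edge sep_xy.neg htri t (gen_x htb')
    ⟨O, hO', by linarith⟩ ⟨C, hC', by linarith⟩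
  have hq12 : cx q1 < cx q2 := h1.trans h2
  have hD' : ∀ z ∈ S.erase E, ar q1 q2 z ≤ 0 := by
    intro z hz
    have := h4 z hz
    rw [D_neg] at this
    have e : D cx cy q1 q2 z = ar q1 q2 z := rfl
    linarith
  have hq1S := Finset.mem_of_mem_erase hq1
  have hq2S := Finset.mem_of_mem_erase hq2
  have hq1d := (Finset.mem_erase.1 hq1).1
  have hq2d := (Finset.mem_erase.1 hq2).1
  have low1 := h.low q1 hq1S hq1d
  have low2 := h.low q2 hq2S hq2d
  -- E is strictly above the line q1 q2
  have hEpos : 0 < ar q1 q2 E := by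
    by_contra hcon
    push Not at hcon
    have g3 := hD' C hC'
    rw [ar_def] at hcon g3
    -- w = width, h = difference of heights
    rcases le_or_gt (cx q1) (cx E) with hx | hx
    · -- the line at cx E is between the heights of q1 and q2
      have f1 : (cx q2 - cx q1) * (cy E - cy q1) ≤ (cy q2 - cy q1) * (cx E - cx q1) := by linarith
      have f2 : 0 ≤ (cx q2 - cx E) * (cy E - cy q1) := mul_nonneg (by linarith) (by linarith)
      have f3 : 0 < (cy E - cy q2) * (cx E - cx q1) ∨ cx E = cx q1 := by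
        rcases eq_or_lt_of_le hx with h' | h'
        · exact Or.inr h'.symm
        · exact Or.inl (mul_pos (by linarith) (by linarith))
      rcases f3 with f3 | f3
      · nlinarith
      · rw [f3] at f1
        have : 0 < (cx q2 - cx q1) * (cy E - cy q1) := mul_pos (by linarith) (by linarith)
        linarith
    · -- steep line
      have f1 : (cx q2 - cx q1) * (cy E - cy q1) ≤ (cy q1 - cy q2) * (cx q1 - cx E) := by linarith
      have f2 : (cy q1 - cy q2) * (cx C - cx q1) ≤ (cx q2 - cx q1) * (cy q1 - cy C) := by linarith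
      have f3 : 0 < cx C - cx q1 := by linarith
      have f4 : 0 < cx q1 - cx E := by linarith
      have f5 : (cx q2 - cx q1) * (cy E - cy q1) * (cx C - cx q1) ≤
          (cx q2 - cx q1) * (cy q1 - cy C) * (cx q1 - cx E) := by
        calc (cx q2 - cx q1) * (cy E - cy q1) * (cx C - cx q1) ≤
              (cy q1 - cy q2) * (cx q1 - cx E) * (cx C - cx q1) :=
              mul_le_mul_of_nonneg_right f1 f3.le
          _ = (cy q1 - cy q2) * (cx C - cx q1) * (cx q1 - cx E) := by ring
          _ ≤ _ := mul_le_mul_of_nonneg_right f2 f4.le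
      have f6 : 0 < cx q2 - cx q1 := by linarith
      have f7 : (cy E - cy q1) * (cx C - cx q1) ≤ (cy q1 - cy C) * (cx q1 - cx E) := by
        have : (cx q2 - cx q1) * ((cy E - cy q1) * (cx C - cx q1)) ≤
          (cx q2 - cx q1) * ((cy q1 - cy C) * (cx q1 - cx E)) := by linarith
        exact le_of_mul_le_mul_left this f6
      have f8 : (cy E - R - s) * (cx C - R - 1) ≤ (cy E - cy q1) * (cx C - cx q1) :=
        mul_le_mul (by linarith) (by linarith) (by linarith) (by linarith)
      have f9 : (cy q1 - cy C) * (cx q1 - cx E) ≤ (R + s - cy C) * (R + 1 - cx E) :=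
        mul_le_mul (by linarith) (by linarith) f4.le (by linarith)
      have := hc.A5
      linarith
  have main : ∀ q ∈ S.erase E, ar q1 q2 q = 0 → s(q, E) ∈ T := by
    intro q hq hDq
    have hqS := Finset.mem_of_mem_erase hq
    have hqd : q ≠ E := (Finset.mem_erase.1 hq).1
    have hfree : ∀ z ∈ S, z ∈ segment ℝ q E → z = q ∨ z = E := by
      intro z hz hzs
      by_cases hzd : z = E
      · exact Or.inr hzd
      · left
        obtain ⟨τ, h0, h1', h2'⟩ := (mem_segment_iff _ _ _).1 hzs
        have e1 := hD' z (mem_er hz hzd)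
        rw [h2', ar_aff, hDq] at e1
        have : τ = 0 := by nlinarith
        rw [h2', this]; simp
    apply mem_of_free h.tri hqS h.hE hqd hfree
    intro f hf hne z hzf hz
    by_cases hd : E ∈ f
    · obtain ⟨k, rfl, hh⟩ := h.hull f hf hd
      have hk : k ∈ S := h.tri.1.ends _ hf k (Sym2.mem_mk_left _ _)
      have hkd : k ≠ E := ne_of_mem h.tri.1 hf
      have hne' : cy k ≠ cy E := by
        have := h.low k hk hkd
        linarith
      exact hull_nc sep_yx h.tri.1 hk h.hE hne' hf hh hqS h.hE hqd hfree hzf hz hne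
    · have hz0' : ar q1 q2 z ≤ 0 := by
        induction f using Sym2.ind with
        | _ a b =>
          have ha := h.tri.1.ends _ hf a (Sym2.mem_mk_left _ _)
          have hb := h.tri.1.ends _ hf b (Sym2.mem_mk_right _ _)
          have ha' : a ≠ E := fun e => hd (e ▸ Sym2.mem_mk_left _ _)
          have hb' : b ≠ E := fun e => hd (e ▸ Sym2.mem_mk_right _ _)
          obtain ⟨τ, h0, h1', h2'⟩ := (mem_segment_iff _ _ _).1 hzf
          rw [h2', ar_aff]
          have := hD' a (mem_er ha ha')
          have := hD' b (mem_er hb hb')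
          nlinarith
      obtain ⟨τ, h0, h1', h2'⟩ := (mem_segment_iff _ _ _).1 hz
      rw [h2', ar_aff, hDq] at hz0'
      have ht : τ = 0 := by nlinarith
      have hzq : z = q := by rw [h2', ht]; simp
      refine ⟨Or.inl hzq, ?_⟩
      rw [hzq] at hzf ⊢
      exact h.tri.1.empty f hf q hqS hzf
  have m1 := main q1 hq1 (ar_left _ _)
  have m2 := main q2 hq2 (ar_right _ _)
  have e1 : q1 = p := by
    rcases h.deg q1 m1 with e | e
    · exact e
    · exfalso
      rw [e] at h1
      linarith
  have e2 : q2 = C := by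
    rcases h.deg q2 m2 with e | e
    · exfalso
      rw [e, ← e1] at hq12
      exact lt_irrefl _ hq12
    · exact e
  rw [← e1, ← e2]
  exact ⟨(mem_T1.1 h3).1, fun z hz hne => hD' z (mem_er hz hne)⟩

end Pool.Agent.Y571.ST
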