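import Mathlib
import Pool.Agent.Y571.ST.Top

/-!
# No Steiner triangulation of minimum weight
-/

set_option autoImplicit false

open Pool.Agent.H695R2.Steiner Filter Topology

namespace Pool.Agent.Y571.ST

variable {Q S : Finset Plane} {T : Finset (Sym2 Plane)} {O C E p r : Plane} {R s K : ℝ}

open Classical in
/-- the point set -/
noncomputable def PP (Q : Finset Plane) (O C E : Plane) : Finset Plane := Q ∪ {O, C, E}

theorem mem_PP {z : Plane} : z ∈ PP Q O C E ↔ z ∈ Q ∨ z = O ∨ z = C ∨ z = E := by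
  unfold PP
  rw [Finset.mem_union, Finset.mem_insert, Finset.mem_insert, Finset.mem_singleton]

/-- an extreme point of a line on the boundary is not in the convex hull of the others -/
theorem not_hull {S : Finset Plane} {g : Plane} {F : Plane → ℝ} {f1 f2 : Plane →ₗ[ℝ] ℝ} {c : ℝ}
    (hF : ∀ z, F z = f1 z - c) (hFg : F g = 0) (hle : ∀ z ∈ S, F z ≤ 0)
    (hlt : ∀ z ∈ S, z ≠ g → F z = 0 → f2 g < f2 z) :
    g ∉ convexHull ℝ ((S : Set Plane) \ {g}) := by
  classical
  intro hmem
  have hcoe : ((S : Set Plane) \ {g}) = ((S.erase g : Finset Plane) : Set Plane) := by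
    rw [Finset.coe_erase]
  rw [hcoe, Finset.mem_convexHull'] at hmem
  obtain ⟨w, hw0, hw1, hwg⟩ := hmem
  have h1 : ∑ y ∈ S.erase g, w y * F y = 0 := by
    have : F g = ∑ y ∈ S.erase g, w y * F y := by
      have e : ∑ y ∈ S.erase g, w y * F y = ∑ y ∈ S.erase g, w y * f1 y - c * ∑ y ∈ S.erase g, w y := by
        rw [Finset.mul_sum, ← Finset.sum_sub_distrib]
        apply Finset.sum_congr rfl
        intro y _
        rw [hF]; ring
      rw [e, hw1, hF, mul_one]
      congr 1
      conv_lhs => rw [← hwg]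
      rw [map_sum]
      simp only [map_smul, smul_eq_mul]
    rw [← this, hFg]
  have h2 : ∀ y ∈ S.erase g, w y * F y = 0 := by
    have h3 : ∀ y ∈ S.erase g, w y * F y ≤ 0 := fun y hy =>
      mul_nonpos_of_nonneg_of_nonpos (hw0 y hy) (hle y (Finset.mem_of_mem_erase hy))
    exact (Finset.sum_eq_zero_iff_of_nonpos h3).1 h1
  have h4 : ∑ y ∈ S.erase g, w y * (f2 y - f2 g) = 0 := by
    have e : ∑ y ∈ S.erase g, w y * (f2 y - f2 g) =
        ∑ y ∈ S.erase g, w y * f2 y - f2 g * ∑ y ∈ S.erase g, w y := by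
      rw [Finset.mul_sum, ← Finset.sum_sub_distrib]
      apply Finset.sum_congr rfl
      intro y _
      ring
    rw [e, hw1, mul_one]
    have : f2 g = ∑ y ∈ S.erase g, w y * f2 y := by
      conv_lhs => rw [← hwg]
      rw [map_sum]
      simp only [map_smul, smul_eq_mul]
    linarith
  have h5 : ∀ y ∈ S.erase g, 0 ≤ w y * (f2 y - f2 g) := by
    intro y hy
    rcases mul_eq_zero.1 (h2 y hy) with h6 | h6
    · rw [h6, zero_mul]
    · exact mul_nonneg (hw0 y hy)
        (sub_pos.2 (hlt y (Finset.mem_of_mem_erase hy) (Finset.mem_erase.1 hy).1 h6)).le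
  have h7 := (Finset.sum_eq_zero_iff_of_nonneg h5).1 h4
  have h8 : ∀ y ∈ S.erase g, w y = 0 := by
    intro y hy
    rcases mul_eq_zero.1 (h2 y hy) with h6 | h6
    · exact h6
    · rcases mul_eq_zero.1 (h7 y hy) with h9 | h9
      · exact h9
      · have := hlt y (Finset.mem_of_mem_erase hy) (Finset.mem_erase.1 hy).1 h6
        linarith
  rw [Finset.sum_eq_zero h8] at hw1
  exact zero_ne_one hw1

/-- the left neighbour of `E` is between `O` and `E` -/
theorem Cfg.p_between (hc : Cfg Q O C E R s K) (h : Tp O C E R s S T p C)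
    (hm : MinT (PP Q O C E) S T) : ∃ t : ℝ, 0 < t ∧ t < 1 ∧ p = (1 - t) • O + t • E := by
  classical
  have hsub := hm.sub
  have hQ : Q ⊆ S := fun q hq => hsub (mem_PP.2 (Or.inl hq))
  obtain ⟨-, hbel⟩ := hc.edge_pC h
  obtain ⟨q0, hq0⟩ := hc.Qne
  have hpE := h.p_ne
  have hlowp := h.low p h.hp hpE
  have hA2 := hc.A2
  have hOE := hc.OE
  have hCE := hc.CE
  -- `p` is not `O`
  have hpO : p ≠ O := by
    rintro rfl
    have h1 := hbel q0 (hQ hq0) (hc.QE' hq0)
    have h2 := hc.QC q0 hq0
    linarith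
  have hpC : p ≠ C := h.hpr
  -- the points of the line
  obtain ⟨L, hL⟩ : ∃ L, L = S.filter (fun z => ar p E z = 0) := ⟨_, rfl⟩
  have hmemL : ∀ z, z ∈ L ↔ z ∈ S ∧ ar p E z = 0 := by
    intro z; rw [hL, Finset.mem_filter]
  have hpL : p ∈ L := (hmemL p).2 ⟨h.hp, ar_left _ _⟩
  obtain ⟨g, hg, hgmin⟩ := Finset.exists_min_image L (fun z => cy z) ⟨p, hpL⟩
  obtain ⟨hgS, hg0⟩ := (hmemL g).1 hg
  have hgp : cy g ≤ cy p := hgmin p hpL
  have hyd : cy p < cy E := by linarith
  -- parameters on the line
  have hpar : ∀ z, ar p E z = 0 → ∃ γ : ℝ, z = (1 - γ) • E + γ • p ∧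
      γ * (cy E - cy p) = cy E - cy z := by
    intro z hz
    have hz' : ar E p z = 0 := by rw [ar_swap, hz, neg_zero]
    obtain ⟨γ, hγ⟩ := par hpE.symm hz'
    refine ⟨γ, hγ, ?_⟩
    rw [hγ]
    simp only [map_add, map_smul, smul_eq_mul]
    ring
  have hdet : ∀ z z', ar p E z = 0 → ar p E z' = 0 → cy z = cy z' → z = z' := by
    intro z z' h1 h2 h3
    obtain ⟨γ, e1, e2⟩ := hpar z h1
    obtain ⟨γ', e1', e2'⟩ := hpar z' h2
    have : (γ - γ') * (cy E - cy p) = 0 := by
      rw [h3] at e2
      linarith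
    rcases mul_eq_zero.1 this with h4 | h4
    · have : γ = γ' := by linarith
      rw [e1, e1', this]
    · linarith
  have hext : g ∉ convexHull ℝ ((S : Set Plane) \ {g}) := by
    apply not_hull (F := fun z => ar p E z) (f1 := (cx E - cx p) • cy - (cy E - cy p) • cx)
      (f2 := cy) (c := (cx E - cx p) * cy p - (cy E - cy p) * cx p)
    · intro z
      simp only [ar_def, LinearMap.sub_apply, LinearMap.smul_apply, smul_eq_mul]
      ring
    · exact hg0
    · exact h.left
    · intro z hz hzg hz0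
      have h1 : cy g ≤ cy z := hgmin z ((hmemL z).2 ⟨hz, hz0⟩)
      rcases eq_or_lt_of_le h1 with h2 | h2
      · exact absurd (hdet z g hz0 hg0 h2.symm) hzg
      · exact h2
  have hPne : (PP Q O C E).Nonempty := ⟨O, mem_PP.2 (Or.inr (Or.inl rfl))⟩
  have hgP : g ∈ PP Q O C E := by
    by_contra hgP
    exact hext (hm.extreme hPne hgS hgP)
  obtain ⟨γ, hγ, hγy⟩ := hpar g hg0
  have hγ1 : 1 ≤ γ := by
    by_contra hcon
    push Not at hcon
    have : γ * (cy E - cy p) < 1 * (cy E - cy p) := mul_lt_mul_of_pos_right hcon (by linarith)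
    linarith
  have hgside : ∀ z ∈ S, ar g E z ≤ 0 := by
    intro z hz
    have h1 : ar g E z = γ * ar p E z := by
      rw [hγ, ar_aff1, ar_same]; ring
    rw [h1]
    exact mul_nonpos_of_nonneg_of_nonpos (by linarith) (h.left z hz)
  have hgO : g = O := by
    rcases mem_PP.1 hgP with h1 | h1 | h1 | h1
    · exfalso
      have h2 := hgside O h.hO
      have h3 := hc.QE g h1
      have h4 : ar g E O = - ar O E g := by simp only [ar_def]; ring
      linarith
    · exact h1
    · exfalso
      have h2 := hgside O h.hO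
      rw [h1] at h2
      have h3 := hc.G
      have h4 : ar C E O = ar O C E := by simp only [ar_def]; ring
      linarith
    · exfalso
      rw [h1] at hgp
      linarith
  rw [hgO] at hγ hγy
  have hγ2 : 1 < γ := by
    rcases eq_or_lt_of_le hγ1 with h1 | h1
    · exfalso
      apply hpO
      rw [hγ, ← h1]; simp
    · exact h1
  have hγ0 : γ ≠ 0 := by linarith
  refine ⟨1 - γ⁻¹, ?_, ?_, ?_⟩
  · have : γ⁻¹ < 1 := inv_lt_one_of_one_lt₀ hγ2
    linarith
  · have : 0 < γ⁻¹ := inv_pos.2 (by linarith)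
    linarith
  · have e1 : (1 - (1 - γ⁻¹)) • O = γ⁻¹ • O := by congr 1; ring
    have e2 : γ⁻¹ • O = (γ⁻¹ * (1 - γ)) • E + (γ⁻¹ * γ) • p := by
      conv_lhs => rw [hγ]
      module
    have e3 : γ⁻¹ * γ = 1 := inv_mul_cancel₀ hγ0
    have e4 : γ⁻¹ * (1 - γ) = γ⁻¹ - 1 := by linear_combination -e3
    rw [e1, e2, e3, e4]
    module

theorem inner_eq (a b : Plane) : inner ℝ a b = cx a * cx b + cy a * cy b := by
  rw [PiLp.inner_apply, Fin.sum_univ_two]
  simp only [RCLike.inner_apply, conj_trivial]
  rw [cx_apply, cx_apply, cy_apply, cy_apply]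
  ring

/-- there is no Steiner triangulation of minimum weight -/
theorem Cfg.no_min (hc : Cfg Q O C E R s K) (hm : MinT (PP Q O C E) S T)
    (hw : weight T ≤ (cy E - cy O) + (cy E - cy C) + K) : False := by
  classical
  have hsub := hm.sub
  have hQ : Q ⊆ S := fun q hq => hsub (mem_PP.2 (Or.inl hq))
  have hO : O ∈ S := hsub (mem_PP.2 (Or.inr (Or.inl rfl)))
  have hC : C ∈ S := hsub (mem_PP.2 (Or.inr (Or.inr (Or.inl rfl))))
  have hE : E ∈ S := hsub (mem_PP.2 (Or.inr (Or.inr (Or.inr rfl))))
  obtain ⟨p, r, h⟩ := hc.top hm.tri hO hC hE hw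
  have hr := hc.r_eq h hQ hw
  subst hr
  obtain ⟨hpC, hbel⟩ := hc.edge_pC h
  obtain ⟨t, ht0, ht1, hpt⟩ := hc.p_between h hm
  have hOE := hc.OE
  have hCE := hc.CE
  have hG := hc.G
  have hpE := h.p_ne
  have hrE : r ≠ E := h.r_ne
  have hOpos : 0 < cy E - cy O := by linarith
  have hpy : cy p = cy O + t * (cy E - cy O) := by
    rw [hpt]; simp only [map_add, map_smul, smul_eq_mul]; ring
  have hpyO : cy O < cy p := by
    rw [hpy]; nlinarith
  have hpyE : cy p < cy E := by
    rw [hpy]; nlinarith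
  have hpO : O ≠ p := by rintro rfl; exact lt_irrefl _ hpyO
  -- lines
  have hOline : ar p E O = 0 := by
    rw [hpt, ar_aff1, ar_left, ar_same]; ring
  -- `p` is a Steiner point
  have hpP : p ∉ PP Q O r E := by
    intro hp
    rcases mem_PP.1 hp with h1 | h1 | h1 | h1
    · have h2 := hc.QE p h1
      have h3 : ar O E p = 0 := by rw [hpt, ar_aff, ar_left, ar_right]; ring
      linarith
    · exact hpO h1.symm
    · exact h.hpr h1
    · exact hpE h1
  -- the next point below `p`
  obtain ⟨L, hL⟩ : ∃ L, L = S.filter (fun z => ar p E z = 0 ∧ cy z < cy p) := ⟨_, rfl⟩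
  have hmemL : ∀ z, z ∈ L ↔ z ∈ S ∧ ar p E z = 0 ∧ cy z < cy p := by
    intro z; rw [hL, Finset.mem_filter]
  obtain ⟨g, hg, hgmax⟩ := Finset.exists_max_image L (fun z => cy z)
    ⟨O, (hmemL O).2 ⟨hO, hOline, hpyO⟩⟩
  obtain ⟨hgS, hg0, hgp⟩ := (hmemL g).1 hg
  have hgne : p ≠ g := by rintro rfl; exact lt_irrefl _ hgp
  -- parameters on the line
  have hpar : ∀ z, ar p E z = 0 → ∃ γ : ℝ, z = (1 - γ) • p + γ • O ∧
      γ * (cy p - cy O) = cy p - cy z := by
    intro z hz
    have hz' : ar p O z = 0 := by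
      obtain ⟨γ, e⟩ := par hpE hz
      rw [e, ar_aff, ar_left, ← ar_cycle]
      rw [ar_swap] at hOline
      have e2 : ar p O E = - ar p E O := by simp only [ar_def]; ring
      have e3 : ar O E p = ar p O E := by simp only [ar_def]; ring
      have e4 : ar p E O = 0 := by
        rw [hpt, ar_aff1, ar_left, ar_same]; ring
      rw [e3, e2, e4]; ring
    obtain ⟨γ, hγ⟩ := par hpO.symm hz'
    refine ⟨γ, hγ, ?_⟩
    rw [hγ]
    simp only [map_add, map_smul, smul_eq_mul]
    ring
  have hOp : 0 < cy p - cy O := by linarith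
  obtain ⟨γ, hγ, hγy⟩ := hpar g hg0
  have hγ0 : 0 < γ := by
    by_contra hcon
    push Not at hcon
    have : γ * (cy p - cy O) ≤ 0 := mul_nonpos_of_nonpos_of_nonneg hcon hOp.le
    linarith
  -- the edge gp
  have hside : ∀ z ∈ S, 0 ≤ ar p g z := by
    intro z hz
    have e1 : ar p O z = - (t / (1 - t)) * ar p E z := by
      have h1t : (1 - t) ≠ 0 := by linarith
      have e2 : (1 - t) * ar p O z = - (t * ar p E z) := by
        have : ar p p z = (1 - t) * ar p O z + t * ar p E z := by
          have h3 : ar p p z = - ar p z p := by simp only [ar_def]; ring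
          have h4 : ar p O z = - ar p z O := by simp only [ar_def]; ring
          have h5 : ar p E z = - ar p z E := by simp only [ar_def]; ring
          rw [h3, h4, h5]
          nth_rewrite 2 [hpt]
          rw [ar_aff]; ring
        rw [ar_same] at this
        linarith
      field_simp
      linarith
    have e2 : ar p g z = γ * ar p O z := by
      have h3 : ar p g z = - ar p z g := by simp only [ar_def]; ring
      have h4 : ar p O z = - ar p z O := by simp only [ar_def]; ring
      rw [h3, h4, hγ, ar_aff, ar_left]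
      ring
    have h1 := h.left z hz
    have h2 : 0 ≤ t / (1 - t) := div_nonneg ht0.le (by linarith)
    rw [e2, e1]
    have : 0 ≤ (t / (1 - t)) * (- ar p E z) := mul_nonneg h2 (by linarith)
    have := mul_nonneg hγ0.le this
    linarith
  have hfreeg : ∀ z ∈ S, z ∈ segment ℝ p g → z = p ∨ z = g := by
    intro z hz hzs
    obtain ⟨u, u0, u1, hu⟩ := (mem_segment_iff _ _ _).1 hzs
    rcases eq_or_lt_of_le u0 with h1 | h1
    · left; rw [hu, ← h1]; simp
    rcases eq_or_lt_of_le u1 with h2 | h2
    · right; rw [hu, h2]; simp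
    exfalso
    have e1 : ar p E z = 0 := by rw [hu, ar_aff, ar_left, hg0]; ring
    have e2 : cy z = cy p - u * (cy p - cy g) := by
      rw [hu]; simp only [map_add, map_smul, smul_eq_mul]; ring
    have e3 : 0 < u * (cy p - cy g) := mul_pos h1 (by linarith)
    have e4 : u * (cy p - cy g) < 1 * (cy p - cy g) := mul_lt_mul_of_pos_right h2 (by linarith)
    have h3 : cy z ≤ cy g := hgmax z ((hmemL z).2 ⟨hz, e1, by linarith⟩)
    linarith
  have hpg : s(p, g) ∈ T := hull_mem hm.tri h.hp hgS hgne hside hfreeg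
  -- the movement
  have hmove := hm.move hpP (x0 := O) (subset_convexHull ℝ _ hO) (by
    intro a ha b hb hab hap hbp hs
    obtain ⟨u, u0, u1, hu⟩ := inner_param hs hap.symm hbp.symm
    have h1 := h.left a ha
    have h2 := h.left b hb
    have h3 : ar p E p = (1 - u) * ar p E a + u * ar p E b := by
      conv_lhs => rw [show ar p E p = ar p E ((1 - u) • a + u • b) from by rw [← hu]]
      rw [ar_aff]
    rw [ar_left] at h3
    have h4 : ar p E a = 0 := by
      by_contra hne
      have : ar p E a < 0 := lt_of_le_of_ne h1 hne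
      have : (1 - u) * ar p E a < 0 := mul_neg_of_pos_of_neg (by linarith) this
      have : u * ar p E b ≤ 0 := mul_nonpos_of_nonneg_of_nonpos u0.le h2
      linarith
    have h5 : ar p E b = 0 := by
      have : u * ar p E b = 0 := by rw [h4] at h3; linarith
      rcases mul_eq_zero.1 this with h6 | h6
      · linarith
      · exact h6
    obtain ⟨α, ea, _⟩ := hpar a h4
    obtain ⟨β, eb, _⟩ := hpar b h5
    rw [ea, eb]
    simp only [ar_def, map_add, map_smul, smul_eq_mul]
    ring)
  -- the lengths decrease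
  have hpos : ∀ q ∈ S, q ≠ p → q ≠ E → 0 < inner ℝ (O - p) (q - p) := by
    intro q hq hqp hqE
    have h1 := h.left q hq
    have h2 := hbel q hq hqE
    -- coordinates
    have gpos : 0 < ar p O r := by
      have : ar p O r = t * ar O r E := by
        rw [hpt]; simp only [ar_def, map_add, map_smul, smul_eq_mul]; ring
      rw [this]; positivity
    have b1 : 0 ≤ ar p O q := by
      have e2 : (1 - t) * ar p O q = - (t * ar p E q) := by
        rw [hpt]; simp only [ar_def, map_add, map_smul, smul_eq_mul]; ring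
      have e3 : 0 ≤ -(t * ar p E q) := by
        have := mul_nonpos_of_nonneg_of_nonpos ht0.le h1
        linarith
      rw [← e2] at e3
      by_contra hcon
      push Not at hcon
      have := mul_neg_of_pos_of_neg (show 0 < 1 - t by linarith) hcon
      linarith
    have a1 : 0 ≤ ar p q r := by
      have : ar p q r = - ar p r q := by simp only [ar_def]; ring
      rw [this]; linarith
    -- G' (q - p) = (ar p q r) (O - p) + (ar p O q) (r - p)
    have ex : ar p O r * (cx q - cx p) = ar p q r * (cx O - cx p) + ar p O q * (cx r - cx p) := by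
      simp only [ar_def]; ring
    have ey : ar p O r * (cy q - cy p) = ar p q r * (cy O - cy p) + ar p O q * (cy r - cy p) := by
      simp only [ar_def]; ring
    obtain ⟨N, hN⟩ : ∃ N, N = (cx O - cx p) ^ 2 + (cy O - cy p) ^ 2 := ⟨_, rfl⟩
    have hNpos : 0 < N := by
      rw [hN]
      have : 0 < (cy O - cy p) ^ 2 := by
        apply sq_pos_of_ne_zero
        linarith
      have : 0 ≤ (cx O - cx p) ^ 2 := sq_nonneg _
      linarith
    obtain ⟨M, hM⟩ : ∃ M, M = (cx O - cx p) * (cx r - cx p) + (cy O - cy p) * (cy r - cy p) :=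
      ⟨_, rfl⟩
    have hMpos : 0 < M := by
      have e1 : M = N + (cx O - cx p) * (cx r - cx O) + (cy O - cy p) * (cy r - cy O) := by
        rw [hM, hN]; ring
      have e2 : cx O - cx p = - (t * (cx E - cx O)) := by
        rw [hpt]; simp only [map_add, map_smul, smul_eq_mul]; ring
      have e3 : cy O - cy p = - (t * (cy E - cy O)) := by linarith
      have e4 : (cx O - cx p) * (cx r - cx O) + (cy O - cy p) * (cy r - cy O) =
        - (t * ((cx r - cx O) * (cx E - cx O) + (cy r - cy O) * (cy E - cy O))) := by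
        rw [e2, e3]; ring
      have e5 := mul_nonpos_of_nonneg_of_nonpos ht0.le hc.ang
      linarith
    have key : ar p O r * inner ℝ (O - p) (q - p) = ar p q r * N + ar p O q * M := by
      rw [inner_eq]
      simp only [map_sub]
      rw [hN, hM]
      linear_combination (cx O - cx p) * ex + (cy O - cy p) * ey
    have hne : 0 < ar p q r ∨ 0 < ar p O q := by
      by_contra hcon
      push Not at hcon
      have c1 : ar p q r = 0 := le_antisymm hcon.1 a1
      have c2 : ar p O q = 0 := le_antisymm hcon.2 b1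
      apply hqp
      apply plane_ext
      · have : ar p O r * (cx q - cx p) = 0 := by rw [ex, c1, c2]; ring
        rcases mul_eq_zero.1 this with h3 | h3
        · linarith
        · linarith
      · have : ar p O r * (cy q - cy p) = 0 := by rw [ey, c1, c2]; ring
        rcases mul_eq_zero.1 this with h3 | h3
        · linarith
        · linarith
    have : 0 < ar p O r * inner ℝ (O - p) (q - p) := by
      rw [key]
      rcases hne with h3 | h3
      · have := mul_pos h3 hNpos
        have := mul_nonneg b1 hMpos.le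
        linarith
      · have := mul_pos h3 hMpos
        have := mul_nonneg a1 hNpos.le
        linarith
    exact (pos_iff_pos_of_mul_pos this).1 gpos
  have hev : ∀ᶠ δ in 𝓝[>] (0 : ℝ), ∀ q ∈ S, q ≠ p → q ≠ E → dist (vd p O δ) q < dist p q := by
    rw [Filter.eventually_all_finset]
    intro q hq
    by_cases hqp : q = p
    · exact Eventually.of_forall fun δ h' => absurd hqp h'
    by_cases hqE : q = E
    · exact Eventually.of_forall fun δ _ h' => absurd hqE h'
    · filter_upwards [dist_dec (hpos q hq hqp hqE)] with δ hδ _ _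
      exact hδ
  obtain ⟨δ, ⟨⟨hδ1, hδ2⟩, hδ3⟩, hδ4⟩ := (((hmove.and hev).and (small 1 hγ0)).and
    self_mem_nhdsWithin).exists
  have hδ0 : (0 : ℝ) < δ := hδ4
  rw [mul_one] at hδ3
  obtain ⟨φ, hφ⟩ : ∃ φ : Plane → Plane, φ = mv p (vd p O δ) := ⟨_, rfl⟩
  rw [← hφ] at hδ1
  have hφp : φ p = vd p O δ := by rw [hφ, mv_self]
  have hφq : ∀ q, q ≠ p → φ q = q := fun q hq => by rw [hφ, mv_ne hq]
  -- exact changes
  have hcE : len (Sym2.map φ s(p, E)) = len s(p, E) + δ * dist p O := by
    rw [Sym2.map_mk, len_mk, len_mk, hφp, hφq E hpE.symm]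
    obtain ⟨k, hk⟩ : ∃ k, k = t⁻¹ := ⟨_, rfl⟩
    have e0 : p - O = t • (E - O) := by rw [hpt]; module
    have e0' : p - E = (-(1 - t)) • (E - O) := by rw [hpt]; module
    have e1 : vd p O δ - E = (-(1 - t + δ * t)) • (E - O) := by
      have : vd p O δ - E = (p - E) - δ • (p - O) := by rw [vd]; module
      rw [this, e0, e0']; module
    rw [dist_eq_norm, dist_eq_norm, dist_eq_norm, e1, e0, e0', norm_smul, norm_smul, norm_smul]
    simp only [Real.norm_eq_abs, abs_neg]
    rw [abs_of_pos (show 0 < 1 - t + δ * t by nlinarith), abs_of_pos (show 0 < 1 - t by linarith),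
      abs_of_pos ht0]
    ring
  have hcg : len (Sym2.map φ s(p, g)) = len s(p, g) - δ * dist p O := by
    rw [Sym2.map_mk, len_mk, len_mk, hφp, hφq g hgne.symm]
    have e1 : vd p O δ - g = (γ - δ) • (p - O) := by
      rw [vd, hγ]; module
    have e2 : p - g = γ • (p - O) := by
      conv_lhs => rw [hγ]
      module
    rw [dist_eq_norm, dist_eq_norm, dist_eq_norm, e1, e2, norm_smul, norm_smul,
      Real.norm_of_nonneg (by linarith), Real.norm_of_nonneg hγ0.le]
    ring
  have hle : ∀ e ∈ T, e ≠ s(p, E) → len (Sym2.map φ e) ≤ len e := by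
    intro e he hne
    by_cases hpe : p ∈ e
    · obtain ⟨q, rfl⟩ := Sym2.mem_iff_exists.1 hpe
      have hq : q ∈ S := h.tri.1.ends _ he q (Sym2.mem_mk_right _ _)
      have hqp : q ≠ p := (ne_of_mem h.tri.1 he).symm
      have hqE : q ≠ E := by rintro rfl; exact hne rfl
      rw [Sym2.map_mk, len_mk, len_mk, hφp, hφq q hqp]
      exact (hδ2 q hq hqp hqE).le
    · rw [hφ, map_fix hpe]
  -- the sum
  have h1 : s(p, E) ∈ T := h.hpT
  have h2 : s(p, g) ∈ T.erase s(p, E) := by
    rw [Finset.mem_erase]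
    refine ⟨?_, hpg⟩
    intro he
    rcases Sym2.eq_iff.1 he with ⟨_, h3⟩ | ⟨h3, _⟩
    · rw [h3] at hgp
      linarith
    · exact hpE h3
  have h3 : s(p, r) ∈ (T.erase s(p, E)).erase s(p, g) := by
    rw [Finset.mem_erase, Finset.mem_erase]
    refine ⟨?_, ?_, hpC⟩
    · intro he
      rcases Sym2.eq_iff.1 he with ⟨_, h3⟩ | ⟨h3, _⟩
      · -- `r = g` would be on the line
        have e1 : ar p E r = 0 := by rw [h3]; exact hg0
        have e2 : ar p E r = - ((1 - t) * ar O r E) := by
          rw [hpt]; simp only [ar_def, map_add, map_smul, smul_eq_mul]; ring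
        have := mul_pos (show 0 < 1 - t by linarith) hG
        linarith
      · exact hgne h3
    · intro he
      rcases Sym2.eq_iff.1 he with ⟨_, h3⟩ | ⟨h3, _⟩
      · exact hrE h3
      · exact hpE h3
  have hsum : ∑ e ∈ (T.erase s(p, E)).erase s(p, g), len (Sym2.map φ e) <
      ∑ e ∈ (T.erase s(p, E)).erase s(p, g), len e := by
    apply Finset.sum_lt_sum
    · intro e he
      rw [Finset.mem_erase, Finset.mem_erase] at he
      exact hle e he.2.2 he.2.1
    · refine ⟨_, h3, ?_⟩
      rw [Sym2.map_mk, len_mk, len_mk, hφp, hφq r (Ne.symm h.hpr)]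
      exact hδ2 r hC (Ne.symm h.hpr) hrE
  have s1 := Finset.add_sum_erase T (fun e => len e) h1
  have s2 := Finset.add_sum_erase (T.erase s(p, E)) (fun e => len e) h2
  have s3 := Finset.add_sum_erase T (fun e => len (Sym2.map φ e)) h1
  have s4 := Finset.add_sum_erase (T.erase s(p, E)) (fun e => len (Sym2.map φ e)) h2
  rw [hcE] at s3
  rw [hcg] at s4
  linarith

end Pool.Agent.Y571.ST
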