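import Mathlib
import Pool.Agent.Y571.ST.Ins

/-!
# Sets of at most three points have a Steiner triangulation of minimum weight
-/

set_option autoImplicit false

open Pool.Agent.H695R2.Steiner Filter Topology

namespace Pool.Agent.Y571.ST

/-- the coordinate along `ab` -/
noncomputable def ua (a b : Plane) : Plane →ₗ[ℝ] ℝ :=
  ((cx b - cx a) / dist a b) • cx + ((cy b - cy a) / dist a b) • cy

/-- the coordinate orthogonal to `ab` -/
noncomputable def va (a b : Plane) : Plane →ₗ[ℝ] ℝ :=
  (-((cy b - cy a) / dist a b)) • cx + ((cx b - cx a) / dist a b) • cy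

theorem cs_sq {a b : Plane} (hab : a ≠ b) :
    ((cx b - cx a) / dist a b) ^ 2 + ((cy b - cy a) / dist a b) ^ 2 = 1 := by
  have h0 : 0 < dist a b := dist_pos.2 hab
  have h1 : dist a b ^ 2 = (cx b - cx a) ^ 2 + (cy b - cy a) ^ 2 := by
    rw [dist_eq', Real.sq_sqrt (by positivity)]
    ring
  rw [div_pow, div_pow, ← add_div, ← h1]
  field_simp

theorem ua_apply (a b z : Plane) : ua a b z =
    (cx b - cx a) / dist a b * cx z + (cy b - cy a) / dist a b * cy z := rfl
theorem va_apply (a b z : Plane) : va a b z =
    -((cy b - cy a) / dist a b) * cx z + (cx b - cx a) / dist a b * cy z := rfl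

theorem ua_sep {a b : Plane} (hab : a ≠ b) : Sep (ua a b) (va a b) := by
  intro p q h1 h2
  have h := cs_sq hab
  rw [ua_apply, ua_apply] at h1
  rw [va_apply, va_apply] at h2
  obtain ⟨c, hc⟩ : ∃ c, c = (cx b - cx a) / dist a b := ⟨_, rfl⟩
  obtain ⟨s, hs⟩ : ∃ s, s = (cy b - cy a) / dist a b := ⟨_, rfl⟩
  rw [← hc, ← hs] at h h1 h2
  apply plane_ext
  · linear_combination c * h1 - s * h2 - (cx p - cx q) * h
  · linear_combination s * h1 + c * h2 - (cy p - cy q) * h

theorem ua_lip {a b : Plane} (hab : a ≠ b) (p q : Plane) : |ua a b p - ua a b q| ≤ dist p q := by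
  have h := cs_sq hab
  rw [ua_apply, ua_apply]
  obtain ⟨c, hc⟩ : ∃ c, c = (cx b - cx a) / dist a b := ⟨_, rfl⟩
  obtain ⟨s, hs⟩ : ∃ s, s = (cy b - cy a) / dist a b := ⟨_, rfl⟩
  rw [← hc, ← hs] at h ⊢
  rw [dist_eq']
  apply Real.abs_le_sqrt
  have e : (cx p - cx q) ^ 2 + (cy p - cy q) ^ 2 =
    (c * cx p + s * cy p - (c * cx q + s * cy q)) ^ 2 +
    (s * (cx p - cx q) - c * (cy p - cy q)) ^ 2 := by
    linear_combination (-((cx p - cx q) ^ 2 + (cy p - cy q) ^ 2)) * h
  rw [e]
  have := sq_nonneg (s * (cx p - cx q) - c * (cy p - cy q))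
  linarith

theorem ua_diff {a b : Plane} (hab : a ≠ b) : ua a b b - ua a b a = dist a b := by
  have h0 : 0 < dist a b := dist_pos.2 hab
  have h1 : dist a b ^ 2 = (cx b - cx a) ^ 2 + (cy b - cy a) ^ 2 := by
    rw [dist_eq', Real.sq_sqrt (by positivity)]
    ring
  rw [ua_apply, ua_apply]
  field_simp
  rw [h1]
  ring

theorem va_diff (a b : Plane) : va a b b = va a b a := by
  rw [va_apply, va_apply]
  ring

theorem D_ua {a b : Plane} (hab : a ≠ b) (p q z : Plane) :
    D (ua a b) (va a b) p q z = ar p q z := by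
  have h := cs_sq hab
  simp only [D, ua_apply, va_apply, ar_def]
  obtain ⟨c, hc⟩ : ∃ c, c = (cx b - cx a) / dist a b := ⟨_, rfl⟩
  obtain ⟨s, hs⟩ : ∃ s, s = (cy b - cy a) / dist a b := ⟨_, rfl⟩
  rw [← hc, ← hs] at h ⊢
  linear_combination ((cx q - cx p) * (cy z - cy p) - (cy q - cy p) * (cx z - cx p)) * h

/-- the region outside of the side `ab` -/
def Rg (a b : Plane) : Set Plane := {z | ua a b a < ua a b z} ∩ {z | ua a b z < ua a b b} ∩
  {z | va a b z ≤ va a b a}

theorem Rg_convex (a b : Plane) : Convex ℝ (Rg a b) :=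
  ((convex_halfSpace_gt (ua a b).isLinear _).inter (convex_halfSpace_lt (ua a b).isLinear _)).inter
    (convex_halfSpace_le (va a b).isLinear _)

open Classical in
/-- the number of crossings outside of the side `ab` -/
theorem count_Rg {S : Finset Plane} {T : Finset (Sym2 Plane)} (hT : IsTriangulation S T)
    {a b : Plane} (ha : a ∈ S) (hb : b ∈ S) (hab : a ≠ b) {t : ℝ} (h1 : ua a b a < t)
    (h2 : t < ua a b b) (hgen : ∀ z ∈ S, ua a b z ≠ t) :
    1 ≤ (T.filter (fun e => t ∈ img (ua a b) (Rg a b) e)).card := by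
  obtain ⟨p, hp, q, hq, k1, k2, k3, k4, k5⟩ := hull_edge (ua_sep hab) hT t hgen
    ⟨a, ha, h1⟩ ⟨b, hb, h2⟩
  obtain ⟨z, hz, hzt, hzp⟩ := cross_point (v := va a b) k1 k2
  rw [Finset.one_le_card]
  refine ⟨s(p, q), Finset.mem_filter.2 ⟨k3, z, hz, ⟨⟨?_, ?_⟩, ?_⟩, hzt⟩⟩
  · show ua a b a < ua a b z
    rw [hzt]; exact h1
  · show ua a b z < ua a b b
    rw [hzt]; exact h2
  · show va a b z ≤ va a b a
    have k6 := k5 a ha b hb h1 h2
    rw [← hzp] at k6
    refine k6.trans (le_of_eq ?_)
    rw [pos, va_diff]
    have : ua a b b - ua a b a ≠ 0 := by linarith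
    field_simp
    ring

/-- two outer regions at a vertex are disjoint -/
theorem Rg_disj {a b c : Plane} (h : 0 < ar a b c) : Disjoint (Rg a b) (Rg b c) := by
  rw [Set.disjoint_left]
  rintro z ⟨⟨-, h2⟩, h3⟩ ⟨⟨h4, -⟩, h6⟩
  have hab : a ≠ b := by
    rintro rfl
    rw [ar_same] at h; exact lt_irrefl _ h
  have hbc : b ≠ c := by
    rintro rfl
    rw [ar_right] at h; exact lt_irrefl _ h
  have h2' : ua a b z < ua a b b := h2
  have h3' : va a b z ≤ va a b a := h3
  have h4' : ua b c b < ua b c z := h4
  have h6' : va b c z ≤ va b c b := h6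
  have l1 : 0 < dist a b := dist_pos.2 hab
  have l2 : 0 < dist b c := dist_pos.2 hbc
  rw [ua_apply, ua_apply] at h2' h4'
  rw [va_apply, va_apply] at h3' h6'
  have e2 : (cx b - cx a) * (cx z - cx b) + (cy b - cy a) * (cy z - cy b) < 0 := by
    have : ((cx b - cx a) * (cx z - cx b) + (cy b - cy a) * (cy z - cy b)) / dist a b < 0 := by
      have e : ((cx b - cx a) * (cx z - cx b) + (cy b - cy a) * (cy z - cy b)) / dist a b =
        (cx b - cx a) / dist a b * cx z + (cy b - cy a) / dist a b * cy z -
        ((cx b - cx a) / dist a b * cx b + (cy b - cy a) / dist a b * cy b) := by ring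
      rw [e]; linarith
    rwa [div_lt_iff₀ l1, zero_mul] at this
  have e3 : ar a b z ≤ 0 := by
    have : ar a b z / dist a b ≤ 0 := by
      have e : ar a b z / dist a b =
        (-((cy b - cy a) / dist a b) * cx z + (cx b - cx a) / dist a b * cy z) -
        (-((cy b - cy a) / dist a b) * cx a + (cx b - cx a) / dist a b * cy a) := by
        rw [ar_def]; ring
      rw [e]; linarith
    rwa [div_le_iff₀ l1, zero_mul] at this
  have e4 : 0 < (cx c - cx b) * (cx z - cx b) + (cy c - cy b) * (cy z - cy b) := by
    have : 0 < ((cx c - cx b) * (cx z - cx b) + (cy c - cy b) * (cy z - cy b)) / dist b c := by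
      have e : ((cx c - cx b) * (cx z - cx b) + (cy c - cy b) * (cy z - cy b)) / dist b c =
        (cx c - cx b) / dist b c * cx z + (cy c - cy b) / dist b c * cy z -
        ((cx c - cx b) / dist b c * cx b + (cy c - cy b) / dist b c * cy b) := by ring
      rw [e]; linarith
    rwa [lt_div_iff₀ l2, zero_mul] at this
  have e6 : ar b c z ≤ 0 := by
    have : ar b c z / dist b c ≤ 0 := by
      have e : ar b c z / dist b c =
        (-((cy c - cy b) / dist b c) * cx z + (cx c - cx b) / dist b c * cy z) -
        (-((cy c - cy b) / dist b c) * cx b + (cx c - cx b) / dist b c * cy b) := by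
        rw [ar_def]; ring
      rw [e]; linarith
    rwa [div_le_iff₀ l2, zero_mul] at this
  obtain ⟨x, hx⟩ : ∃ x, x = cx z - cx b := ⟨_, rfl⟩
  obtain ⟨y, hy⟩ : ∃ y, y = cy z - cy b := ⟨_, rfl⟩
  rw [← hx, ← hy] at e2 e4
  have key : ar a b c * (x ^ 2 + y ^ 2) =
      ar a b z * ((cx c - cx b) * x + (cy c - cy b) * y) +
      (- ar b c z) * ((cx b - cx a) * x + (cy b - cy a) * y) := by
    rw [hx, hy]; simp only [ar_def]; ring
  have k1 : ar a b z * ((cx c - cx b) * x + (cy c - cy b) * y) ≤ 0 :=
    mul_nonpos_of_nonpos_of_nonneg e3 e4.le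
  have k2 : (- ar b c z) * ((cx b - cx a) * x + (cy b - cy a) * y) ≤ 0 :=
    mul_nonpos_of_nonneg_of_nonpos (by linarith) e2.le
  have k3 : x ^ 2 + y ^ 2 ≤ 0 := by
    by_contra hcon
    push Not at hcon
    have := mul_pos h hcon
    linarith
  have k4 : x = 0 := by nlinarith [sq_nonneg x, sq_nonneg y]
  have k5 : y = 0 := by nlinarith [sq_nonneg x, sq_nonneg y]
  rw [k4, k5] at e4
  simp at e4

/-- perimeter lower bound -/
theorem perim {S : Finset Plane} {T : Finset (Sym2 Plane)} (hT : IsTriangulation S T)
    {a b c : Plane} (ha : a ∈ S) (hb : b ∈ S) (hc : c ∈ S) (h : 0 < ar a b c) :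
    dist a b + dist b c + dist c a ≤ weight T := by
  classical
  have hab : a ≠ b := by
    rintro rfl
    rw [ar_same] at h; exact lt_irrefl _ h
  have hbc : b ≠ c := by
    rintro rfl
    rw [ar_right] at h; exact lt_irrefl _ h
  have hca : c ≠ a := by
    rintro rfl
    rw [ar_left] at h; exact lt_irrefl _ h
  have h' : 0 < ar b c a := by rw [ar_cycle]; exact h
  have h'' : 0 < ar c a b := by rw [ar_cycle]; exact h'
  have d1 := Rg_disj h
  have d2 := Rg_disj h'
  have d3 := Rg_disj h''
  have key := main_ineq T (![Rg a b, Rg b c, Rg c a] : Fin 3 → Set Plane)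
    (by
      intro i
      fin_cases i
      · exact Rg_convex a b
      · exact Rg_convex b c
      · exact Rg_convex c a)
    (by
      intro i j hij
      simp only [Function.onFun]
      fin_cases i <;> fin_cases j <;> simp at hij ⊢ <;>
        first
        | exact absurd rfl hij
        | exact d1
        | exact d2
        | exact d3
        | exact d1.symm
        | exact d2.symm
        | exact d3.symm)
    (![ua a b, ua b c, ua c a] : Fin 3 → (Plane →ₗ[ℝ] ℝ))
    (by
      intro i
      fin_cases i
      · exact ua_lip hab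
      · exact ua_lip hbc
      · exact ua_lip hca)
    (![ua a b a, ua b c b, ua c a c] : Fin 3 → ℝ) (![ua a b b, ua b c c, ua c a a] : Fin 3 → ℝ)
    (![1, 1, 1] : Fin 3 → ℕ)
    ((ua a b '' (S : Set Plane)) ∪ (ua b c '' (S : Set Plane)) ∪ (ua c a '' (S : Set Plane)))
    (((S.finite_toSet.image _).union (S.finite_toSet.image _)).union (S.finite_toSet.image _))
    (by
      intro i t h1 h2 h3
      fin_cases i
      · exact count_Rg hT ha hb hab h1 h2 fun z hz e => h3 (Or.inl (Or.inl ⟨z, hz, e⟩))
      · exact count_Rg hT hb hc hbc h1 h2 fun z hz e => h3 (Or.inl (Or.inr ⟨z, hz, e⟩))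
      · exact count_Rg hT hc ha hca h1 h2 fun z hz e => h3 (Or.inr ⟨z, hz, e⟩))
  simp only [Fin.sum_univ_three] at key
  simp only [Matrix.cons_val_zero, Matrix.cons_val_one, Matrix.cons_val_two, Matrix.head_cons,
    Matrix.tail_cons, Matrix.cons_val] at key
  rw [ua_diff hab, ua_diff hbc, ua_diff hca, max_eq_right dist_nonneg, max_eq_right dist_nonneg,
    max_eq_right dist_nonneg] at key
  push_cast at key
  unfold weight
  linarith

/-- distance lower bound -/
theorem dist_le_weight {S : Finset Plane} {T : Finset (Sym2 Plane)} (hT : IsTriangulation S T)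
    {a b : Plane} (ha : a ∈ S) (hb : b ∈ S) (hab : a ≠ b) : dist a b ≤ weight T := by
  classical
  have key := main_ineq T (![Rg a b] : Fin 1 → Set Plane)
    (by
      intro i
      fin_cases i
      exact Rg_convex a b)
    (by
      intro i j hij
      fin_cases i
      fin_cases j
      exact absurd rfl hij)
    (![ua a b] : Fin 1 → (Plane →ₗ[ℝ] ℝ))
    (by
      intro i
      fin_cases i
      exact ua_lip hab)
    (![ua a b a] : Fin 1 → ℝ) (![ua a b b] : Fin 1 → ℝ)
    (![1] : Fin 1 → ℕ)
    (ua a b '' (S : Set Plane))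
    (S.finite_toSet.image _)
    (by
      intro i t h1 h2 h3
      fin_cases i
      exact count_Rg hT ha hb hab h1 h2 fun z hz e => h3 ⟨z, hz, e⟩)
  simp only [Fin.sum_univ_one] at key
  simp only [Matrix.cons_val_zero, Matrix.cons_val] at key
  rw [ua_diff hab, max_eq_right dist_nonneg] at key
  push_cast at key
  unfold weight
  linarith

theorem weight_nonneg (T : Finset (Sym2 Plane)) : 0 ≤ weight T :=
  Finset.sum_nonneg fun e _ => len_nonneg e

/-- a triangulation of minimum weight attains the infimum -/
theorem attained {P : Finset Plane} {T : Finset (Sym2 Plane)} (hT : IsTriangulation P T)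
    (h : ∀ T', IsSteinerTriangulation P T' → weight T ≤ weight T') :
    ∃ T, IsSteinerTriangulation P T ∧ weight T = infWeight P := by
  have hS : IsSteinerTriangulation P T := ⟨P, Finset.Subset.refl _, hT⟩
  refine ⟨T, hS, le_antisymm ?_ ?_⟩
  · apply le_csInf
    · exact ⟨_, T, hS, rfl⟩
    · rintro w ⟨T', hT', rfl⟩
      exact h T' hT'
  · apply csInf_le
    · refine ⟨0, ?_⟩
      rintro w ⟨T', -, rfl⟩
      exact weight_nonneg T'
    · exact ⟨T, hS, rfl⟩

theorem weight_mono {T T' : Finset (Sym2 Plane)} (h : T ⊆ T') : weight T ≤ weight T' :=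
  Finset.sum_le_sum_of_subset_of_nonneg h fun e _ _ => len_nonneg e

theorem weight_one (e : Sym2 Plane) : weight {e} = len e := by
  unfold weight
  rw [Finset.sum_singleton]

/-- collinear triples -/
theorem three_col {a b c : Plane} (hab : a ≠ b) (hbc : b ≠ c) (hac : a ≠ c)
    (h : b ∈ segment ℝ a c) {P : Finset Plane} (hP : ∀ z, z ∈ P ↔ z = a ∨ z = b ∨ z = c) :
    ∃ T, IsSteinerTriangulation P T ∧ weight T = infWeight P := by
  classical
  obtain ⟨T, hT⟩ := exists_tri P
  apply attained hT
  rintro T' ⟨S, hPS, hT'⟩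
  have h1 : dist a c ≤ weight T' := dist_le_weight hT' (hPS ((hP a).2 (Or.inl rfl)))
    (hPS ((hP c).2 (Or.inr (Or.inr rfl)))) hac
  refine le_trans ?_ h1
  have hsub : T ⊆ {s(a, b), s(b, c)} := by
    intro e he
    rw [Finset.mem_insert, Finset.mem_singleton]
    induction e using Sym2.ind with
    | _ x y =>
      have hxy := ne_of_mem hT.1 he
      have hx := (hP x).1 (hT.1.ends _ he x (Sym2.mem_mk_left _ _))
      have hy := (hP y).1 (hT.1.ends _ he y (Sym2.mem_mk_right _ _))
      have hno : ∀ {x y : Plane}, s(x, y) ∈ T → ¬ (x = a ∧ y = c) := by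
        rintro x y hxy ⟨rfl, rfl⟩
        rcases free_of_mem hT.1 hxy b ((hP b).2 (Or.inr (Or.inl rfl))) h with h2 | h2
        · exact hab h2.symm
        · exact hbc h2
      have hno2 : ¬ (x = c ∧ y = a) := by
        rintro ⟨rfl, rfl⟩
        rw [Sym2.eq_swap] at he
        exact hno he ⟨rfl, rfl⟩
      have hno1 := hno he
      rcases hx with rfl | rfl | rfl <;> rcases hy with rfl | rfl | rfl
      · exact absurd rfl hxy
      · left; rfl
      · exact absurd ⟨rfl, rfl⟩ hno1
      · left; exact Sym2.eq_swap
      · exact absurd rfl hxy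
      · right; rfl
      · exact absurd ⟨rfl, rfl⟩ hno2
      · right; exact Sym2.eq_swap
      · exact absurd rfl hxy
  have h2 := weight_mono hsub
  have h3 := weight_insert_le s(a, b) {s(b, c)}
  rw [weight_one, len_mk, len_mk] at h3
  have h4 : dist a b + dist b c = dist a c := by
    rw [mem_segment_iff_wbtw] at h
    exact dist_add_dist_eq_iff.2 h
  linarith

/-- positively oriented triples -/
theorem three_pos {a b c : Plane} (h : 0 < ar a b c) {P : Finset Plane}
    (hP : ∀ z, z ∈ P ↔ z = a ∨ z = b ∨ z = c) :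
    ∃ T, IsSteinerTriangulation P T ∧ weight T = infWeight P := by
  classical
  obtain ⟨T, hT⟩ := exists_tri P
  apply attained hT
  rintro T' ⟨S, hPS, hT'⟩
  have h1 := perim hT' (hPS ((hP a).2 (Or.inl rfl))) (hPS ((hP b).2 (Or.inr (Or.inl rfl))))
    (hPS ((hP c).2 (Or.inr (Or.inr rfl)))) h
  refine le_trans ?_ h1
  have hsub : T ⊆ {s(a, b), s(b, c), s(c, a)} := by
    intro e he
    rw [Finset.mem_insert, Finset.mem_insert, Finset.mem_singleton]
    induction e using Sym2.ind with
    | _ x y =>
      have hxy := ne_of_mem hT.1 he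
      have hx := (hP x).1 (hT.1.ends _ he x (Sym2.mem_mk_left _ _))
      have hy := (hP y).1 (hT.1.ends _ he y (Sym2.mem_mk_right _ _))
      rcases hx with rfl | rfl | rfl <;> rcases hy with rfl | rfl | rfl
      · exact absurd rfl hxy
      · left; rfl
      · right; right; exact Sym2.eq_swap
      · left; exact Sym2.eq_swap
      · exact absurd rfl hxy
      · right; left; rfl
      · right; right; rfl
      · right; left; exact Sym2.eq_swap
      · exact absurd rfl hxy
  have h2 := weight_mono hsub
  have h3 := weight_insert_le s(a, b) {s(b, c), s(c, a)}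
  have h4 := weight_insert_le s(b, c) {s(c, a)}
  rw [weight_one, len_mk, len_mk] at h4
  rw [len_mk] at h3
  linarith

/-- sets of at most three points -/
theorem card_le_three (P : Finset Plane) (hP : P.card ≤ 3) :
    ∃ T, IsSteinerTriangulation P T ∧ weight T = infWeight P := by
  classical
  have hcases : P.card = 0 ∨ P.card = 1 ∨ P.card = 2 ∨ P.card = 3 := by omega
  rcases hcases with h | h | h | h
  · obtain ⟨T, hT⟩ := exists_tri P
    apply attained hT
    intro T' _
    have : T = ∅ := by
      rw [Finset.eq_empty_iff_forall_notMem]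
      intro e he
      have hP0 : P = ∅ := Finset.card_eq_zero.1 h
      induction e using Sym2.ind with
      | _ x y =>
        have := hT.1.ends _ he x (Sym2.mem_mk_left _ _)
        rw [hP0] at this
        simp at this
    rw [this]
    have : weight (∅ : Finset (Sym2 Plane)) = 0 := by simp [weight]
    rw [this]
    exact weight_nonneg T'
  · obtain ⟨a, ha⟩ := Finset.card_eq_one.1 h
    obtain ⟨T, hT⟩ := exists_tri P
    apply attained hT
    intro T' _
    have : T = ∅ := by
      rw [Finset.eq_empty_iff_forall_notMem]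
      intro e he
      induction e using Sym2.ind with
      | _ x y =>
        have hx := hT.1.ends _ he x (Sym2.mem_mk_left _ _)
        have hy := hT.1.ends _ he y (Sym2.mem_mk_right _ _)
        rw [ha, Finset.mem_singleton] at hx hy
        exact ne_of_mem hT.1 he (hx.trans hy.symm)
    rw [this]
    have : weight (∅ : Finset (Sym2 Plane)) = 0 := by simp [weight]
    rw [this]
    exact weight_nonneg T'
  · obtain ⟨a, b, hab, rfl⟩ := Finset.card_eq_two.1 h
    obtain ⟨T, hT⟩ := exists_tri {a, b}
    apply attained hT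
    rintro T' ⟨S, hPS, hT'⟩
    have h1 : dist a b ≤ weight T' := dist_le_weight hT' (hPS (by simp)) (hPS (by simp)) hab
    refine le_trans ?_ h1
    have hsub : T ⊆ {s(a, b)} := by
      intro e he
      rw [Finset.mem_singleton]
      induction e using Sym2.ind with
      | _ x y =>
        have hxy := ne_of_mem hT.1 he
        have hx := hT.1.ends _ he x (Sym2.mem_mk_left _ _)
        have hy := hT.1.ends _ he y (Sym2.mem_mk_right _ _)
        rw [Finset.mem_insert, Finset.mem_singleton] at hx hy
        rcases hx with rfl | rfl <;> rcases hy with rfl | rfl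
        · exact absurd rfl hxy
        · rfl
        · exact Sym2.eq_swap
        · exact absurd rfl hxy
    have h2 := weight_mono hsub
    rw [weight_one, len_mk] at h2
    exact h2
  · obtain ⟨a, b, c, hab, hac, hbc, hPe⟩ := Finset.card_eq_three.1 h
    have hP1 : ∀ z, z ∈ P ↔ z = a ∨ z = b ∨ z = c := by
      intro z
      rw [hPe, Finset.mem_insert, Finset.mem_insert, Finset.mem_singleton]
    rcases lt_trichotomy (ar a b c) 0 with h0 | h0 | h0
    · have h1 : 0 < ar a c b := by
        have : ar a c b = - ar a b c := by simp only [ar_def]; ring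
        rw [this]; linarith
      exact three_pos h1 fun z => by rw [hP1]; tauto
    · obtain ⟨γ, hγ⟩ := par hab h0
      rcases le_total γ 0 with h1 | h1
      · -- `a` between `c` and `b`
        have hseg : a ∈ segment ℝ c b := by
          rw [mem_segment_iff]
          have hden : 0 < 1 - γ := by linarith
          refine ⟨-γ / (1 - γ), div_nonneg (by linarith) hden.le, ?_, ?_⟩
          · rw [div_le_one hden]; linarith
          · obtain ⟨q, hq⟩ : ∃ q, q = -γ / (1 - γ) := ⟨_, rfl⟩
            have e : q * (1 - γ) = -γ := by rw [hq]; field_simp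
            rw [← hq, hγ]
            have e1 : (1 - q) • ((1 - γ) • a + γ • b) + q • b =
              (1 - γ - q * (1 - γ)) • a + (γ + (q * (1 - γ))) • b := by module
            rw [e1, e]
            module
        exact three_col (Ne.symm hac) hab (Ne.symm hbc) hseg fun z => by rw [hP1]; tauto
      · rcases le_total γ 1 with h2 | h2
        · -- `c` between
          have hseg : c ∈ segment ℝ a b := (mem_segment_iff _ _ _).2 ⟨γ, h1, h2, hγ⟩
          exact three_col hac (Ne.symm hbc) hab hseg fun z => by rw [hP1]; tauto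
        · -- `b` between
          have hseg : b ∈ segment ℝ a c := by
            rw [mem_segment_iff]
            have hγ0 : 0 < γ := by linarith
            refine ⟨1 / γ, by positivity, by rw [div_le_one hγ0]; exact h2, ?_⟩
            obtain ⟨q, hq⟩ : ∃ q, q = 1 / γ := ⟨_, rfl⟩
            have e : q * γ = 1 := by rw [hq]; field_simp
            rw [← hq, hγ]
            have e1 : (1 - q) • a + q • ((1 - γ) • a + γ • b) =
              (1 - q * γ) • a + (q * γ) • b := by module
            rw [e1, e]
            module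
          exact three_col hab hbc hac hseg fun z => by rw [hP1]
    · exact three_pos h0 hP1

end Pool.Agent.Y571.ST
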