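import Mathlib
import Pool.Agent.Y571.ST.Flat
import Pool.Agent.Y571.ST.Three

/-!
# Open sets of configurations without a Steiner triangulation of minimum weight
-/

set_option autoImplicit false

open Pool.Agent.H695R2.Steiner Filter Topology

namespace Pool.Agent.Y571.ST

/-- an open square -/
def Bx (a b : ℝ) : Set Plane := {z | |cx z - a| < 1 ∧ |cy z - b| < 1}

theorem Bx_open (a b : ℝ) : IsOpen (Bx a b) := by
  apply IsOpen.inter
  · exact isOpen_lt ((cx_cont.sub continuous_const).abs) continuous_const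
  · exact isOpen_lt ((cy_cont.sub continuous_const).abs) continuous_const

theorem Bx_nonempty (a b : ℝ) : (Bx a b).Nonempty := by
  refine ⟨!₂[a, b], ?_, ?_⟩
  · show |a - a| < 1
    simp
  · show |b - b| < 1
    simp

/-- the numerical verification -/
theorem cfg_of {R N L K s B H : ℝ} (hR : 1 ≤ R) (hN : 0 ≤ N) (hL : L = 2 * N + 1000 * R)
    (hK : K = 2 * L + 100 * R + N) (hs : s = 20 * R + K) (hB : B = L + s + 100 * R)
    (hH : H = 10 * B ^ 2) {Q : Finset Plane} (hQne : Q.Nonempty)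
    (hQ : ∀ q ∈ Q, |cx q| ≤ R ∧ |cy q| ≤ R) {O C E : Plane}
    (hO : O ∈ Bx (-4 * R) (-4 * R)) (hC : C ∈ Bx L (-4 * R - 4)) (hE : E ∈ Bx (-4 * R) H) :
    Cfg Q O C E R s K := by
  obtain ⟨o1, o2⟩ := hO
  obtain ⟨c1, c2⟩ := hC
  obtain ⟨e1, e2⟩ := hE
  rw [abs_lt] at o1 o2 c1 c2 e1 e2
  have hB1 : 1 ≤ B := by rw [hB, hs, hK, hL]; linarith
  have hBB : B ≤ B ^ 2 := by nlinarith
  have hL0 : 1000 ≤ L := by rw [hL]; linarith
  have hK0 : 0 ≤ K := by rw [hK]; linarith
  have hs0 : 0 < s := by rw [hs]; linarith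
  have hLB : L + 100 * R ≤ B := by rw [hB]; linarith
  have hsB : s + 100 * R ≤ B := by rw [hB]; linarith
  refine ⟨hQne, by linarith, by linarith, by linarith, by linarith, ?_, hK0, hs0, ?_, ?_, ?_, ?_, ?_,
    ?_, ?_, ?_, ?_⟩
  · intro q hq
    exact (abs_le.1 (hQ q hq).1).2
  · rw [hs]; linarith
  · -- A2
    rw [hH] at e2
    linarith
  · -- A3
    have h1 : (cx C - cx E) * (R + s - cy C) ≤ B * B :=
      mul_le_mul (by linarith) (by linarith) (by linarith) (by linarith)
    rw [hH] at e2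
    have : B * B = B ^ 2 := by ring
    linarith
  · -- A4
    rw [hK]; linarith
  · -- A5
    have h1 : (R + s - cy C) * (R + 1 - cx E) ≤ B * B :=
      mul_le_mul (by linarith) (by linarith) (by linarith) (by linarith)
    have h2 : (cy E - R - s) * 1 ≤ (cy E - R - s) * (cx C - R - 1) := by
      apply mul_le_mul_of_nonneg_left
      · linarith
      · rw [hH] at e2; linarith
    rw [hH] at e2
    have : B * B = B ^ 2 := by ring
    linarith
  · -- angle
    have h1 : (cx C - cx O) * (cx E - cx O) ≤ (cx C - cx O) * 2 :=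
      mul_le_mul_of_nonneg_left (by linarith) (by linarith)
    have h2 : (cy C - cy O) * (cy E - cy O) ≤ (-2) * (cy E - cy O) := by
      apply mul_le_mul_of_nonneg_right (by linarith)
      rw [hH] at e2; linarith
    rw [hH] at e2
    linarith
  · -- G
    rw [ar_def]
    have h1 : 0 < (cx C - cx O) * (cy E - cy O) - (cy C - cy O) * (cx E - cx O) := by
      have h2 : 1 * (cy E - cy O) ≤ (cx C - cx O) * (cy E - cy O) := by
        apply mul_le_mul_of_nonneg_right (by linarith)
        rw [hH] at e2; linarith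
      have h3 : (cy C - cy O) * (cx E - cx O) ≤ 12 := by
        have h8 : (-(cy C - cy O)) * (-(cx E - cx O)) ≤ (-(cy C - cy O)) * 2 :=
          mul_le_mul_of_nonneg_left (by linarith) (by linarith)
        have h9 : (cy C - cy O) * (cx E - cx O) = (-(cy C - cy O)) * (-(cx E - cx O)) := by ring
        linarith
      rw [hH] at e2
      linarith
    exact h1
  · -- above OC
    intro q hq
    obtain ⟨q1, q2⟩ := hQ q hq
    rw [abs_le] at q1 q2
    rw [ar_def]
    have h1 : 0 < (cx C - cx O) * (cy q - cy O) := mul_pos (by linarith) (by linarith)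
    have h2 : (cy C - cy O) * (cx q - cx O) < 0 :=
      mul_neg_of_neg_of_pos (by linarith) (by linarith)
    linarith
  · -- right of OE
    intro q hq
    obtain ⟨q1, q2⟩ := hQ q hq
    rw [abs_le] at q1 q2
    rw [ar_def]
    have h1 : (cx E - cx O) * (cy q - cy O) ≤ 2 * (cy q - cy O) :=
      mul_le_mul_of_nonneg_right (by linarith) (by linarith)
    have h2 : (cy E - cy O) * 1 ≤ (cy E - cy O) * (cx q - cx O) := by
      apply mul_le_mul_of_nonneg_left (by linarith)
      rw [hH] at e2; linarith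
    rw [hH] at e2
    linarith

theorem dist_le_abs (a b : Plane) : dist a b ≤ |cx a - cx b| + |cy a - cy b| := by
  rw [dist_eq']
  apply Real.sqrt_le_iff.2
  refine ⟨by positivity, ?_⟩
  have h1 := abs_nonneg (cx a - cx b)
  have h2 := abs_nonneg (cy a - cy b)
  nlinarith [sq_abs (cx a - cx b), sq_abs (cy a - cy b)]

/-- the upper bound -/
theorem upper_of {R N L K s B H : ℝ} (n : ℕ) (hR : 1 ≤ R)
    (hN : N = ((n : ℝ) + 3) * ((n : ℝ) + 4) * (200 * R)) (hL : L = 2 * N + 1000 * R)
    (hK : K = 2 * L + 100 * R + N) (hs : s = 20 * R + K) (hB : B = L + s + 100 * R)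
    (hH : H = 10 * B ^ 2) {Q : Finset Plane} (hn : Q.card ≤ n)
    (hQ : ∀ q ∈ Q, |cx q| ≤ R ∧ |cy q| ≤ R) {O C E : Plane}
    (hc : Cfg Q O C E R s K)
    (hO : O ∈ Bx (-4 * R) (-4 * R)) (hC : C ∈ Bx L (-4 * R - 4)) (hE : E ∈ Bx (-4 * R) H) :
    ∃ T, IsSteinerTriangulation (PP Q O C E) T ∧
      weight T ≤ (cy E - cy O) + (cy E - cy C) + K := by
  obtain ⟨o1, o2⟩ := hO
  obtain ⟨c1, c2⟩ := hC
  obtain ⟨e1, e2⟩ := hE
  rw [abs_lt] at o1 o2 c1 c2 e1 e2
  have hN0 : 0 ≤ N := by rw [hN]; positivity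
  have hB1 : 1 ≤ B := by rw [hB, hs, hK, hL]; linarith
  have hBB : B ≤ B ^ 2 := by nlinarith
  have hL0 : 1000 * R ≤ L := by rw [hL]; linarith
  have hLB : L + 100 * R ≤ B := by rw [hB, hs, hK]; linarith
  have hHB : B ≤ H := by rw [hH]; linarith
  -- a = horizontal size, b = vertical size
  obtain ⟨a, ha⟩ : ∃ a, a = cx C - cx O := ⟨_, rfl⟩
  obtain ⟨b, hb⟩ : ∃ b, b = cy E - cy O := ⟨_, rfl⟩
  obtain ⟨f, hf⟩ : ∃ f, f = cy C - cy O := ⟨_, rfl⟩
  obtain ⟨e, he⟩ : ∃ e, e = cx E - cx O := ⟨_, rfl⟩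
  have ha1 : 1000 * R ≤ a := by linarith
  have hb1 : 1000 * R ≤ b := by linarith
  have hf1 : -6 < f := by linarith
  have hf2 : f < -2 := by linarith
  have he1 : -2 < e := by linarith
  have he2 : e < 2 := by linarith
  have ha0 : 0 < a := by linarith
  have hb0 : 0 < b := by linarith
  have hua : 30 * R / a ≤ 3 / 100 := by
    rw [div_le_iff₀ ha0]; linarith
  have hub : 30 * R / b ≤ 3 / 100 := by
    rw [div_le_iff₀ hb0]; linarith
  have hua0 : 0 < 30 * R / a := by positivity
  have hub0 : 0 < 30 * R / b := by positivity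
  have hdOC : dist O C ≤ a + 6 := by
    refine (dist_le_abs O C).trans ?_
    have h1 : |cx O - cx C| ≤ a := by rw [abs_le]; constructor <;> linarith
    have h2 : |cy O - cy C| ≤ 6 := by rw [abs_le]; constructor <;> linarith
    linarith
  have hdOE : dist O E ≤ b + 2 := by
    refine (dist_le_abs O E).trans ?_
    have h1 : |cx O - cx E| ≤ 2 := by rw [abs_le]; constructor <;> linarith
    have h2 : |cy O - cy E| ≤ b := by rw [abs_le]; constructor <;> linarith
    linarith
  have hdCE : dist C E ≤ (cy E - cy C) + 1 := by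
    rw [dist_eq']
    apply Real.sqrt_le_iff.2
    refine ⟨by linarith, ?_⟩
    have h1 : (cx C - cx E) ^ 2 ≤ B ^ 2 := by
      apply pow_le_pow_left₀ <;> linarith
    have h2 : 10 * B ^ 2 - 1 ≤ cy E := by rw [← hH]; linarith
    have h3 : (cy C - cy E) ^ 2 = (cy E - cy C) ^ 2 := by ring
    have h4 : (cy E - cy C + 1) ^ 2 = (cy E - cy C) ^ 2 + 2 * (cy E - cy C) + 1 := by ring
    have h5 : 1 ≤ B ^ 2 := one_le_pow₀ hB1
    rw [h3, h4]
    linarith
  obtain ⟨T, hT, hw⟩ := upper Q O C E (30 * R / a) (30 * R / b) (100 * R) hua0 (by linarith) hub0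
    (by linarith) hc.G (fun q hq => (hc.QE q hq).le) (fun q hq => (hc.QC q hq).le)
    (by
      intro q hq
      obtain ⟨q1, q2⟩ := hQ q hq
      rw [abs_le] at q1 q2
      obtain ⟨X, hX⟩ : ∃ X, X = cx q - cx O := ⟨_, rfl⟩
      obtain ⟨Y, hY⟩ : ∃ Y, Y = cy q - cy O := ⟨_, rfl⟩
      have hX1 : 0 < X := by linarith
      have hX2 : X ≤ 6 * R := by linarith
      have hY1 : 0 < Y := by linarith
      have hY2 : Y ≤ 6 * R := by linarith
      have i1 : - ar O E q = b * X - e * Y := by rw [ar_def, hb, hX, he, hY]; ring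
      have i2 : ar O C q = a * Y - f * X := by rw [ar_def, ha, hX, hf, hY]
      have i3 : ar O C E = a * b - f * e := by rw [ar_def, ha, hb, hf, he]
      rw [i1, i2, i3]
      obtain ⟨u, hu⟩ : ∃ u, u = 1 / a := ⟨_, rfl⟩
      obtain ⟨v, hv⟩ : ∃ v, v = 1 / b := ⟨_, rfl⟩
      have hua' : u * a = 1 := by rw [hu]; field_simp
      have hvb' : v * b = 1 := by rw [hv]; field_simp
      have hu0 : 0 < u := by rw [hu]; positivity
      have hv0 : 0 < v := by rw [hv]; positivity
      have hu1 : u ≤ 1 / 1000 := by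
        rw [hu]
        apply one_div_le_one_div_of_le (by norm_num)
        linarith
      have hv1 : v ≤ 1 / 1000 := by
        rw [hv]
        apply one_div_le_one_div_of_le (by norm_num)
        linarith
      have e3 : 30 * R / a = 30 * R * u := by rw [hu]; ring
      have e4 : 30 * R / b = 30 * R * v := by rw [hv]; ring
      rw [e3, e4]
      have lhs : 30 * R * v * (b * X - e * Y) + 30 * R * u * (a * Y - f * X) =
        30 * R * (X + Y + (v * (-e * Y) + u * (-f * X))) := by
        linear_combination (30 * R * X) * hvb' + (30 * R * Y) * hua'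
      have rhs : 30 * R * u * (30 * R * v) * (a * b - f * e) =
        30 * R * (30 * R * (1 - u * v * (f * e))) := by
        linear_combination (900 * R ^ 2 * (v * b)) * hua' + (900 * R ^ 2) * hvb'
      rw [lhs, rhs]
      apply mul_lt_mul_of_pos_left _ (by linarith)
      have b1 : v * (-e * Y) ≤ 1 / 1000 * (2 * (6 * R)) := by
        have h1 : -e * Y ≤ 2 * (6 * R) := by
          have h2 : -e * Y ≤ 2 * Y := mul_le_mul_of_nonneg_right (by linarith) hY1.le
          linarith
        calc v * (-e * Y) ≤ v * (2 * (6 * R)) := mul_le_mul_of_nonneg_left h1 hv0.le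
          _ ≤ _ := mul_le_mul_of_nonneg_right hv1 (by linarith)
      have b2 : u * (-f * X) ≤ 1 / 1000 * (6 * (6 * R)) := by
        have h1 : -f * X ≤ 6 * (6 * R) := by
          have h2 : -f * X ≤ 6 * X := mul_le_mul_of_nonneg_right (by linarith) hX1.le
          linarith
        calc u * (-f * X) ≤ u * (6 * (6 * R)) := mul_le_mul_of_nonneg_left h1 hu0.le
          _ ≤ _ := mul_le_mul_of_nonneg_right hu1 (by linarith)
      have b3 : u * v * (f * e) ≤ 12 / 1000 := by
        have h1 : f * e ≤ 12 := by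
          have h2 : (-f) * (-e) ≤ (-f) * 2 :=
            mul_le_mul_of_nonneg_left (by linarith) (by linarith)
          have h3 : f * e = (-f) * (-e) := by ring
          linarith
        have h2 : u * v ≤ 1 / 1000 := by
          calc u * v ≤ u * 1 := mul_le_mul_of_nonneg_left (by linarith) hu0.le
            _ ≤ _ := by linarith
        have h3 : 0 < u * v := by positivity
        calc u * v * (f * e) ≤ u * v * 12 := mul_le_mul_of_nonneg_left h1 h3.le
          _ ≤ 1 / 1000 * 12 := mul_le_mul_of_nonneg_right h2 (by norm_num)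
          _ = _ := by norm_num
      have b4 : 30 * R * (1 - 12 / 1000) ≤ 30 * R * (1 - u * v * (f * e)) := by
        apply mul_le_mul_of_nonneg_left (by linarith) (by linarith)
      linarith)
    (by linarith)
    (by
      intro q hq
      obtain ⟨q1, q2⟩ := hQ q hq
      rw [abs_le] at q1 q2
      refine (dist_le_abs O q).trans ?_
      have h1 : |cx O - cx q| ≤ 6 * R := by rw [abs_le]; constructor <;> linarith
      have h2 : |cy O - cy q| ≤ 6 * R := by rw [abs_le]; constructor <;> linarith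
      linarith)
    (by
      have h1 : 30 * R / a * dist O C ≤ 30 * R / a * (a + 6) :=
        mul_le_mul_of_nonneg_left hdOC hua0.le
      have h2 : 30 * R / a * (a + 6) = 30 * R + 30 * R / a * 6 := by field_simp
      linarith)
    (by
      have h1 : 30 * R / b * dist O E ≤ 30 * R / b * (b + 2) :=
        mul_le_mul_of_nonneg_left hdOE hub0.le
      have h2 : 30 * R / b * (b + 2) = 30 * R + 30 * R / b * 2 := by field_simp
      linarith)
  refine ⟨T, hT, hw.trans ?_⟩
  have h1 : ((Q.card : ℝ) + 3) * ((Q.card : ℝ) + 4) * (2 * (100 * R)) ≤ N := by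
    rw [hN]
    have h2 : (Q.card : ℝ) ≤ n := by exact_mod_cast hn
    have h3 : (0 : ℝ) ≤ Q.card := Nat.cast_nonneg _
    have h4 : ((Q.card : ℝ) + 3) * ((Q.card : ℝ) + 4) ≤ ((n : ℝ) + 3) * ((n : ℝ) + 4) :=
      mul_le_mul (by linarith) (by linarith) (by linarith) (by linarith)
    have h5 : (2 * (100 * R)) = 200 * R := by ring
    rw [h5]
    exact mul_le_mul_of_nonneg_right h4 (by linarith)
  rw [hK]
  linarith

/-- the minimum is not attained -/
theorem not_attained {P : Finset Plane}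
    (h : ∀ S T, MinT P S T → False) (T : Finset (Sym2 Plane)) (hT : IsSteinerTriangulation P T) :
    infWeight P < weight T := by
  by_contra hcon
  push Not at hcon
  obtain ⟨S, hPS, hT'⟩ := hT
  apply h S T
  refine ⟨hPS, hT', fun T' hT' => hcon.trans ?_⟩
  apply csInf_le
  · refine ⟨0, ?_⟩
    rintro w ⟨T', -, rfl⟩
    exact weight_nonneg T'
  · exact ⟨T', hT', rfl⟩

/-- open sets of configurations without minimum -/
theorem main (n : ℕ) (ρ : ℝ) : ∃ U V W : Set Plane, IsOpen U ∧ U.Nonempty ∧ IsOpen V ∧ V.Nonempty ∧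
    IsOpen W ∧ W.Nonempty ∧ ∀ Q : Finset Plane, Q.Nonempty → Q.card ≤ n → (∀ q ∈ Q, ‖q‖ ≤ ρ) →
    ∀ a ∈ U, ∀ b ∈ V, ∀ c ∈ W, (PP Q a b c).card = Q.card + 3 ∧
      (∃ T, IsSteinerTriangulation (PP Q a b c) T) ∧
      ∀ T, IsSteinerTriangulation (PP Q a b c) T → infWeight (PP Q a b c) < weight T := by
  classical
  obtain ⟨R, hR⟩ : ∃ R : ℝ, R = max 1 ρ := ⟨_, rfl⟩
  have hR1 : 1 ≤ R := hR ▸ le_max_left _ _
  have hRρ : ρ ≤ R := hR ▸ le_max_right _ _
  obtain ⟨N, hN⟩ : ∃ N, N = ((n : ℝ) + 3) * ((n : ℝ) + 4) * (200 * R) := ⟨_, rfl⟩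
  obtain ⟨L, hL⟩ : ∃ L, L = 2 * N + 1000 * R := ⟨_, rfl⟩
  obtain ⟨K, hK⟩ : ∃ K, K = 2 * L + 100 * R + N := ⟨_, rfl⟩
  obtain ⟨s, hs⟩ : ∃ s, s = 20 * R + K := ⟨_, rfl⟩
  obtain ⟨B, hB⟩ : ∃ B, B = L + s + 100 * R := ⟨_, rfl⟩
  obtain ⟨H, hH⟩ : ∃ H, H = 10 * B ^ 2 := ⟨_, rfl⟩
  have hN0 : 0 ≤ N := by rw [hN]; positivity
  refine ⟨Bx (-4 * R) (-4 * R), Bx L (-4 * R - 4), Bx (-4 * R) H, Bx_open _ _, Bx_nonempty _ _,
    Bx_open _ _, Bx_nonempty _ _, Bx_open _ _, Bx_nonempty _ _, ?_⟩
  intro Q hQne hQn hQρ a ha b hb c hc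
  have hQ : ∀ q ∈ Q, |cx q| ≤ R ∧ |cy q| ≤ R := by
    intro q hq
    have h1 : ‖q‖ ≤ R := (hQρ q hq).trans hRρ
    have h2 : dist q 0 = ‖q‖ := dist_zero_right q
    constructor
    · have := abs_cx_sub_le q 0
      rw [map_zero, sub_zero, h2] at this
      linarith
    · have := abs_cy_sub_le q 0
      rw [map_zero, sub_zero, h2] at this
      linarith
  have hcfg := cfg_of hR1 hN0 hL hK hs hB hH hQne hQ ha hb hc
  obtain ⟨T0, hT0, hw0⟩ := upper_of n hR1 hN hL hK hs hB hH hQn hQ hcfg ha hb hc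
  refine ⟨?_, ⟨T0, hT0⟩, ?_⟩
  · have hab := hcfg.OC
    have hac : a ≠ c := by
      rintro rfl
      exact lt_irrefl _ hcfg.OE
    have hbc : b ≠ c := by
      rintro rfl
      exact lt_irrefl _ hcfg.CE
    have hdis : Disjoint Q {a, b, c} := by
      rw [Finset.disjoint_left]
      intro q hq hq'
      rw [Finset.mem_insert, Finset.mem_insert, Finset.mem_singleton] at hq'
      rcases hq' with h | h | h
      · exact hcfg.QO' hq h.symm
      · have := hcfg.QC q hq
        rw [h, ar_right] at this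
        exact lt_irrefl _ this
      · exact hcfg.QE' hq h
    unfold PP
    rw [Finset.card_union_of_disjoint (by convert hdis)]
    congr 1
    rw [Finset.card_insert_of_notMem, Finset.card_insert_of_notMem, Finset.card_singleton]
    · rw [Finset.mem_singleton]; exact hbc
    · rw [Finset.mem_insert, Finset.mem_singleton, not_or]; exact ⟨hab, hac⟩
  · apply not_attained
    intro S T hm
    exact hcfg.no_min hm ((hm.min T0 hT0).trans hw0)

end Pool.Agent.Y571.ST
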